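import Pool.Agent.R611.HM.Def2

/-!
# The residue field of a definable coarsening with its induced structure
-/

set_option autoImplicit false

namespace Pool.Agent.R611.CX

open FirstOrder Language Structure Pool.Agent.R611.HM IsLocalRing

universe u

/-- For valuation rings `O ≤ Oc` of `K`, the valuation ring `O/𝔪_c` of the residue field
`k_c = Oc/𝔪_c`: the set of residues of elements of `O`. -/
def resRing {K : Type u} [Field K] (O Oc : ValuationSubring K) (h : O ≤ Oc) :
    ValuationSubring (ResidueField Oc) where
  carrier := {x | ∃ y : Oc, (y : K) ∈ O ∧ residue Oc y = x}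
  mul_mem' := by
    rintro _ _ ⟨a, ha, rfl⟩ ⟨b, hb, rfl⟩
    exact ⟨a * b, O.mul_mem _ _ ha hb, map_mul _ _ _⟩
  one_mem' := ⟨1, O.one_mem, map_one _⟩
  add_mem' := by
    rintro _ _ ⟨a, ha, rfl⟩ ⟨b, hb, rfl⟩
    exact ⟨a + b, O.add_mem _ _ ha hb, map_add _ _ _⟩
  zero_mem' := ⟨0, O.zero_mem, map_zero _⟩
  neg_mem' := by
    rintro _ ⟨a, ha, rfl⟩
    exact ⟨-a, O.neg_mem _ ha, map_neg _ _⟩
  mem_or_inv_mem' := by
    intro x
    obtain ⟨y, rfl⟩ := residue_surjective x
    rcases O.mem_or_inv_mem (y : K) with h1 | h1
    · exact Or.inl ⟨y, h1, rfl⟩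
    · right
      by_cases h0 : residue Oc y = 0
      · rw [h0, inv_zero]
        exact ⟨0, O.zero_mem, map_zero _⟩
      · refine ⟨⟨(y : K)⁻¹, h h1⟩, h1, ?_⟩
        have hy : (y : K) ≠ 0 := fun h2 => h0 (by
          have : y = 0 := Subtype.ext h2
          rw [this, map_zero])
        rw [eq_comm, inv_eq_of_mul_eq_one_right]
        rw [← map_mul, ← map_one (residue Oc)]
        congr 1
        exact Subtype.ext (mul_inv_cancel₀ hy)

/-- For a set `R` of `n`-tuples of residues, the set of `n`-tuples of elements of `Oc` whose
residues form a tuple in `R`. -/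
def pull {K : Type u} [Field K] (Oc : ValuationSubring K) {n : ℕ}
    (R : Set (Fin n → ResidueField Oc)) : Set (Fin n → K) :=
  {x | ∃ y : Fin n → Oc, (∀ i, (y i : K) = x i) ∧ (fun i => residue Oc (y i)) ∈ R}

/-- The function symbols of the language of the residue field: `+` and `·`. -/
inductive IndFun : ℕ → Type u
  | add : IndFun 2
  | mul : IndFun 2

/-- The relation symbols of the language of the residue field `k_c`: a symbol for its valuation
ring, and a symbol for each subset `R` of `k_c^n` that is definable in `K` with parameters from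
`B`. -/
inductive IndRel (L : FirstOrder.Language.{u, u}) {K : Type u} [L.Structure K] [Field K]
    (Oc : ValuationSubring K) (B : Set K) : ℕ → Type u
  | ring : IndRel L Oc B 1
  | set {n : ℕ} (R : Set (Fin n → ResidueField Oc)) (h : B.Definable L (pull Oc R)) :
      IndRel L Oc B n

/-- The language of the residue field `k_c` with its induced structure. -/
def IndLang (L : FirstOrder.Language.{u, u}) {K : Type u} [L.Structure K] [Field K]
    (Oc : ValuationSubring K) (B : Set K) : FirstOrder.Language.{u, u} :=
  ⟨IndFun, IndRel L Oc B⟩

/-- The symbols of the language of valued fields in `IndLang`. -/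
def indSym (L : FirstOrder.Language.{u, u}) {K : Type u} [L.Structure K] [Field K]
    (Oc : ValuationSubring K) (B : Set K) : ValSymbols (IndLang L Oc B) where
  add := IndFun.add
  mul := IndFun.mul
  ring := IndRel.ring

/-- The residue field of `Oc'` as a structure, given the interpretations `I` of the symbols for the
definable sets; the other symbols are interpreted by `+`, `·` and `O'/𝔪_c`. -/
@[reducible]
noncomputable def indStr (L : FirstOrder.Language.{u, u}) {K : Type u} [L.Structure K] [Field K]
    (Oc : ValuationSubring K) (B : Set K) {N : Type u} [Field N]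
    (O' Oc' : ValuationSubring N) (h : O' ≤ Oc')
    (I : ∀ (n : ℕ) (R : Set (Fin n → ResidueField Oc)), B.Definable L (pull Oc R) →
      Set (Fin n → ResidueField Oc')) :
    (IndLang L Oc B).Structure (ResidueField Oc') where
  funMap := fun {_} f x => match f, x with
    | IndFun.add, x => x 0 + x 1
    | IndFun.mul, x => x 0 * x 1
  RelMap := fun {n} r x => match r, x with
    | IndRel.ring, x => x 0 ∈ resRing O' Oc' h
    | IndRel.set R hR, x => x ∈ I n R hR

/-- The residue field `k_c` of `Oc` with the structure induced from `K` and its valuation ring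
`O/𝔪_c`: the symbol for the definable set `R` is interpreted by `R`. -/
@[reducible]
noncomputable def indStructure (L : FirstOrder.Language.{u, u}) {K : Type u} [L.Structure K] [Field K]
    (O Oc : ValuationSubring K) (h : O ≤ Oc) (B : Set K) :
    (IndLang L Oc B).Structure (ResidueField Oc) :=
  indStr L Oc B O Oc h fun _ R _ => R

end Pool.Agent.R611.CX
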