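import Pool.Agent.R611.HM.VF

/-!
# Rigid partial isomorphisms of a valued field, as subrings of `K × K`
-/

set_option autoImplicit false

namespace Pool.Agent.R611.CX

open Polynomial Pool.Agent.R611.HM

universe u w

variable {K : Type u} [Field K] {Γ : Type w} [LinearOrderedCommGroupWithZero Γ] {v : Valuation K Γ}

section basic

variable {l : K}

theorem rvl_v_eq (hl1 : v l ≤ 1) {x x' : K} (h : RVl v l x x') : v x' = v x := by
  rcases h with ⟨rfl, rfl⟩ | h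
  · rfl
  · exact v_eq_of_sub_lt (h.trans_le (mul_le_of_le_one_left' hl1))

theorem rvl_ne {x x' : K} (h : RVl v l x x') (hx : x = 0) : x' = 0 := by
  rcases h with ⟨_, h⟩ | h
  · exact h
  · rw [hx, map_zero, mul_zero] at h
    exact absurd h (not_lt.2 zero_le)

theorem rvl_ne' (hl1 : v l ≤ 1) {x x' : K} (h : RVl v l x x') (hx : x' = 0) : x = 0 := by
  have h1 := rvl_v_eq hl1 h
  rw [hx, map_zero] at h1
  exact (Valuation.zero_iff v).1 h1.symm

theorem rvl_lt {x x' : K} (h : RVl v l x x') (hx : x ≠ 0) : v (x - x') < v l * v x := by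
  rcases h with ⟨h, _⟩ | h
  · exact absurd h hx
  · exact h

theorem rvl_symm (hl1 : v l ≤ 1) {x x' : K} (h : RVl v l x x') : RVl v l x' x := by
  have h1 := rvl_v_eq hl1 h
  rcases h with ⟨h, h'⟩ | h
  · exact Or.inl ⟨h', h⟩
  · right
    rw [v_sub_comm, h1]
    exact h

theorem rvl_mul (hl1 : v l ≤ 1) {x x' y y' : K} (hx : RVl v l x x') (hy : RVl v l y y') :
    RVl v l (x * y) (x' * y') := by
  by_cases hx0 : x = 0
  · left
    rw [hx0, rvl_ne hx hx0, zero_mul, zero_mul]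
    exact ⟨rfl, rfl⟩
  by_cases hy0 : y = 0
  · left
    rw [hy0, rvl_ne hy hy0, mul_zero, mul_zero]
    exact ⟨rfl, rfl⟩
  right
  have e : x * y - x' * y' = (x - x') * y' + x * (y - y') := by ring
  have h1 := rvl_lt hx hx0
  have h2 := rvl_lt hy hy0
  have h3 := rvl_v_eq hl1 hy
  have px : 0 < v x := (Valuation.pos_iff v).2 hx0
  have py : 0 < v y := (Valuation.pos_iff v).2 hy0
  rw [e]
  refine v_add_lt ?_ ?_
  · rw [map_mul, map_mul, h3, ← mul_assoc]
    exact mul_lt_mul_of_pos_right h1 py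
  · rw [map_mul, map_mul]
    have : v l * (v x * v y) = v x * (v l * v y) := by
      rw [mul_left_comm]
    rw [this]
    exact mul_lt_mul_of_pos_left h2 px

theorem rvl_one (hl0 : l ≠ 0) : RVl v l 1 1 := RVl.refl hl0 1

theorem rvl_inv (hl1 : v l ≤ 1) {x x' : K} (hx : RVl v l x x') : RVl v l x⁻¹ x'⁻¹ := by
  by_cases hx0 : x = 0
  · left
    rw [hx0, rvl_ne hx hx0, inv_zero]
    exact ⟨rfl, rfl⟩
  have hx0' : x' ≠ 0 := fun h => hx0 (rvl_ne' hl1 hx h)
  right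
  have e : x⁻¹ - x'⁻¹ = -(x - x') * (x⁻¹ * x'⁻¹) := by
    field_simp
    ring
  have h1 := rvl_lt hx hx0
  have h3 := rvl_v_eq hl1 hx
  have px : 0 < v x := (Valuation.pos_iff v).2 hx0
  rw [e, map_mul, Valuation.map_neg, map_mul, map_inv₀, map_inv₀, h3]
  have h4 : v (x - x') * ((v x)⁻¹ * (v x)⁻¹) < v l * v x * ((v x)⁻¹ * (v x)⁻¹) :=
    mul_lt_mul_of_pos_right h1 (mul_pos (inv_pos.2 px) (inv_pos.2 px))
  refine h4.trans_eq ?_
  rw [mul_assoc, ← mul_assoc (v x), mul_inv_cancel₀ px.ne', one_mul]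

theorem rvl_div (hl1 : v l ≤ 1) {x x' y y' : K} (hx : RVl v l x x') (hy : RVl v l y y') :
    RVl v l (x / y) (x' / y') := by
  rw [div_eq_mul_inv, div_eq_mul_inv]
  exact rvl_mul hl1 hx (rvl_inv hl1 hy)

theorem rvl_prod (hl0 : l ≠ 0) (hl1 : v l ≤ 1) {ι : Type*} (s : Multiset ι) (f g : ι → K)
    (h : ∀ i ∈ s, RVl v l (f i) (g i)) : RVl v l (s.map f).prod (s.map g).prod := by
  induction s using Multiset.induction_on with
  | empty => simpa using rvl_one hl0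
  | cons a s ih =>
    rw [Multiset.map_cons, Multiset.prod_cons, Multiset.map_cons, Multiset.prod_cons]
    exact rvl_mul hl1 (h a (Multiset.mem_cons_self a s))
      (ih fun i hi => h i (Multiset.mem_cons_of_mem hi))

/-- closeness passes to other centres -/
theorem rvl_shift (hl0 : l ≠ 0) {t t' c c' s : K} (ht : v (t - t') < v l * v s)
    (hc : RVl v l c c') (hs : v s ≤ v (t + c)) (hcs : v c ≤ v (t + c)) :
    RVl v l (t + c) (t' + c') := by
  have hs0 : 0 < v s := by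
    by_contra h
    have : v s = 0 := le_antisymm (not_lt.1 h) zero_le
    rw [this, mul_zero] at ht
    exact absurd ht (not_lt.2 zero_le)
  have hl : 0 < v l := (Valuation.pos_iff v).2 hl0
  right
  have e : t + c - (t' + c') = (t - t') + (c - c') := by ring
  rw [e]
  refine v_add_lt (ht.trans_le (mul_le_mul_right hs _)) ?_
  by_cases hc0 : c = 0
  · rw [hc0, rvl_ne hc hc0, sub_self, map_zero, add_zero]
    have : 0 < v t := by
      have := hs0.trans_le hs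
      rwa [hc0, add_zero] at this
    exact mul_pos hl this
  · exact (rvl_lt hc hc0).trans_le (mul_le_mul_right hcs _)

end basic

/-- A subring of `K × K` all of whose pairs are close. -/
def Rig (v : Valuation K Γ) (l : K) (D : Subring (K × K)) : Prop := ∀ p ∈ D, RVl v l p.1 p.2

variable {l : K}

/-- the ring of fractions of a rigid ring -/
def frac (D : Subring (K × K)) (h : ∀ p ∈ D, p.1 ≠ 0 → p.2 ≠ 0) : Subring (K × K) where
  carrier := {q | ∃ a ∈ D, ∃ b ∈ D, b.1 ≠ 0 ∧ q = (a.1 / b.1, a.2 / b.2)}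
  mul_mem' := by
    rintro _ _ ⟨a, ha, b, hb, hb0, rfl⟩ ⟨c, hc, d, hd, hd0, rfl⟩
    refine ⟨a * c, D.mul_mem ha hc, b * d, D.mul_mem hb hd, mul_ne_zero hb0 hd0, ?_⟩
    simp only [Prod.mk_mul_mk, Prod.fst_mul, Prod.snd_mul, mul_div_mul_comm]
  one_mem' := ⟨1, D.one_mem, 1, D.one_mem, one_ne_zero, Prod.ext (by simp) (by simp)⟩
  add_mem' := by
    rintro _ _ ⟨a, ha, b, hb, hb0, rfl⟩ ⟨c, hc, d, hd, hd0, rfl⟩
    refine ⟨a * d + b * c, D.add_mem (D.mul_mem ha hd) (D.mul_mem hb hc), b * d,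
      D.mul_mem hb hd, mul_ne_zero hb0 hd0, ?_⟩
    simp only [Prod.mk_add_mk, Prod.fst_mul, Prod.snd_mul, Prod.fst_add, Prod.snd_add]
    rw [div_add_div _ _ hb0 hd0, div_add_div _ _ (h b hb hb0) (h d hd hd0)]
  zero_mem' := ⟨0, D.zero_mem, 1, D.one_mem, one_ne_zero, Prod.ext (by simp) (by simp)⟩
  neg_mem' := by
    rintro _ ⟨a, ha, b, hb, hb0, rfl⟩
    refine ⟨-a, D.neg_mem ha, b, hb, hb0, ?_⟩
    simp only [Prod.neg_mk, Prod.fst_neg, Prod.snd_neg, neg_div]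

theorem le_frac (D : Subring (K × K)) (h : ∀ p ∈ D, p.1 ≠ 0 → p.2 ≠ 0) : D ≤ frac D h := by
  intro p hp
  exact ⟨p, hp, 1, D.one_mem, one_ne_zero, by simp⟩

theorem Rig.ne {D : Subring (K × K)} (hl1 : v l ≤ 1) (hD : Rig v l D) :
    ∀ p ∈ D, p.1 ≠ 0 → p.2 ≠ 0 := fun p hp h0 h => h0 (rvl_ne' hl1 (hD p hp) h)

theorem Rig.frac {D : Subring (K × K)} (hl1 : v l ≤ 1) (hD : Rig v l D) :
    Rig v l (frac D (hD.ne hl1)) := by
  rintro _ ⟨a, ha, b, hb, hb0, rfl⟩
  exact rvl_div hl1 (hD a ha) (hD b hb)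

/-- closed under inverses -/
def InvC (D : Subring (K × K)) : Prop := ∀ p ∈ D, p.1 ≠ 0 → (p.1⁻¹, p.2⁻¹) ∈ D

theorem invC_frac (D : Subring (K × K)) (h : ∀ p ∈ D, p.1 ≠ 0 → p.2 ≠ 0) : InvC (frac D h) := by
  rintro _ ⟨a, ha, b, hb, hb0, rfl⟩ h0
  refine ⟨b, hb, a, ha, ?_, ?_⟩
  · rintro h1
    simp [h1] at h0
  · simp

/-- the first projection of a rigid ring closed under inverses -/
def fld (D : Subring (K × K)) (hi : InvC D) : Subfield K where
  carrier := {x | ∃ y, (x, y) ∈ D}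
  mul_mem' := by
    rintro a b ⟨c, hc⟩ ⟨d, hd⟩
    exact ⟨c * d, D.mul_mem hc hd⟩
  one_mem' := ⟨1, D.one_mem⟩
  add_mem' := by
    rintro a b ⟨c, hc⟩ ⟨d, hd⟩
    exact ⟨c + d, D.add_mem hc hd⟩
  zero_mem' := ⟨0, D.zero_mem⟩
  neg_mem' := by
    rintro a ⟨c, hc⟩
    exact ⟨-c, D.neg_mem hc⟩
  inv_mem' := by
    rintro a ⟨c, hc⟩
    by_cases h0 : a = 0
    · exact ⟨0, by rw [h0, inv_zero]; exact D.zero_mem⟩
    · exact ⟨c⁻¹, hi (a, c) hc h0⟩

/-- a rigid ring closed under inverses is the graph of a homomorphism of a subfield -/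
theorem exists_hom {D : Subring (K × K)} (hD : Rig v l D) (hi : InvC D) :
    ∃ τ : fld D hi →+* K, (∀ x : fld D hi, ((x : K), τ x) ∈ D) ∧
      ∀ p ∈ D, ∃ h : p.1 ∈ fld D hi, τ ⟨p.1, h⟩ = p.2 := by
  have uniq : ∀ x y y', (x, y) ∈ D → (x, y') ∈ D → y = y' := by
    intro x y y' h h'
    have h1 := hD _ (D.sub_mem h h')
    have h2 := rvl_ne h1 (by simp)
    exact sub_eq_zero.1 h2
  choose f hf using fun x : fld D hi => (x.2 : ∃ y, ((x : K), y) ∈ D)
  refine ⟨{ toFun := f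
            map_one' := uniq _ _ _ (hf 1) D.one_mem
            map_mul' := fun x y => uniq _ _ _ (hf (x * y)) (D.mul_mem (hf x) (hf y))
            map_zero' := uniq _ _ _ (hf 0) D.zero_mem
            map_add' := fun x y => uniq _ _ _ (hf (x + y)) (D.add_mem (hf x) (hf y)) },
    hf, ?_⟩
  rintro ⟨x, y⟩ hp
  exact ⟨⟨y, hp⟩, uniq _ _ _ (hf _) hp⟩

section adj

variable {F : Subfield K} {τ : F →+* K}

/-- adjoining a pair to the graph of `τ` -/
noncomputable def adj (τ : F →+* K) (p : K × K) : Subring (K × K) :=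
  (RingHom.prod (eval₂RingHom F.subtype p.1) (eval₂RingHom τ p.2)).range

theorem mem_adj {p q : K × K} : q ∈ adj τ p ↔
    ∃ g : F[X], eval₂ F.subtype p.1 g = q.1 ∧ eval₂ τ p.2 g = q.2 := by
  unfold adj
  rw [RingHom.mem_range]
  refine exists_congr fun g => ?_
  rw [RingHom.prod_apply, Prod.ext_iff]
  rfl

theorem self_mem_adj (p : K × K) : p ∈ adj τ p := mem_adj.2 ⟨X, by simp⟩

theorem graph_mem_adj (p : K × K) (x : F) : ((x : K), τ x) ∈ adj τ p := mem_adj.2 ⟨C x, by simp⟩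

/-- polynomials that split evaluate to close elements -/
theorem rvl_eval_of_splits (hl0 : l ≠ 0) (hl1 : v l ≤ 1) (hτ : ∀ x : F, RVl v l x (τ x))
    {θ θ' : K} (hθ : ∀ c : F, RVl v l (θ - c) (θ' - τ c)) {g : F[X]} (hg : g.Splits) :
    RVl v l (eval₂ F.subtype θ g) (eval₂ τ θ' g) := by
  rw [hg.eq_prod_roots]
  rw [eval₂_mul, eval₂_mul, eval₂_C, eval₂_C, eval₂_multiset_prod, eval₂_multiset_prod,
    Multiset.map_map, Multiset.map_map]
  refine rvl_mul hl1 (hτ _) (rvl_prod hl0 hl1 _ _ _ fun i _ => ?_)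
  simp only [Function.comp, eval₂_sub, eval₂_X, eval₂_C]
  exact hθ i

theorem rig_adj_of_acl [IsAlgClosed F] (hl0 : l ≠ 0) (hl1 : v l ≤ 1)
    (hτ : ∀ x : F, RVl v l x (τ x))
    {θ θ' : K} (hθ : ∀ c : F, RVl v l (θ - c) (θ' - τ c)) : Rig v l (adj τ (θ, θ')) := by
  intro q hq
  obtain ⟨g, h1, h2⟩ := mem_adj.1 hq
  rw [← h1, ← h2]
  exact rvl_eval_of_splits hl0 hl1 hτ hθ (IsAlgClosed.splits g)

end adj

end Pool.Agent.R611.CX
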