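import Pool.Agent.R611.CX.R1

/-!
# Rigid maps extend to algebraic closures
-/

set_option autoImplicit false

namespace Pool.Agent.R611.CX

open Polynomial Pool.Agent.R611.HM

universe u w

variable {K : Type u} [Field K] {Γ : Type w} [LinearOrderedCommGroupWithZero Γ] {v : Valuation K Γ}

theorem v_multiset_sum_lt {ι : Type*} (s : Multiset ι) (f : ι → K) {g : Γ} (hg : 0 < g)
    (hf : ∀ i ∈ s, v (f i) < g) : v (s.map f).sum < g := by
  induction s using Multiset.induction_on with
  | empty => simpa using hg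
  | cons a s ih =>
    rw [Multiset.map_cons, Multiset.sum_cons]
    exact v_add_lt (hf a (Multiset.mem_cons_self a s))
      (ih fun i hi => hf i (Multiset.mem_cons_of_mem hi))

/-- the nearest root -/
theorem newton [IsAlgClosed K] {q : K[X]} {w : K} (h : q.derivative.eval w ≠ 0) :
    ∃ ρ, q.IsRoot ρ ∧ v (w - ρ) * v (q.derivative.eval w) ≤ v (q.eval w) := by
  by_cases hq : q.eval w = 0
  · exact ⟨w, hq, by rw [sub_self, map_zero, zero_mul]; exact zero_le⟩
  have hs := (IsAlgClosed.splits q).eval_derivative_div_eval_of_ne_zero hq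
  have hq0 : q ≠ 0 := fun h0 => hq (by rw [h0, eval_zero])
  by_contra hcon
  push Not at hcon
  have hpos : 0 < v (q.eval w) := (Valuation.pos_iff v).2 hq
  have hpos' : 0 < v (q.derivative.eval w) := (Valuation.pos_iff v).2 h
  have h1 : v (q.roots.map fun z ↦ 1 / (w - z)).sum < v (q.derivative.eval w / q.eval w) := by
    refine v_multiset_sum_lt _ _ ?_ fun z hz => ?_
    · rw [map_div₀]
      exact div_pos hpos' hpos
    · have h2 := hcon z ((mem_roots hq0).1 hz)
      rw [map_div₀, map_div₀, map_one]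
      have h3 : 0 < v (w - z) := by
        by_contra h4
        have : v (w - z) = 0 := le_antisymm (not_lt.1 h4) zero_le
        rw [this, zero_mul] at h2
        exact absurd h2 (not_lt.2 zero_le)
      rw [div_lt_div_iff₀ h3 hpos, one_mul, mul_comm]
      exact h2
  rw [← hs] at h1
  exact lt_irrefl _ h1

/-- coefficients of a product of linear factors -/
theorem coeff_bound {F : Type*} [Field F] (i : F →+* K) (s : Multiset F) (B : F → Γ) (R : Γ)
    (hR : ∀ a ∈ s, R ≤ B a) (ha : ∀ a ∈ s, v (i a) ≤ B a) (k : ℕ) :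
    v (i ((s.map (fun a => (X - C a : F[X]))).prod.coeff k)) * R ^ k ≤ (s.map B).prod := by
  induction s using Multiset.induction_on generalizing k with
  | empty =>
    simp only [Multiset.map_zero, Multiset.prod_zero, coeff_one]
    by_cases hk : k = 0
    · simp [hk]
    · simp [hk]
  | cons a s ih =>
    have ih' := ih (fun a ha => hR a (Multiset.mem_cons_of_mem ha))
      (fun b hb => ha b (Multiset.mem_cons_of_mem hb))
    rw [Multiset.map_cons, Multiset.prod_cons, Multiset.map_cons, Multiset.prod_cons, sub_mul,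
      coeff_sub, coeff_C_mul, map_sub]
    have h1 : v (i a * i ((s.map (fun a => (X - C a : F[X]))).prod.coeff k)) * R ^ k ≤
        B a * (s.map B).prod := by
      rw [map_mul, mul_assoc]
      exact mul_le_mul' (ha a (Multiset.mem_cons_self a s)) (ih' k)
    have h2 : v (i ((X * (s.map (fun a => (X - C a : F[X]))).prod).coeff k)) * R ^ k ≤
        B a * (s.map B).prod := by
      rcases k with _ | k
      · simp
      · rw [coeff_X_mul, pow_succ, mul_comm (R ^ k), mul_left_comm]
        exact mul_le_mul' (hR a (Multiset.mem_cons_self a s)) (ih' k)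
    rw [map_mul i]
    rcases le_total (v (i ((X * (s.map (fun a => (X - C a : F[X]))).prod).coeff k)))
      (v (i a * i ((s.map (fun a => (X - C a : F[X]))).prod.coeff k))) with h3 | h3
    · exact (mul_le_mul_left (v_sub_le h3 le_rfl) _).trans h1
    · exact (mul_le_mul_left (v_sub_le le_rfl h3) _).trans h2

/-- Polynomials of small degree split when the degree is below all degrees of irreducible
polynomials. -/
theorem splits_of_lt {F : Type*} [Field F] {n : ℕ}
    (hmin : ∀ g : F[X], Irreducible g → 2 ≤ g.natDegree → n ≤ g.natDegree) (g : F[X])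
    (hg : g.natDegree < n) : g.Splits := by
  by_cases hg0 : g = 0
  · rw [hg0]; exact Splits.zero
  obtain ⟨u, hu⟩ := UniqueFactorizationMonoid.factors_prod hg0
  rw [← hu]
  refine (Splits.multisetProd fun p hp ↦ ?_).mul u.isUnit.splits
  have hirr := UniqueFactorizationMonoid.irreducible_of_factor p hp
  have hd := UniqueFactorizationMonoid.dvd_of_mem_factors hp
  have h1 := natDegree_le_of_dvd hd hg0
  have h2 : p.natDegree < 2 := by
    by_contra hc
    have := hmin p hirr (not_lt.1 hc)
    omega
  exact Splits.of_natDegree_le_one (by omega)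

section core

variable {F : Subfield K} {τ : F →+* K} {l : K}

theorem core_claim [IsAlgClosed K] (hnat : ∀ n : ℕ, n ≠ 0 → v (n : K) = 1) (hl0 : l ≠ 0)
    (hl1 : v l ≤ 1) (hτ : ∀ x : F, RVl v l x (τ x)) {f : F[X]} (hf : f.Monic)
    (hf' : f.derivative.Splits) (hn : 2 ≤ f.natDegree) {θ : K} (hθF : θ ∉ F)
    (hθ : eval₂ F.subtype θ f = 0) (c : F)
    (hc : ∀ e ∈ f.derivative.roots, v (θ - c) ≤ v (θ - e)) :
    ∃ ρ, eval₂ τ ρ f = 0 ∧ v (τ c + (θ - c) - ρ) < v l * v (θ - c) := by
  have hc0K : CharZero K := ⟨fun a b h => by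
    by_contra hab
    rcases Nat.lt_or_gt_of_ne hab with h1 | h1
    · have h2 := hnat (b - a) (by omega)
      rw [Nat.cast_sub h1.le, h, sub_self, map_zero] at h2
      exact zero_ne_one h2
    · have h2 := hnat (a - b) (by omega)
      rw [Nat.cast_sub h1.le, h, sub_self, map_zero] at h2
      exact zero_ne_one h2⟩
  have hc0F : CharZero F := RingHom.charZero F.subtype
  set t : K := θ - c with ht
  set R : Γ := v t with hR
  have ht0 : t ≠ 0 := fun h => hθF (by rw [sub_eq_zero.1 h]; exact c.2)
  have hR0 : 0 < R := (Valuation.pos_iff v).2 ht0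
  have hl : 0 < v l := (Valuation.pos_iff v).2 hl0
  set s : Multiset F := f.derivative.roots.map (fun e => e - c) with hs
  have hsR : ∀ a ∈ s, R ≤ v (t - a) := by
    intro a ha
    obtain ⟨e, he, rfl⟩ := Multiset.mem_map.1 ha
    have h1 := hc e he
    have h2 : t - ((e - c : F) : K) = θ - e := by
      rw [ht, AddSubgroupClass.coe_sub]; ring
    rw [h2]
    exact h1
  have hsa : ∀ a ∈ s, v (a : K) ≤ v (t - a) := by
    intro a ha
    have h1 := hsR a ha
    have h2 : (a : K) = t - (t - a) := by ring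
    calc v (a : K) = v (t - (t - a)) := by rw [← h2]
      _ ≤ v (t - a) := v_sub_le h1 le_rfl
  set M : Γ := (s.map (fun a : F => v (t - a))).prod with hM
  set fc : F[X] := f.comp (X + C c) with hfc
  have hder : derivative fc = C (f.natDegree : F) * (s.map (fun a => (X - C a : F[X]))).prod := by
    rw [hfc, derivative_comp, derivative_add, derivative_X, derivative_C, add_zero, one_mul]
    conv_lhs => rw [hf'.eq_prod_roots, leadingCoeff_derivative, hf.leadingCoeff, one_mul]
    rw [mul_comp, C_comp, multiset_prod_comp, Multiset.map_map, hs, Multiset.map_map]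
    congr 2
    refine Multiset.map_congr rfl fun e _ => ?_
    simp only [Function.comp, sub_comp, X_comp, C_comp, map_sub]
    ring
  have hbd : ∀ k, v (fc.coeff (k + 1) : K) * R ^ k ≤ M := by
    intro k
    have h1 := coeff_bound (v := v) F.subtype s (fun a => v (t - a)) R hsR hsa k
    have h2 : (derivative fc).coeff k = fc.coeff (k + 1) * ((k : F) + 1) := coeff_derivative _ _
    rw [hder, coeff_C_mul] at h2
    have h3 : v ((f.natDegree : F) : K) = 1 := by
      have : ((f.natDegree : F) : K) = (f.natDegree : K) := map_natCast F.subtype _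
      rw [this]
      exact hnat _ (by omega)
    have h4 : v (((k : F) + 1 : F) : K) = 1 := by
      have : (((k : F) + 1 : F) : K) = ((k + 1 : ℕ) : K) := by push_cast; rfl
      rw [this]
      exact hnat _ (by omega)
    have h5 := congrArg (fun x : F => v (x : K)) h2
    simp only [MulMemClass.coe_mul, map_mul] at h5
    rw [h3, one_mul, h4, mul_one] at h5
    rw [← h5]
    exact h1
  have ht1 : eval₂ F.subtype t fc = 0 := by
    rw [hfc, eval₂_comp, eval₂_add, eval₂_X, eval₂_C, ht]
    have : θ - (c : K) + F.subtype c = θ := by simp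
    rw [this]
    exact hθ
  have hw : ∀ g : F[X], eval₂ τ (τ c + t) g = eval₂ τ t (g.comp (X + C c)) := by
    intro g
    rw [eval₂_comp, eval₂_add, eval₂_X, eval₂_C, add_comm]
  set q : K[X] := f.map τ with hq
  set w : K := τ c + t with hwdef
  have hqw : q.eval w = eval₂ τ t fc := by
    rw [hq, eval_map, hwdef, hw]
  have hqd : q.derivative.eval w =
      τ (f.natDegree : F) * (s.map (fun a => t - τ a)).prod := by
    have h1 : f.derivative.comp (X + C c) = derivative fc := by
      rw [hfc, derivative_comp, derivative_add, derivative_X, derivative_C, add_zero, one_mul]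
    rw [hq, derivative_map, eval_map, hwdef, hw, h1, hder, eval₂_mul, eval₂_C,
      eval₂_multiset_prod, Multiset.map_map]
    congr 2
    refine Multiset.map_congr rfl fun e _ => ?_
    simp only [Function.comp, eval₂_sub, eval₂_X, eval₂_C]
  have hvs : ∀ a ∈ s, v (t - τ a) = v (t - a) := by
    intro a ha
    refine v_eq_of_sub_lt ?_
    have e : t - (a : K) - (t - τ a) = -((a : K) - τ a) := by ring
    rw [e, Valuation.map_neg]
    by_cases ha0 : (a : K) = 0
    · have h1 := rvl_ne (hτ a) ha0
      rw [ha0, h1, sub_zero, map_zero, sub_zero]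
      exact hR0
    · exact ((rvl_lt (hτ a) ha0).trans_le (mul_le_of_le_one_left' hl1)).trans_le (hsa a ha)
  have hvq : v (q.derivative.eval w) = M := by
    rw [hqd, map_mul, map_natCast, hnat _ (by omega), one_mul, map_multiset_prod,
      Multiset.map_map, hM]
    congr 1
    exact Multiset.map_congr rfl fun a ha => hvs a ha
  have hM0 : 0 < M := by
    refine zero_lt_iff.2 ?_
    rw [hM]
    refine Multiset.prod_ne_zero ?_
    intro h
    obtain ⟨a, ha, ha0⟩ := Multiset.mem_map.1 h
    have := hsR a ha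
    rw [ha0] at this
    exact absurd hR0 (not_lt.2 this)
  have hb : ∀ k, v (fc.coeff k : K) * R ^ k ≤ M * R := by
    have h1 : ∀ k, v (fc.coeff (k + 1) : K) * R ^ (k + 1) ≤ M * R := by
      intro k
      rw [pow_succ, ← mul_assoc]
      exact mul_le_mul_left (hbd k) _
    intro k
    rcases k with _ | k
    · rw [eval₂_eq_sum_range, Finset.sum_range_succ'] at ht1
      rw [pow_zero, mul_one]
      have h2 : (fc.coeff 0 : K) =
          -∑ k ∈ Finset.range fc.natDegree, F.subtype (fc.coeff (k + 1)) * t ^ (k + 1) := by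
        rw [pow_zero, mul_one] at ht1
        exact eq_neg_of_add_eq_zero_right ht1
      rw [h2, Valuation.map_neg]
      refine Valuation.map_sum_le v fun i _ => ?_
      rw [map_mul, map_pow]
      exact h1 i
    · exact h1 k
  have hvw : v (q.eval w) < v l * (M * R) := by
    have h1 : q.eval w = ∑ k ∈ Finset.range (fc.natDegree + 1),
        (τ (fc.coeff k) - (fc.coeff k : K)) * t ^ k := by
      rw [hqw, ← sub_zero (eval₂ τ t fc), ← ht1, eval₂_eq_sum_range, eval₂_eq_sum_range,
        ← Finset.sum_sub_distrib]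
      refine Finset.sum_congr rfl fun k _ => ?_
      rw [sub_mul]
      rfl
    rw [h1]
    refine Valuation.map_sum_lt' v (mul_pos hl (mul_pos hM0 hR0)) fun k _ => ?_
    by_cases hk : (fc.coeff k : K) = 0
    · rw [hk, rvl_ne (hτ _) hk, sub_zero, zero_mul, map_zero]
      exact mul_pos hl (mul_pos hM0 hR0)
    · rw [map_mul, map_pow, v_sub_comm]
      have h2 := rvl_lt (hτ (fc.coeff k)) hk
      refine (mul_lt_mul_of_pos_right h2 (pow_pos hR0 k)).trans_le ?_
      rw [mul_assoc]
      exact mul_le_mul_right (hb k) _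
  obtain ⟨ρ, hρ, hρ'⟩ := newton (v := v) (q := q) (w := w) (fun h => by
    rw [h, map_zero] at hvq
    exact absurd hvq.symm hM0.ne')
  refine ⟨ρ, ?_, ?_⟩
  · rw [← eval_map]
    exact hρ
  · rw [hvq] at hρ'
    have h3 := hρ'.trans_lt hvw
    have h4 : v l * (M * R) = v l * R * M := by
      rw [mul_comm M R, mul_assoc]
    rw [h4] at h3
    exact lt_of_mul_lt_mul_right' h3

/-- An algebraic extension step: if `F` is not algebraically closed, the map can be enlarged. -/
theorem core [IsAlgClosed K] (hnat : ∀ n : ℕ, n ≠ 0 → v (n : K) = 1) (hl0 : l ≠ 0)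
    (hl1 : v l ≤ 1) (hτ : ∀ x : F, RVl v l x (τ x)) (hF : ¬ IsAlgClosed F) :
    ∃ θ ρ : K, θ ∉ F ∧ Rig v l (adj τ (θ, ρ)) := by
  classical
  have hex : ∃ n, ∃ f : F[X], Irreducible f ∧ f.Monic ∧ f.natDegree = n ∧ 2 ≤ n := by
    by_contra hcon
    push Not at hcon
    refine hF (IsAlgClosed.of_exists_root F fun p hp hirr => ?_)
    have h1 := hcon p.natDegree p hirr hp rfl
    have h2 : p.natDegree ≠ 0 := (Irreducible.natDegree_pos hirr).ne'
    have h3 : p.natDegree = 1 := by omega
    obtain ⟨x, hx⟩ := (Splits.of_natDegree_le_one h3.le).exists_eval_eq_zero (by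
      intro h
      have := natDegree_eq_of_degree_eq_some (n := 0) h
      omega)
    exact ⟨x, hx⟩
  obtain ⟨f, hfi, hfm, hfn, hn2⟩ := Nat.find_spec hex
  set n := Nat.find hex with hn
  have hmin : ∀ g : F[X], Irreducible g → 2 ≤ g.natDegree → n ≤ g.natDegree := by
    intro g hg hg2
    refine Nat.find_min' hex ⟨g * C g.leadingCoeff⁻¹, ?_, ?_, ?_, hg2⟩
    · have hu : IsUnit (C g.leadingCoeff⁻¹ : F[X]) := by
        rw [isUnit_C]
        exact (inv_ne_zero (leadingCoeff_ne_zero.2 hg.ne_zero)).isUnit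
      exact (irreducible_mul_isUnit hu).2 hg
    · exact monic_mul_leadingCoeff_inv hg.ne_zero
    · exact natDegree_mul_leadingCoeff_inv g hg.ne_zero
  have hsp := splits_of_lt hmin
  have hf' : f.derivative.Splits := by
    refine hsp _ ?_
    have := natDegree_derivative_lt (p := f) (by omega)
    omega
  have hc0K : CharZero K := ⟨fun a b h => by
    by_contra hab
    rcases Nat.lt_or_gt_of_ne hab with h1 | h1
    · have h2 := hnat (b - a) (by omega)
      rw [Nat.cast_sub h1.le, h, sub_self, map_zero] at h2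
      exact zero_ne_one h2
    · have h2 := hnat (a - b) (by omega)
      rw [Nat.cast_sub h1.le, h, sub_self, map_zero] at h2
      exact zero_ne_one h2⟩
  have hc0F : CharZero F := RingHom.charZero F.subtype
  -- a root of f in K
  obtain ⟨θ, hθ⟩ : ∃ θ : K, eval₂ F.subtype θ f = 0 := by
    obtain ⟨x, hx⟩ := IsAlgClosed.exists_root (f.map F.subtype) (by
      rw [degree_map]
      exact (degree_pos_of_irreducible hfi).ne')
    exact ⟨x, by rw [← eval_map]; exact hx⟩
  have hθF : θ ∉ F := by
    intro h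
    have h1 : f.IsRoot ⟨θ, h⟩ := by
      have h2 : eval₂ F.subtype (F.subtype ⟨θ, h⟩) f = F.subtype (f.eval ⟨θ, h⟩) :=
        eval₂_at_apply _ _
      rw [show F.subtype ⟨θ, h⟩ = θ from rfl, hθ] at h2
      exact (F.subtype.injective (by rw [map_zero]; exact h2.symm))
    have h2 : f.degree = 1 := degree_eq_one_of_irreducible_of_root hfi h1
    have h3 : f.natDegree = 1 := natDegree_eq_of_degree_eq_some h2
    omega
  -- the nearest root of the derivative
  have hroots : f.derivative.roots.toFinset.Nonempty := by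
    have h1 := hf'.natDegree_eq_card_roots
    rw [natDegree_derivative] at h1
    by_contra hne
    rw [Finset.not_nonempty_iff_eq_empty, Multiset.toFinset_eq_empty] at hne
    rw [hne, Multiset.card_zero] at h1
    omega
  obtain ⟨c₀, hc₀, hc₀m⟩ := Finset.exists_min_image _ (fun e : F => v (θ - e)) hroots
  have hclaim : ∀ c : F, v (θ - c) ≤ v (θ - c₀) →
      ∃ ρ, eval₂ τ ρ f = 0 ∧ v (τ c + (θ - c) - ρ) < v l * v (θ - c) := by
    intro c hc
    exact core_claim hnat hl0 hl1 hτ hfm hf' (by omega) hθF hθ c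
      fun e he => hc.trans (hc₀m e (Multiset.mem_toFinset.2 he))
  have hne : ∀ c : F, θ - (c : K) ≠ 0 := fun c h => hθF (by rw [sub_eq_zero.1 h]; exact c.2)
  have hup : ∀ (ρ : K) (c₁ c : F), v (τ c₁ + (θ - c₁) - ρ) < v l * v (θ - c₁) →
      v (θ - c₁) ≤ v (θ - c) → v (τ c + (θ - c) - ρ) < v l * v (θ - c) := by
    intro ρ c₁ c h1 h2
    have e : τ c + (θ - c) - ρ = (τ c₁ + (θ - c₁) - ρ) + (((c₁ - c : F) : K) - τ (c₁ - c)) := by
      rw [map_sub, AddSubgroupClass.coe_sub]; ring
    rw [e]
    refine v_add_lt (h1.trans_le (mul_le_mul_right h2 _)) ?_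
    have hpos : 0 < v l * v (θ - c) :=
      mul_pos ((Valuation.pos_iff v).2 hl0) ((Valuation.pos_iff v).2 (hne c))
    by_cases h0 : ((c₁ - c : F) : K) = 0
    · rw [h0, rvl_ne (hτ _) h0, sub_zero, map_zero]
      exact hpos
    · refine (rvl_lt (hτ _) h0).trans_le (mul_le_mul_right ?_ _)
      have e2 : ((c₁ - c : F) : K) = (θ - c) - (θ - c₁) := by
        rw [AddSubgroupClass.coe_sub]; ring
      rw [e2]
      exact v_sub_le le_rfl h2
  -- one root works for all c
  obtain ⟨ρ, hρ0, hρ⟩ : ∃ ρ, eval₂ τ ρ f = 0 ∧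
      ∀ c : F, v (τ c + (θ - c) - ρ) < v l * v (θ - c) := by
    by_contra hcon
    push Not at hcon
    have hfin : {ρ : K | eval₂ τ ρ f = 0}.Finite := by
      have hf0 : f.map τ ≠ 0 := (hfm.map τ).ne_zero
      refine (f.map τ).roots.toFinset.finite_toSet.subset fun ρ hρ => ?_
      rw [Finset.mem_coe, Multiset.mem_toFinset, mem_roots hf0, IsRoot.def, eval_map]
      exact hρ
    choose bad hbad using fun ρ : {ρ : K | eval₂ τ ρ f = 0} => hcon ρ.1 ρ.2
    have hfin' : (insert c₀ (Set.range bad)).Finite := by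
      have := hfin.to_subtype
      exact (Set.finite_range _).insert _
    obtain ⟨c₁, hc₁, hc₁m⟩ := Set.exists_min_image _ (fun e : F => v (θ - e)) hfin'
      ⟨c₀, Set.mem_insert _ _⟩
    obtain ⟨ρ, hρ0, hρ⟩ := hclaim c₁ (hc₁m c₀ (Set.mem_insert _ _))
    have h1 := hup ρ c₁ (bad ⟨ρ, hρ0⟩) hρ (hc₁m _ (Set.mem_insert_of_mem _ ⟨_, rfl⟩))
    exact absurd h1 (not_lt.2 (hbad ⟨ρ, hρ0⟩))
  refine ⟨θ, ρ, hθF, ?_⟩
  intro q hq
  obtain ⟨g, h1, h2⟩ := mem_adj.1 hq
  have hcl : ∀ c : F, RVl v l (θ - c) (ρ - τ c) := by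
    intro c
    right
    have e : θ - c - (ρ - τ c) = τ c + (θ - c) - ρ := by ring
    rw [e]
    exact hρ c
  have hg : (g %ₘ f).natDegree < n := by
    rw [← hfn]
    refine natDegree_modByMonic_lt g hfm ?_
    intro h
    rw [h, natDegree_one] at hfn
    omega
  have h3 := rvl_eval_of_splits hl0 hl1 hτ hcl (hsp _ hg)
  have h4 := modByMonic_add_div g f
  have h5 : eval₂ F.subtype θ g = eval₂ F.subtype θ (g %ₘ f) := by
    conv_lhs => rw [← h4]
    rw [eval₂_add, eval₂_mul, hθ, zero_mul, add_zero]
  have h6 : eval₂ τ ρ g = eval₂ τ ρ (g %ₘ f) := by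
    conv_lhs => rw [← h4]
    rw [eval₂_add, eval₂_mul, hρ0, zero_mul, add_zero]
  rw [← h1, ← h2]
  change RVl v l (eval₂ F.subtype θ g) (eval₂ τ ρ g)
  rw [h5, h6]
  exact h3

end core

end Pool.Agent.R611.CX
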