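import Pool.Agent.R611.CX.R2
import Pool.Agent.R611.HM.T1a

/-!
# Extension of countable rigid maps
-/

set_option autoImplicit false

namespace Pool.Agent.R611.CX

open Polynomial Pool.Agent.R611.HM

universe u w

variable {K : Type u} [Field K] {Γ : Type w} [LinearOrderedCommGroupWithZero Γ] {v : Valuation K Γ}
  {l : K}

/-- maximal rigid rings -/
theorem exists_max {D : Subring (K × K)} (hD : Rig v l D) :
    ∃ D', D ≤ D' ∧ Rig v l D' ∧ ∀ D'', Rig v l D'' → D' ≤ D'' → D'' ≤ D' := by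
  obtain ⟨m, hm, hmax⟩ := zorn_le_nonempty₀ {D : Subring (K × K) | Rig v l D} (by
    intro c hcs hc y hy
    refine ⟨sSup c, ?_, fun z hz => le_sSup hz⟩
    intro p hp
    rw [Subring.mem_sSup_of_directedOn ⟨y, hy⟩ hc.directedOn] at hp
    obtain ⟨E, hE, hpE⟩ := hp
    exact hcs hE p hpE) D hD
  exact ⟨m, hm, hmax.prop, fun D'' h h' => hmax.2 h h'⟩

/-- Countable rigid rings extend to algebraically closed countable rigid fields. -/
theorem closeup [IsAlgClosed K] (hnat : ∀ n : ℕ, n ≠ 0 → v (n : K) = 1) (hl0 : l ≠ 0)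
    (hl1 : v l ≤ 1) {D : Subring (K × K)} (hD : Rig v l D) (hc : (D : Set (K × K)).Countable) :
    ∃ (F : Subfield K) (τ : F →+* K), IsAlgClosed F ∧ Countable F ∧
      (∀ x : F, RVl v l x (τ x)) ∧ ∀ p ∈ D, ∃ h : p.1 ∈ F, τ ⟨p.1, h⟩ = p.2 := by
  set D₁ := frac D (hD.ne hl1) with hD₁
  have hD₁r : Rig v l D₁ := hD.frac hl1
  have hD₁i : InvC D₁ := invC_frac _ _
  have hD₁c : (D₁ : Set (K × K)).Countable := by
    have h1 : (D₁ : Set (K × K)) ⊆
        (fun q : (K × K) × (K × K) => (q.1.1 / q.2.1, q.1.2 / q.2.2)) ''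
          ((D : Set (K × K)) ×ˢ (D : Set (K × K))) := by
      rintro _ ⟨a, ha, b, hb, _, rfl⟩
      exact ⟨(a, b), ⟨ha, hb⟩, rfl⟩
    exact ((hc.prod hc).image _).mono h1
  set F₀ := fld D₁ hD₁i with hF₀
  have hF₀c : Countable F₀ := by
    have h1 : (F₀ : Set K) ⊆ Prod.fst '' (D₁ : Set (K × K)) := by
      rintro x ⟨y, hy⟩
      exact ⟨(x, y), hy, rfl⟩
    exact ((hD₁c.image _).mono h1).to_subtype
  obtain ⟨D', hDD', hD'r, hD'm⟩ := exists_max hD₁r
  have hD'i : InvC D' := by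
    intro p hp hp0
    have h1 := hD'm _ (hD'r.frac hl1) (le_frac _ _)
    exact h1 (invC_frac _ _ p (le_frac _ _ hp) hp0)
  obtain ⟨τ', hτ', hτ''⟩ := exists_hom hD'r hD'i
  have hF'a : IsAlgClosed (fld D' hD'i) := by
    by_contra hcon
    obtain ⟨θ, ρ, hθ, hr⟩ := core hnat hl0 hl1 (fun x => hD'r _ (hτ' x)) hcon
    have h1 : D' ≤ adj τ' (θ, ρ) := by
      intro p hp
      obtain ⟨h2, h3⟩ := hτ'' p hp
      have := graph_mem_adj (τ := τ') (θ, ρ) ⟨p.1, h2⟩
      rw [h3] at this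
      exact this
    exact hθ ⟨ρ, hD'm _ hr h1 (self_mem_adj _)⟩
  have hle : F₀ ≤ fld D' hD'i := by
    rintro x ⟨y, hy⟩
    exact ⟨y, hDD' hy⟩
  have hA : (algebraicClosure F₀ K).toSubfield ≤ fld D' hD'i := by
    intro x hx
    have h1 : IsAlgebraic F₀ x := mem_algebraicClosure_iff.1 hx
    obtain ⟨p, hp0, hp⟩ := h1
    have hinj : Function.Injective (Subfield.inclusion hle) := (Subfield.inclusion hle).injective
    refine Splits.mem_subfield_of_isRoot (fld D' hD'i)
      (f := p.map (Subfield.inclusion hle)) (IsAlgClosed.splits _) ?_ ?_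
    · rwa [Ne, Polynomial.map_eq_zero_iff hinj]
    · rw [Polynomial.map_map, IsRoot.def, eval_map]
      exact hp
  refine ⟨(algebraicClosure F₀ K).toSubfield, τ'.comp (Subfield.inclusion hA), ?_, ?_, ?_, ?_⟩
  · exact (algebraicClosure.isAlgClosure F₀ K).isAlgClosed
  · have h1 := Algebraic.countable F₀ K
    have h2 : ((algebraicClosure F₀ K).toSubfield : Set K) ⊆ {x : K | IsAlgebraic F₀ x} := by
      intro x hx
      exact mem_algebraicClosure_iff.1 hx
    exact (h1.mono h2).to_subtype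
  · intro x
    exact hD'r _ (hτ' (Subfield.inclusion hA x))
  · intro p hp
    obtain ⟨h2, h3⟩ := hτ'' p (hDD' (le_frac _ _ hp))
    have h4 : p.1 ∈ F₀ := ⟨p.2, le_frac _ _ hp⟩
    refine ⟨?_, h3⟩
    exact mem_algebraicClosure_iff.2 (isAlgebraic_algebraMap (⟨p.1, h4⟩ : F₀))

/-- countable spherical completeness -/
def SC (v : Valuation K Γ) : Prop := ∀ c r : ℕ → K,
  (∀ n, ∃ x, ∀ k ≤ n, v (x - c k) < v (r k)) → ∃ x, ∀ n, v (x - c n) < v (r n)

theorem countable_adj {F : Subfield K} [Countable F] (τ : F →+* K) (p : K × K) :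
    (adj τ p : Set (K × K)).Countable := by
  have : Countable F[X] := by
    have h1 := Polynomial.cardinalMk_le_max (R := F)
    have h2 : Cardinal.mk F ≤ Cardinal.aleph0 := Cardinal.mk_le_aleph0_iff.2 inferInstance
    rw [max_eq_right h2] at h1
    exact Cardinal.mk_le_aleph0_iff.1 h1
  unfold adj
  rw [RingHom.coe_range]
  exact Set.countable_range _

/-- adding one element to the domain -/
theorem ext1 [IsAlgClosed K] (hnat : ∀ n : ℕ, n ≠ 0 → v (n : K) = 1) (hS : SC v) (hl0 : l ≠ 0)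
    (hl1 : v l ≤ 1) {D : Subring (K × K)} (hD : Rig v l D) (hc : (D : Set (K × K)).Countable)
    (b : K) : ∃ (b' : K) (D' : Subring (K × K)), D ≤ D' ∧ Rig v l D' ∧
      (D' : Set (K × K)).Countable ∧ (b, b') ∈ D' := by
  obtain ⟨F, τ, hFa, hFc, hτ, hDF⟩ := closeup hnat hl0 hl1 hD hc
  have key : ∃ b' : K, ∀ c : F, RVl v l (b - c) (b' - τ c) := by
    by_cases hb : b ∈ F
    · refine ⟨τ ⟨b, hb⟩, fun c => ?_⟩
      have := hτ (⟨b, hb⟩ - c)
      rw [map_sub] at this
      exact this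
    · have hne : ∀ c : F, b - (c : K) ≠ 0 := fun c h => hb (by rw [sub_eq_zero.1 h]; exact c.2)
      obtain ⟨e, he⟩ := exists_surjective_nat F
      have hcl : ∀ c₁ c : F, v (b - c₁) ≤ v (b - c) →
          v (τ c₁ + (b - c₁) - (τ c + (b - c))) < v (l * (b - c)) := by
        intro c₁ c h
        have e1 : τ c₁ + (b - c₁) - (τ c + (b - c)) =
            -(((c₁ - c : F) : K) - τ (c₁ - c)) := by
          rw [map_sub, AddSubgroupClass.coe_sub]; ring
        rw [e1, Valuation.map_neg]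
        by_cases h0 : ((c₁ - c : F) : K) = 0
        · rw [h0, rvl_ne (hτ _) h0, sub_zero, map_zero]
          exact (Valuation.pos_iff v).2 (mul_ne_zero hl0 (hne c))
        · rw [map_mul]
          refine (rvl_lt (hτ _) h0).trans_le (mul_le_mul_right ?_ _)
          have e2 : ((c₁ - c : F) : K) = (b - c) - (b - c₁) := by
            rw [AddSubgroupClass.coe_sub]; ring
          rw [e2]
          exact v_sub_le le_rfl h
      obtain ⟨x, hx⟩ := hS (fun n => τ (e n) + (b - e n)) (fun n => l * (b - e n)) (by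
        intro n
        obtain ⟨k₀, hk₀, hk₀m⟩ := Finset.exists_min_image (Finset.range (n + 1))
          (fun k => v (b - e k)) ⟨0, by simp⟩
        exact ⟨τ (e k₀) + (b - e k₀), fun k hk =>
          hcl _ _ (hk₀m k (Finset.mem_range.2 (by omega)))⟩)
      refine ⟨x, fun c => ?_⟩
      obtain ⟨n, rfl⟩ := he c
      right
      have h1 := hx n
      rw [map_mul] at h1
      have e1 : b - (e n : K) - (x - τ (e n)) = -(x - (τ (e n) + (b - e n))) := by ring
      rw [e1, Valuation.map_neg]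
      exact h1
  obtain ⟨b', hb'⟩ := key
  refine ⟨b', adj τ (b, b'), ?_, rig_adj_of_acl hl0 hl1 hτ hb', countable_adj τ _,
    self_mem_adj _⟩
  intro p hp
  obtain ⟨h1, h2⟩ := hDF p hp
  have := graph_mem_adj (τ := τ) (b, b') ⟨p.1, h1⟩
  rw [h2] at this
  exact this

/-- adding finitely many elements to the domain -/
theorem extN [IsAlgClosed K] (hnat : ∀ n : ℕ, n ≠ 0 → v (n : K) = 1) (hS : SC v) (hl0 : l ≠ 0)
    (hl1 : v l ≤ 1) {D : Subring (K × K)} (hD : Rig v l D) (hc : (D : Set (K × K)).Countable)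
    {X : Set K} (hX : X.Finite) : ∃ D' : Subring (K × K), D ≤ D' ∧ Rig v l D' ∧
      (D' : Set (K × K)).Countable ∧ ∀ b ∈ X, ∃ b', (b, b') ∈ D' := by
  induction X, hX using Set.Finite.induction_on with
  | empty => exact ⟨D, le_rfl, hD, hc, fun b hb => absurd hb (Set.notMem_empty b)⟩
  | insert _ _ ih =>
    obtain ⟨D₁, h1, h2, h3, h4⟩ := ih
    obtain ⟨b', D₂, h5, h6, h7, h8⟩ := ext1 hnat hS hl0 hl1 h2 h3 _
    refine ⟨D₂, h1.trans h5, h6, h7, ?_⟩
    rintro b (rfl | hb)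
    · exact ⟨b', h8⟩
    · obtain ⟨c, hc⟩ := h4 b hb
      exact ⟨c, h5 hc⟩

end Pool.Agent.R611.CX
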