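import Pool.Agent.R611.CX.R3

/-!
# The type-level form of Hensel minimality from rigid maps
-/

set_option autoImplicit false

namespace Pool.Agent.R611.CX

open FirstOrder Language Structure Polynomial Pool.Agent.R611.HM

universe u w

variable {L : FirstOrder.Language.{u, u}} {K : Type u} [L.Structure K] [Field K]
  {Γ : Type w} [LinearOrderedCommGroupWithZero Γ] {v : Valuation K Γ} {l : K}

section dff

variable {α : Type} [Finite α]

theorem fone (hV : VF L v) : DfF L (fun _ : α → K => (1 : K)) := by
  have : Df L (fun w : Option α → K => w none * w none = w none ∧ ¬ w none = 0) :=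
    (Df.eq (hV.fmul (DfF.var none) (DfF.var none)) (DfF.var none)).and
      (Df.eq (DfF.var none) hV.fzero).not
  exact this.congr fun w => by
    change w none * w none = w none ∧ ¬ w none = 0 ↔ w none = 1
    constructor
    · rintro ⟨h1, h2⟩
      exact mul_left_cancel₀ h2 (by rw [mul_one]; exact h1)
    · intro h
      rw [h]
      exact ⟨one_mul 1, one_ne_zero⟩

theorem fpow (hV : VF L v) {f : (α → K) → K} (hf : DfF L f) (n : ℕ) :
    DfF L (fun w => f w ^ n) := by
  induction n with
  | zero => simpa using fone hV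
  | succ n ih =>
    simp only [pow_succ]
    exact hV.fmul ih hf

theorem fsum (hV : VF L v) {ι : Type} (s : Finset ι) {f : ι → (α → K) → K}
    (hf : ∀ i, DfF L (f i)) : DfF L (fun w => ∑ i ∈ s, f i w) := by
  classical
  induction s using Finset.induction_on with
  | empty => simpa using hV.fzero
  | insert a s ha ih =>
    simp only [Finset.sum_insert ha]
    exact hV.fadd (hf a) ih

omit [L.Structure K] in
theorem eq_inv_iff_mul_eq_one₀' {a b : K} (hb : b ≠ 0) : a = b⁻¹ ↔ a * b = 1 := by
  constructor
  · rintro rfl; exact inv_mul_cancel₀ hb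
  · intro h; exact eq_inv_of_mul_eq_one_left h

theorem finv (hV : VF L v) {f : (α → K) → K} (hf : DfF L f) : DfF L (fun w => (f w)⁻¹) := by
  have hf' : DfF L (fun w : Option α → K => f (fun i => w (some i))) :=
    hf.comp (fun j => DfF.var (some j))
  have : Df L (fun w : Option α → K => (f (fun i => w (some i)) = 0 ∧ w none = 0) ∨
      w none * f (fun i => w (some i)) = 1) :=
    ((Df.eq hf' hV.fzero).and (Df.eq (DfF.var none) hV.fzero)).or
      (Df.eq (hV.fmul (DfF.var none) hf') (fone hV))
  exact this.congr fun w => by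
    change _ ↔ w none = (f (fun i => w (some i)))⁻¹
    by_cases h : f (fun i => w (some i)) = 0
    · rw [h, inv_zero, mul_zero]
      simp
    · rw [eq_inv_iff_mul_eq_one₀' h]
      simp [h]

end dff

/-- the algebraic closure of a tuple as a subfield -/
def aclF (hV : VF L v) {ι : Type} [Finite ι] (a : ι → K) : Subfield K where
  carrier := acl L a
  mul_mem' := fun {x y} hx hy => by
    have := fn_mem_acl (a := a) (hV.fmul (DfF.var true) (DfF.var false))
      (c := fun b => if b then x else y) (by rintro (_ | _) <;> simpa)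
    simpa using this
  one_mem' := by
    have := fn_mem_acl (a := a) (fone (α := Empty) hV) (c := Empty.elim) (fun i => i.elim)
    simpa using this
  add_mem' := fun {x y} hx hy => by
    have := fn_mem_acl (a := a) (hV.fadd (DfF.var true) (DfF.var false))
      (c := fun b => if b then x else y) (by rintro (_ | _) <;> simpa)
    simpa using this
  zero_mem' := zero_mem_acl hV a
  neg_mem' := fun {x} hx => by
    have := sub_mem_acl hV (a := a) (zero_mem_acl hV a) hx
    simpa using this
  inv_mem' := by
    intro x hx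
    have := fn_mem_acl (a := a) (finv hV (DfF.var ())) (c := fun _ : Unit => x) (fun _ => hx)
    exact this

open Classical in
theorem root_mem_acl (hV : VF L v) {ι : Type} [Finite ι] {a : ι → K} {p : K[X]} (hp : p ≠ 0)
    (hc : ∀ n, p.coeff n ∈ acl L a) {x : K} (hx : p.eval x = 0) : x ∈ acl L a := by
  have key : x ∈ acl L (fun i : Fin (p.natDegree + 1) => p.coeff i) := by
    refine ⟨fun w y => ∑ i : Fin (p.natDegree + 1), w i * y ^ (i : ℕ) = 0, ⟨?_, ?_⟩, ?_⟩
    · refine Df.eq (fsum hV _ fun i => ?_) hV.fzero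
      exact hV.fmul (DfF.var _) (fpow hV (DfF.var none) _)
    · refine (p.roots.toFinset.finite_toSet).subset fun y hy => ?_
      rw [Finset.mem_coe, Multiset.mem_toFinset, mem_roots hp, IsRoot.def,
        eval_eq_sum_range, Finset.sum_range]
      exact hy
    · change ∑ i : Fin (p.natDegree + 1), p.coeff i * x ^ (i : ℕ) = 0
      rw [← Finset.sum_range (fun i => p.coeff i * x ^ i), ← eval_eq_sum_range]
      exact hx
  exact acl_trans (a := fun i : Fin (p.natDegree + 1) => p.coeff i) (fun i => hc i) key

theorem aclF_isAlgClosed [IsAlgClosed K] (hV : VF L v) {ι : Type} [Finite ι] (a : ι → K) :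
    IsAlgClosed (aclF hV a) := by
  refine IsAlgClosed.of_exists_root _ fun p hp hirr => ?_
  obtain ⟨x, hx⟩ := IsAlgClosed.exists_root (p.map (aclF hV a).subtype) (by
    rw [degree_map]
    exact (degree_pos_of_irreducible hirr).ne')
  have h1 : x ∈ acl L a := root_mem_acl hV (hp.map _).ne_zero (fun n => by
    rw [coeff_map]
    exact (p.coeff n).2) hx
  refine ⟨⟨x, h1⟩, ?_⟩
  have h2 : (aclF hV a).subtype (p.eval ⟨x, h1⟩) = 0 := by
    rw [← eval₂_at_apply, ← eval_map]
    exact hx
  exact (aclF hV a).subtype.injective (by rw [h2, map_zero])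

theorem rvl_rveq (hl1 : v l ≤ 1) {x x' : K} (h : RVl v l x x') : RVeq v x x' := by
  rcases h with h | h
  · exact Or.inl h
  · exact Or.inr (h.trans_le (mul_le_of_le_one_left' hl1))

/-- If rigid maps are elementary, all type-level forms of Hensel minimality hold. -/
theorem TH_of_rigid [IsAlgClosed K] (hV : VF L v) (hS : SC v)
    (hcount : ∀ (ι : Type) [Finite ι] (a : ι → K), (acl L a).Countable)
    (hEl : ∀ l : K, l ≠ 0 → v l ≤ 1 → ∀ D : Subring (K × K), Rig v l D →
      (D : Set (K × K)).Countable → (∀ c ∈ acl L (Empty.elim : Empty → K), (c, c) ∈ D) →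
      El L (D : Set (K × K))) (n : ℕ) : TH L v n := by
  classical
  intro ι _ a Z hZ x l y y' hl0 hl1 hnr
  have : IsAlgClosed (aclF hV a) := aclF_isAlgClosed hV a
  have : Countable (aclF hV a) := (hcount ι a).to_subtype
  have hr : Rig v l (adj (aclF hV a).subtype (y, y')) := by
    refine rig_adj_of_acl hl0 hl1 (fun x => RVl.refl hl0 _) fun c => ?_
    right
    have h1 := hnr c c.2
    have e : y - (c : K) - (y' - (aclF hV a).subtype c) = -(y' - y) := by
      change y - (c : K) - (y' - c) = _
      ring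
    rw [e, Valuation.map_neg]
    exact h1
  obtain ⟨D, hD, hDr, hDc, hDX⟩ := extN hV.nat hS hl0 hl1 hr (countable_adj _ _)
    (hZ.union (Set.finite_range x))
  have hdiag : ∀ c ∈ acl L a, (c, c) ∈ D := fun c hc =>
    hD (graph_mem_adj (τ := (aclF hV a).subtype) (y, y') ⟨c, hc⟩)
  have hEm : ∀ c ∈ acl L (Empty.elim : Empty → K), (c, c) ∈ D := fun c hc =>
    hdiag c (acl_trans (fun i => i.elim) hc)
  have hE := hEl l hl0 hl1 D hDr hDc hEm
  choose! g hg using hDX
  refine ⟨Set.range (fun i => (a i, a i)) ∪ {(y, y')} ∪ (fun b => (b, g b)) '' (Z ∪ Set.range x),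
    ⟨hE.mono ?_, ?_, fun i => Or.inl (Or.inl ⟨i, rfl⟩), fun z hz => ?_⟩, Or.inl (Or.inr rfl),
    fun j => ?_⟩
  · rintro _ ((⟨i, rfl⟩ | rfl) | ⟨b, hb, rfl⟩)
    · exact hdiag _ (mem_acl_self a i)
    · exact hD (self_mem_adj _)
    · exact hg b hb
  · exact ((Set.finite_range _).union (Set.finite_singleton _)).union
      ((hZ.union (Set.finite_range x)).image _)
  · exact ⟨g z, Or.inr ⟨z, Or.inl hz, rfl⟩, rvl_rveq hl1 (hDr _ (hg z (Or.inl hz)))⟩
  · exact ⟨g (x j), Or.inr ⟨x j, Or.inr ⟨j, rfl⟩, rfl⟩, hDr _ (hg (x j) (Or.inr ⟨j, rfl⟩))⟩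

end Pool.Agent.R611.CX
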