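import Pool.Agent.R611.CX.R4
import Pool.Agent.R611.HM.X5

/-!
# Countable saturation and back-and-forth
-/

set_option autoImplicit false

namespace Pool.Agent.R611.CX

open FirstOrder Language Structure Polynomial Pool.Agent.R611.HM

universe u w

/-! ### back and forth -/

section bf

variable {L : FirstOrder.Language.{u, u}} {K : Type u} [L.Structure K]

/-- A back-and-forth system, given by sets of pairs. -/
structure BF (L : FirstOrder.Language.{u, u}) {K : Type u} [L.Structure K]
    (𝓕 : Set (K × K) → Prop) : Prop where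
  forth : ∀ D, 𝓕 D → ∀ b : K, ∃ b' D', D ⊆ D' ∧ 𝓕 D' ∧ (b, b') ∈ D'
  back : ∀ D, 𝓕 D → ∀ b' : K, ∃ b D', D ⊆ D' ∧ 𝓕 D' ∧ (b, b') ∈ D'
  eq : ∀ D, 𝓕 D → ∀ p ∈ D, ∀ q ∈ D, (p.1 = q.1 ↔ p.2 = q.2)
  fn : ∀ D, 𝓕 D → ∀ (n : ℕ) (f : L.Functions n) (s : Fin n → K × K), (∀ i, s i ∈ D) →
    ((funMap f fun i => (s i).1 : K), (funMap f fun i => (s i).2 : K)) ∈ D
  rel : ∀ D, 𝓕 D → ∀ (n : ℕ) (R : L.Relations n) (s : Fin n → K × K), (∀ i, s i ∈ D) →
    (RelMap R (fun i => (s i).1) ↔ RelMap R (fun i => (s i).2))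

variable {𝓕 : Set (K × K) → Prop}

theorem BF.term (h : BF L 𝓕) {D : Set (K × K)} (hD : 𝓕 D) {α : Type} (t : L.Term α)
    (s : α → K × K) (hs : ∀ i, s i ∈ D) :
    (t.realize (fun i => (s i).1), t.realize (fun i => (s i).2)) ∈ D := by
  induction t with
  | var i => exact hs i
  | func f ts ih =>
    exact h.fn D hD _ f (fun i => ((ts i).realize (fun i => (s i).1),
      (ts i).realize (fun i => (s i).2))) ih

theorem BF.formula (h : BF L 𝓕) {α : Type} {n : ℕ} (φ : L.BoundedFormula α n) :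
    ∀ (D : Set (K × K)), 𝓕 D → ∀ (s : α → K × K) (t : Fin n → K × K), (∀ i, s i ∈ D) →
      (∀ i, t i ∈ D) → (φ.Realize (fun i => (s i).1) (fun i => (t i).1) ↔
        φ.Realize (fun i => (s i).2) (fun i => (t i).2)) := by
  have hterm : ∀ {n : ℕ} (D : Set (K × K)), 𝓕 D → ∀ (s : α → K × K) (t : Fin n → K × K),
      (∀ i, s i ∈ D) → (∀ i, t i ∈ D) → ∀ u : L.Term (α ⊕ Fin n),
      (u.realize (Sum.elim (fun i => (s i).1) (fun i => (t i).1)),
        u.realize (Sum.elim (fun i => (s i).2) (fun i => (t i).2))) ∈ D := by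
    intro n D hD s t hs ht u
    have h1 := h.term hD u (Sum.elim s t) (by rintro (i | i); exacts [hs i, ht i])
    have e1 : (fun i => (Sum.elim s t i).1) =
        Sum.elim (fun i => (s i).1) (fun i => (t i).1) := by
      funext i; rcases i with i | i <;> rfl
    have e2 : (fun i => (Sum.elim s t i).2) =
        Sum.elim (fun i => (s i).2) (fun i => (t i).2) := by
      funext i; rcases i with i | i <;> rfl
    rw [e1, e2] at h1
    exact h1
  induction φ with
  | falsum => intro D hD s t hs ht; exact Iff.rfl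
  | equal t₁ t₂ =>
    intro D hD s t hs ht
    exact h.eq D hD _ (hterm D hD s t hs ht t₁) _ (hterm D hD s t hs ht t₂)
  | rel R ts =>
    intro D hD s t hs ht
    exact h.rel D hD _ R _ (fun i => hterm D hD s t hs ht (ts i))
  | imp f₁ f₂ ih₁ ih₂ =>
    intro D hD s t hs ht
    rw [BoundedFormula.realize_imp, BoundedFormula.realize_imp, ih₁ D hD s t hs ht,
      ih₂ D hD s t hs ht]
  | @all n f ih =>
    intro D hD s t hs ht
    rw [BoundedFormula.realize_all, BoundedFormula.realize_all]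
    have snoc1 : ∀ p : K × K, (fun i => ((Fin.snoc t p : Fin (n + 1) → K × K) i).1) =
        (Fin.snoc (fun i => (t i).1) p.1 : Fin (n + 1) → K) := by
      intro p
      funext i
      refine Fin.lastCases ?_ (fun j => ?_) i
      · simp [Fin.snoc_last]
      · simp [Fin.snoc_castSucc]
    have snoc2 : ∀ p : K × K, (fun i => ((Fin.snoc t p : Fin (n + 1) → K × K) i).2) =
        (Fin.snoc (fun i => (t i).2) p.2 : Fin (n + 1) → K) := by
      intro p
      funext i
      refine Fin.lastCases ?_ (fun j => ?_) i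
      · simp [Fin.snoc_last]
      · simp [Fin.snoc_castSucc]
    constructor
    · intro h1 b'
      obtain ⟨b, D', hDD', hD', hb⟩ := h.back D hD b'
      have h2 := ih D' hD' s (Fin.snoc t (b, b') : Fin (n + 1) → K × K) (fun i => hDD' (hs i)) (by
        intro i
        refine Fin.lastCases ?_ (fun j => ?_) i
        · simpa [Fin.snoc_last] using hb
        · simpa [Fin.snoc_castSucc] using hDD' (ht j))
      rw [snoc1, snoc2] at h2
      exact h2.1 (h1 b)
    · intro h1 b
      obtain ⟨b', D', hDD', hD', hb⟩ := h.forth D hD b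
      have h2 := ih D' hD' s (Fin.snoc t (b, b') : Fin (n + 1) → K × K) (fun i => hDD' (hs i)) (by
        intro i
        refine Fin.lastCases ?_ (fun j => ?_) i
        · simpa [Fin.snoc_last] using hb
        · simpa [Fin.snoc_castSucc] using hDD' (ht j))
      rw [snoc1, snoc2] at h2
      exact h2.2 (h1 b')

theorem realize_zero {L : FirstOrder.Language} {K : Type*} [L.Structure K] {α : Type*}
    (φ : L.Formula α) (v : α → K) (w : Fin 0 → K) :
    φ.Realize v ↔ BoundedFormula.Realize φ v w := by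
  rw [Subsingleton.elim w default]
  exact Iff.rfl

theorem BF.el (h : BF L 𝓕) {D : Set (K × K)} (hD : 𝓕 D) : El L D := by
  intro α _ s hs P hP
  obtain ⟨φ, hφ⟩ := df_iff.1 hP
  rw [hφ, hφ]
  have := h.formula φ D hD s (fun i : Fin 0 => i.elim0) hs (fun i => i.elim0)
  exact (realize_zero φ _ _).trans (this.trans (realize_zero φ _ _).symm)

end bf

/-! ### countable saturation -/

section sat

variable {L : FirstOrder.Language.{u, u}}

/-- Countable families of definable conditions with finite parameter tuples. -/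
def Sat1 (L : FirstOrder.Language.{u, u}) (K : Type u) [L.Structure K] : Prop :=
  ∀ (α : Type) [Finite α] (β : ℕ → Type) (_ : ∀ n, Finite (β n))
    (P : ∀ n, (α ⊕ β n → K) → Prop) (b : ∀ n, β n → K), (∀ n, Df L (P n)) →
    (∀ n, ∃ x : α → K, ∀ k ≤ n, P k (Sum.elim x (b k))) →
      ∃ x : α → K, ∀ n, P n (Sum.elim x (b n))

theorem exists_sat1 (M : Type u) [L.Structure M] [Nonempty M] :
    ∃ (N : Type u) (_ : L.Structure N) (_ : M ↪ₑ[L] N), Sat1 L N := by
  classical
  let 𝓤 : Ultrafilter ℕ := Filter.hyperfilter ℕ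
  let N := (𝓤 : Filter ℕ).Product (fun _ => M)
  let j : M ↪ₑ[L] N :=
    { toFun := fun u => ((fun _ => u : ℕ → M) : (𝓤 : Filter ℕ).Product (fun _ => M))
      map_formula' := by
        intro n φ x
        have := Ultraproduct.realize_formula_cast (u := 𝓤) (M := fun _ : ℕ => M) φ
          (fun i _ => x i)
        refine this.trans ?_
        simp }
  refine ⟨N, inferInstance, j, ?_⟩
  intro α _ β hβ P b hP hfs
  choose φ hφ using fun n => df_iff.1 (hP n)
  choose c hc using fun n (i : β n) => Quotient.exists_rep (b n i)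
  have key : ∀ (n : ℕ) (x : α → ℕ → M), (P n (Sum.elim (fun a =>
      ((x a : ℕ → M) : (𝓤 : Filter ℕ).Product (fun _ => M))) (b n)) ↔
      ∀ᶠ i in (𝓤 : Filter ℕ), (φ n).Realize (Sum.elim (fun a => x a i) (fun k => c n k i))) := by
    intro n x
    rw [hφ]
    have h1 := Ultraproduct.realize_formula_cast (u := 𝓤) (M := fun _ : ℕ => M) (φ n)
      (Sum.elim x (c n))
    have e1 : (Sum.elim (fun a => ((x a : ℕ → M) : (𝓤 : Filter ℕ).Product (fun _ => M))) (b n)
        : α ⊕ β n → N) = fun i => ((Sum.elim x (c n) i : ℕ → M) :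
          (𝓤 : Filter ℕ).Product (fun _ => M)) := by
      funext i
      rcases i with i | i
      · rfl
      · exact (hc n i).symm
    rw [e1]
    refine h1.trans (Filter.eventually_congr (Filter.Eventually.of_forall fun i => ?_))
    apply iff_of_eq
    congr 1
    funext k
    rcases k with k | k <;> rfl
  -- good indices
  let G : ℕ → ℕ → Prop := fun n i => ∃ x : α → M, ∀ k ≤ n,
    (φ k).Realize (Sum.elim x (fun a => c k a i))
  have hG : ∀ n, ∀ᶠ i in (𝓤 : Filter ℕ), G n i := by
    intro n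
    obtain ⟨x, hx⟩ := hfs n
    choose y hy using fun a => Quotient.exists_rep (x a)
    have hx' : x = fun a => ((y a : ℕ → M) : (𝓤 : Filter ℕ).Product (fun _ => M)) := by
      funext a; exact (hy a).symm
    have h1 : ∀ k ≤ n, ∀ᶠ i in (𝓤 : Filter ℕ),
        (φ k).Realize (Sum.elim (fun a => y a i) (fun a => c k a i)) := by
      intro k hk
      have := hx k hk
      rw [hx'] at this
      exact (key k y).1 this
    have h2 : ∀ᶠ i in (𝓤 : Filter ℕ), ∀ k ∈ Finset.range (n + 1),
        (φ k).Realize (Sum.elim (fun a => y a i) (fun a => c k a i)) := by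
      rw [Filter.eventually_all_finset]
      intro k hk
      exact h1 k (by have := Finset.mem_range.1 hk; omega)
    exact h2.mono fun i hi => ⟨fun a => y a i, fun k hk =>
      hi k (Finset.mem_range.2 (by omega))⟩
  have hGanti : ∀ i m n, m ≤ n → G n i → G m i := by
    rintro i m n hmn ⟨x, hx⟩
    exact ⟨x, fun k hk => hx k (hk.trans hmn)⟩
  -- choose the witness
  have hex : ∀ i : ℕ, ∃ x : α → M, ∀ n ≤ i, G n i →
      (φ n).Realize (Sum.elim x (fun a => c n a i)) := by
    intro i
    by_cases h0 : G 0 i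
    · let m := Nat.findGreatest (fun n => G n i) i
      have hm : G m i := Nat.findGreatest_spec (P := fun n => G n i) (Nat.zero_le i) h0
      obtain ⟨x, hx⟩ := hm
      exact ⟨x, fun n hn hGn => hx n (Nat.le_findGreatest hn hGn)⟩
    · exact ⟨fun _ => Classical.arbitrary M, fun n hn hGn =>
        absurd (hGanti i 0 n (Nat.zero_le n) hGn) h0⟩
  choose x hx using hex
  refine ⟨fun a => ((fun i => x i a : ℕ → M) : (𝓤 : Filter ℕ).Product (fun _ => M)),
    fun n => ?_⟩
  rw [key n (fun a i => x i a)]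
  have h1 : ∀ᶠ i in (𝓤 : Filter ℕ), n ≤ i := by
    have : ∀ᶠ i in Filter.atTop, n ≤ i := Filter.eventually_ge_atTop n
    rw [← Nat.cofinite_eq_atTop] at this
    exact Filter.hyperfilter_le_cofinite this
  filter_upwards [hG n, h1] with i hi1 hi2
  exact hx i n hi2 hi1

/-- joint elementary extension which is countably saturated -/
theorem exists_joint_sat1 {K M : Type u} [L.Structure K] [L.Structure M] [Nonempty K]
    (h : K ≅[L] M) : ∃ (N : Type u) (_ : L.Structure N) (_ : K ↪ₑ[L] N) (_ : M ↪ₑ[L] N),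
      Sat1 L N := by
  classical
  let I : Type u := Σ n : ℕ, {q : (Fin n → M) × L.Formula (Fin n) // q.2.Realize q.1}
  let S : Set (L.Formula (M ⊕ K)) :=
    Set.range fun i : I => (i.2.1.2).relabel (fun k => (Sum.inl (i.2.1.1 k) : M ⊕ K))
  obtain ⟨N, iN, j, v, hv⟩ := compactU (L := L) (U := K) (δ := M) S (by
    intro S₀ hS₀ hfin
    have hf := hfin.to_subtype
    choose ix hix using fun ψ : S₀ => hS₀ ψ.2
    let D : Set M := ⋃ ψ : S₀, Set.range (ix ψ).2.1.1
    have hD : D.Finite := Set.finite_iUnion fun ψ => Set.finite_range _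
    have := hD.to_subtype
    let Φ : L.Formula D := Formula.iInf (fun ψ : S₀ => (ix ψ).2.1.2.relabel
      (fun k => (⟨(ix ψ).2.1.1 k, Set.mem_iUnion.2 ⟨ψ, k, rfl⟩⟩ : D)))
    have hΦ : ∀ {Q : Type u} [L.Structure Q] (u : D → Q), Φ.Realize u ↔ ∀ ψ : S₀,
        (ix ψ).2.1.2.Realize (fun k => u ⟨(ix ψ).2.1.1 k, Set.mem_iUnion.2 ⟨ψ, k, rfl⟩⟩) := by
      intro Q _ u
      rw [Formula.realize_iInf]
      refine forall_congr' fun ψ => ?_
      rw [Formula.realize_relabel]
      rfl
    let χ : L.Sentence := (Φ.relabel (Sum.inr : D → Empty ⊕ D) : L.Formula (Empty ⊕ D)).iExs D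
    have hχ : ∀ {Q : Type u} [L.Structure Q], Q ⊨ χ ↔ ∃ u : D → Q, Φ.Realize u := by
      intro Q _
      change Formula.Realize _ _ ↔ _
      rw [Formula.realize_iExs]
      refine exists_congr fun u => ?_
      rw [Formula.realize_relabel]
      rfl
    have h1 : M ⊨ χ := hχ.2 ⟨fun d => d.1, (hΦ _).2 fun ψ => (ix ψ).2.2⟩
    rw [← h.realize_sentence, hχ] at h1
    obtain ⟨u, hu⟩ := h1
    rw [hΦ] at hu
    refine ⟨fun m => if hm : m ∈ D then u ⟨m, hm⟩ else Classical.arbitrary K, fun ψ hψ => ?_⟩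
    have h2 := hix ⟨ψ, hψ⟩
    have h3 := hu ⟨ψ, hψ⟩
    change ((_ : L.Formula _).relabel _ : L.Formula (M ⊕ K)) = ψ at h2
    rw [← h2, Formula.realize_relabel]
    convert h3 using 1
    funext k
    simp only [Function.comp, Sum.elim_inl]
    have hk : (ix ⟨ψ, hψ⟩).2.1.1 k ∈ D := Set.mem_iUnion.2 ⟨⟨ψ, hψ⟩, k, rfl⟩
    rw [dif_pos hk])
  let jM : M ↪ₑ[L] N := ⟨v, fun n φ x => by
    have one : ∀ φ : L.Formula (Fin n), φ.Realize x → φ.Realize (v ∘ x) := by
      intro φ hφ
      have h1 := hv _ ⟨(⟨n, ⟨(x, φ), hφ⟩⟩ : I), rfl⟩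
      change ((φ.relabel _ : L.Formula (M ⊕ K))).Realize _ at h1
      rw [Formula.realize_relabel] at h1
      exact h1
    refine ⟨fun h' => ?_, one φ⟩
    by_contra hc
    have := one (Formula.not φ) ((Formula.realize_not).2 hc)
    rw [Formula.realize_not] at this
    exact this h'⟩
  have : Nonempty N := ⟨j (Classical.arbitrary K)⟩
  obtain ⟨N', iN', j', hN'⟩ := exists_sat1 (L := L) N
  exact ⟨N', iN', j'.comp j, j'.comp jM, hN'⟩

theorem sat1_sc {K : Type u} [L.Structure K] [Field K]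
    {Γ : Type w} [LinearOrderedCommGroupWithZero Γ] {v : Valuation K Γ} (h : Sat1 L K)
    (hV : VF L v) : SC v := by
  intro c r hfs
  obtain ⟨x, hx⟩ := h Unit (fun _ => Bool) (fun _ => inferInstance)
    (fun _ w => v (w (Sum.inl ()) - w (Sum.inr true)) < v (w (Sum.inr false)))
    (fun n b => if b then c n else r n)
    (fun _ => hV.vlt (hV.fsub (DfF.var _) (DfF.var _)) (DfF.var _)) (by
      intro n
      obtain ⟨x, hx⟩ := hfs n
      exact ⟨fun _ => x, fun k hk => by simpa using hx k hk⟩)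
  exact ⟨x (), fun n => by simpa using hx n⟩

/-- countably many definable relations -/
def CDf (L : FirstOrder.Language.{u, u}) (K : Type u) [L.Structure K] : Prop :=
  ∀ (α : Type) [Finite α], {P : (α → K) → Prop | Df L P}.Countable

theorem cdf_of_card (hL : L.card ≤ Cardinal.aleph0) (K : Type u) [L.Structure K] : CDf L K := by
  intro α _
  have h1 := BoundedFormula.card_le (L := L) (α := α)
  have h2 : Cardinal.mk (Σ n, L.BoundedFormula α n) ≤ Cardinal.aleph0 := by
    refine h1.trans (max_le le_rfl ?_)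
    refine Cardinal.add_le_aleph0.2 ⟨?_, ?_⟩
    · rw [Cardinal.lift_le_aleph0]
      exact Cardinal.mk_le_aleph0
    · rw [Cardinal.lift_le_aleph0]
      exact hL
  have h3 : Countable (Σ n, L.BoundedFormula α n) := Cardinal.mk_le_aleph0_iff.1 h2
  have h4 : Countable (L.Formula α) := by
    refine Function.Injective.countable (f := fun φ : L.Formula α =>
      (⟨0, φ⟩ : Σ n, L.BoundedFormula α n)) ?_
    intro φ ψ h
    simpa using h
  have h5 : {P : (α → K) → Prop | Df L P} ⊆
      Set.range (fun φ : L.Formula α => (φ.Realize : (α → K) → Prop)) := by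
    intro P hP
    obtain ⟨φ, hφ⟩ := df_iff.1 hP
    exact ⟨φ, funext fun w => propext (hφ w).symm⟩
  exact (Set.countable_range _).mono h5

theorem satur_of_sat1 {K : Type u} [L.Structure K] (h : Sat1 L K) (hc : CDf L K) :
    Satur L K := by
  intro α β _ _ a Ps hdf hfs
  by_cases hne : Ps.Nonempty
  · have h1 : Ps.Countable := (hc (α ⊕ β)).mono hdf
    obtain ⟨e, he⟩ := h1.exists_eq_range hne
    obtain ⟨x, hx⟩ := h α (fun _ => β) (fun _ => inferInstance) e (fun _ => a)
      (fun n => hdf _ (by rw [he]; exact ⟨n, rfl⟩)) (by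
        intro n
        obtain ⟨x, hx⟩ := hfs (e '' Set.Iic n) (by
          rintro _ ⟨k, _, rfl⟩
          rw [he]
          exact ⟨k, rfl⟩) ((Set.finite_Iic n).image _)
        exact ⟨x, fun k hk => hx _ ⟨k, hk, rfl⟩⟩)
    refine ⟨x, fun P hP => ?_⟩
    rw [he] at hP
    obtain ⟨n, rfl⟩ := hP
    exact hx n
  · obtain ⟨x, _⟩ := hfs ∅ (Set.empty_subset _) Set.finite_empty
    exact ⟨x, fun P hP => absurd ⟨P, hP⟩ hne⟩

theorem acl_countable {K : Type u} [L.Structure K] (hc : CDf L K) {ι : Type} [Finite ι]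
    (a : ι → K) : (acl L a).Countable := by
  have h1 : acl L a ⊆ ⋃ P ∈ {P : (Option ι → K) → Prop | Df L P ∧
      {x | P (fun o => o.elim x a)}.Finite}, {x | P (fun o => o.elim x a)} := by
    rintro c ⟨P, ⟨hPd, hPf⟩, hPc⟩
    refine Set.mem_iUnion₂.2 ⟨_, ⟨hPd, ?_⟩, ?_⟩
    · exact hPf
    · exact hPc
  refine Set.Countable.mono h1 (Set.Countable.biUnion ?_ fun P hP => hP.2.countable)
  exact (hc (Option ι)).mono fun P hP => hP.1

end sat

end Pool.Agent.R611.CX
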