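import Pool.Agent.R611.CX.R5

/-!
# Transfer of field properties to elementary extensions
-/

set_option autoImplicit false

namespace Pool.Agent.R611.CX

open FirstOrder Language Structure Polynomial Pool.Agent.R611.HM

universe u w

section

variable {L : FirstOrder.Language.{u, u}} {K N : Type u} [L.Structure K] [L.Structure N]
  [Field K] [Field N] {O : ValuationSubring K} {O' : ValuationSubring N}
  {sy : ValSymbols L} (j : K ↪ₑ[L] N) (hO : IsValued sy O) (hO' : IsValued sy O')

/-- an elementary embedding as a ring homomorphism -/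
def jr : K →+* N where
  toFun := j
  map_zero' := j_zero j hO hO'
  map_add' := j_add j hO hO'
  map_mul' := j_mul j hO hO'
  map_one' := by
    have h1 := j_mul j hO hO' 1 1
    rw [mul_one] at h1
    have h2 : j (1 : K) ≠ 0 := fun h => one_ne_zero
      (j.injective (h.trans (j_zero j hO hO').symm))
    exact (mul_right_cancel₀ h2 (by rw [one_mul]; exact h1)).symm

include j hO hO' in
theorem isAlgClosed_transfer [IsAlgClosed K] : IsAlgClosed N := by
  have hV := hO'.vf
  refine IsAlgClosed.of_exists_root _ fun p hp hirr => ?_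
  set n := p.natDegree with hn
  have hn0 : n ≠ 0 := (Irreducible.natDegree_pos hirr).ne'
  let P : (Empty ⊕ Fin n → N) → Prop := fun w =>
    ∃ x : N, x ^ n + ∑ i : Fin n, w (Sum.inr i) * x ^ (i : ℕ) = 0
  have hP : Df L P := by
    refine Df.ex1 (Q := fun x (w : Empty ⊕ Fin n → N) =>
      x ^ n + ∑ i : Fin n, w (Sum.inr i) * x ^ (i : ℕ) = 0) ?_
    refine Df.eq (hV.fadd (fpow hV (DfF.var none) n) (fsum hV _ fun i => ?_)) hV.fzero
    exact hV.fmul (DfF.var _) (fpow hV (DfF.var none) _)
  have h1 := all_transfer j hP (Empty.elim) (fun y => by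
    let q : K[X] := X ^ n + ∑ i : Fin n, C (y i) * X ^ (i : ℕ)
    have hq : q.degree ≠ 0 := by
      have hlt : (∑ i : Fin n, C (y i) * X ^ (i : ℕ) : K[X]).degree < (X ^ n : K[X]).degree := by
        rw [degree_X_pow]
        refine (degree_sum_le _ _).trans_lt ((Finset.sup_lt_iff (WithBot.bot_lt_coe n)).2
          fun i _ => ?_)
        exact (degree_C_mul_X_pow_le _ _).trans_lt (Nat.cast_lt.2 i.2)
      change (X ^ n + _ : K[X]).degree ≠ 0
      rw [degree_add_eq_left_of_degree_lt hlt, degree_X_pow]
      exact_mod_cast hn0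
    obtain ⟨x, hx⟩ := IsAlgClosed.exists_root q hq
    refine ⟨jr j hO hO' x, ?_⟩
    have h2 : q.eval x = x ^ n + ∑ i : Fin n, y i * x ^ (i : ℕ) := by
      simp only [q, eval_add, eval_pow, eval_X, eval_finsetSum, eval_mul, eval_C]
    rw [IsRoot.def, h2] at hx
    have h3 := congrArg (jr j hO hO') hx
    rw [map_add, map_pow, map_sum, map_zero] at h3
    simp only [map_mul, map_pow] at h3
    exact h3) (fun i => p.coeff i)
  obtain ⟨x, hx⟩ := h1
  refine ⟨x, ?_⟩
  rw [eval_eq_sum_range, Finset.sum_range_succ, Finset.sum_range]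
  have h4 : p.coeff p.natDegree = 1 := hp
  rw [h4, one_mul, add_comm]
  exact hx

end

end Pool.Agent.R611.CX
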