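import Pool.Agent.R611.CX.R6

/-!
# The language of the example; transfer to elementary extensions
-/

set_option autoImplicit false

namespace Pool.Agent.R611.CX

open FirstOrder Language Structure Polynomial Pool.Agent.R611.HM

/-- the function symbols of the example -/
inductive CFun : ℕ → Type
  | add : CFun 2
  | mul : CFun 2

/-- the relation symbols of the example -/
inductive CRel : ℕ → Type
  | O : CRel 1
  | Oc : CRel 1
  | P : CRel 1

/-- The language `{+, ·, O, O_c, P}`. -/
def LC : FirstOrder.Language.{0, 0} := ⟨CFun, CRel⟩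

/-- `LC` as an expansion of the language of valued fields, with `O` as the valuation ring. -/
def syO : ValSymbols LC := ⟨CFun.add, CFun.mul, CRel.O⟩

/-- `LC` as an expansion of the language of valued fields, with `O_c` as the valuation ring. -/
def syc : ValSymbols LC := ⟨CFun.add, CFun.mul, CRel.Oc⟩

/-- the symbol `P` -/
def symP : LC.Relations 1 := CRel.P

/-- The structures of the example: algebraically closed fields with two valuation rings
`O ≤ O_c` of residue characteristic zero, and `P = s + 𝔪_c` for a unit `s` of `O_c`. -/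
structure Good (N : Type) [LC.Structure N] [Field N] (O Oc : ValuationSubring N) : Prop where
  isv : IsValued syO O
  isvc : IsValued syc Oc
  le : O ≤ Oc
  ac : IsAlgClosed N
  p : ∃ s : N, Oc.valuation s = 1 ∧ ∀ x, RelMap symP ![x] ↔ Oc.valuation (x - s) < 1

theorem val_le_of_le {K : Type*} [Field K] {O Oc : ValuationSubring K} (h : O ≤ Oc) {x y : K}
    (hxy : O.valuation x ≤ O.valuation y) : Oc.valuation x ≤ Oc.valuation y := by
  rw [← O.mapOfLE_valuation_apply Oc h, ← O.mapOfLE_valuation_apply Oc h]
  exact O.monotone_mapOfLE Oc h hxy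

theorem val_lt_of_le {K : Type*} [Field K] {O Oc : ValuationSubring K} (h : O ≤ Oc) {x y : K}
    (hxy : Oc.valuation x < Oc.valuation y) : O.valuation x < O.valuation y := by
  by_contra hc
  exact absurd hxy (not_lt.2 (val_le_of_le h (not_lt.1 hc)))

theorem charZero_of_nat {K : Type*} [Field K] (O : ValuationSubring K)
    (h : ∀ n : ℕ, n ≠ 0 → O.valuation (n : K) = 1) : CharZero (IsLocalRing.ResidueField O) := by
  refine charZero_of_inj_zero fun n hn => ?_
  by_contra hn0
  have h1 : O.valuation ((n : O) : K) = 1 := by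
    have : ((n : O) : K) = (n : K) := by simp
    rw [this]
    exact h n hn0
  rw [← O.valuation_eq_one_iff, ← IsLocalRing.residue_ne_zero_iff_isUnit, map_natCast] at h1
  exact h1 hn

theorem nat_of_le {K : Type*} [Field K] {O Oc : ValuationSubring K} (hle : O ≤ Oc)
    (h : ∀ n : ℕ, n ≠ 0 → O.valuation (n : K) = 1) (n : ℕ) (hn : n ≠ 0) :
    Oc.valuation (n : K) = 1 := by
  have h1 := h n hn
  refine le_antisymm ?_ ?_
  · have := val_le_of_le (x := (n : K)) (y := 1) hle (by rw [h1, map_one])
    rwa [map_one] at this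
  · have := val_le_of_le (x := 1) (y := (n : K)) hle (by rw [h1, map_one])
    rwa [map_one] at this

section transfer

variable {K N : Type} [LC.Structure K] [LC.Structure N] [Field K] {O Oc : ValuationSubring K}

theorem Good.transfer (j : K ↪ₑ[LC] N) (h : Good K O Oc) :
    ∃ (_ : Field N) (O' Oc' : ValuationSubring N), Good N O' Oc' := by
  have := h.ac
  obtain ⟨iN, O', hO'⟩ := exists_valued j h.isv
  have hV := hO'.vf
  have hadd := j_add j h.isv hO'
  have hmul := j_mul j h.isv hO'
  have hzero := j_zero j h.isv hO'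
  have hsub := j_sub j h.isv hO'
  have hmem : ∀ x : K, RelMap syc.ring ![j x] ↔ x ∈ Oc := raw_mem j h.isvc
  have c_add : ∀ x y : N, RelMap syc.ring ![x] → RelMap syc.ring ![y] →
      RelMap syc.ring ![x + y] := fun x y =>
    all_transfer j (γ := Fin 2) (α := Empty) (P := fun w => RelMap syc.ring ![w (Sum.inr 0)] →
      RelMap syc.ring ![w (Sum.inr 1)] → RelMap syc.ring ![w (Sum.inr 0) + w (Sum.inr 1)])
      (Df.imp (df_rel1' _ (DfF.var _)) (Df.imp (df_rel1' _ (DfF.var _))
        (df_rel1' _ (hV.fadd (DfF.var _) (DfF.var _))))) Empty.elim (fun y => by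
        change RelMap syc.ring ![j (y 0)] → RelMap syc.ring ![j (y 1)] →
          RelMap syc.ring ![j (y 0) + j (y 1)]
        rw [← hadd, hmem, hmem, hmem]
        exact fun h1 h2 => Oc.add_mem _ _ h1 h2) ![x, y]
  have c_mul : ∀ x y : N, RelMap syc.ring ![x] → RelMap syc.ring ![y] →
      RelMap syc.ring ![x * y] := fun x y =>
    all_transfer j (γ := Fin 2) (α := Empty) (P := fun w => RelMap syc.ring ![w (Sum.inr 0)] →
      RelMap syc.ring ![w (Sum.inr 1)] → RelMap syc.ring ![w (Sum.inr 0) * w (Sum.inr 1)])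
      (Df.imp (df_rel1' _ (DfF.var _)) (Df.imp (df_rel1' _ (DfF.var _))
        (df_rel1' _ (hV.fmul (DfF.var _) (DfF.var _))))) Empty.elim (fun y => by
        change RelMap syc.ring ![j (y 0)] → RelMap syc.ring ![j (y 1)] →
          RelMap syc.ring ![j (y 0) * j (y 1)]
        rw [← hmul, hmem, hmem, hmem]
        exact fun h1 h2 => Oc.mul_mem _ _ h1 h2) ![x, y]
  have c_neg : ∀ x : N, RelMap syc.ring ![x] → RelMap syc.ring ![0 - x] := fun x =>
    all_transfer j (γ := Fin 1) (α := Empty) (P := fun w => RelMap syc.ring ![w (Sum.inr 0)] →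
      RelMap syc.ring ![0 - w (Sum.inr 0)])
      (Df.imp (df_rel1' _ (DfF.var _)) (df_rel1' _ (hV.fsub hV.fzero (DfF.var _))))
      Empty.elim (fun y => by
        change RelMap syc.ring ![j (y 0)] → RelMap syc.ring ![0 - j (y 0)]
        rw [← hzero, ← hsub, hmem, hmem, zero_sub]
        exact fun h1 => Oc.neg_mem _ h1) ![x]
  have c_le : ∀ x : N, x ∈ O' → RelMap syc.ring ![x] := fun x hx =>
    all_transfer j (γ := Fin 1) (α := Empty) (P := fun w => RelMap syO.ring ![w (Sum.inr 0)] →
      RelMap syc.ring ![w (Sum.inr 0)])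
      (Df.imp (df_rel1' _ (DfF.var _)) (df_rel1' _ (DfF.var _)))
      Empty.elim (fun y => by
        change RelMap syO.ring ![j (y 0)] → RelMap syc.ring ![j (y 0)]
        rw [hmem, raw_mem j h.isv]
        exact fun h1 => h.le h1) ![x] ((hO'.ring x).2 hx)
  let S : Subring N :=
    { carrier := {x | RelMap syc.ring ![x]}
      mul_mem' := fun {x y} hx hy => c_mul x y hx hy
      one_mem' := c_le 1 O'.one_mem
      add_mem' := fun {x y} hx hy => c_add x y hx hy
      zero_mem' := c_le 0 O'.zero_mem
      neg_mem' := fun {x} hx => by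
        have := c_neg x hx
        rwa [zero_sub] at this }
  let Oc' : ValuationSubring N := ValuationSubring.ofLE O' S (fun x hx => c_le x hx)
  have hOle : O' ≤ Oc' := fun x hx => c_le x hx
  have hc' : IsValued syc Oc' :=
    ⟨hO'.add, hO'.mul, fun x => Iff.rfl, charZero_of_nat _ (nat_of_le hOle hV.nat)⟩
  have hVc := hc'.vf
  obtain ⟨s, hs, hP⟩ := h.p
  have hone : j (1 : K) = 1 := (jr j h.isv hO').map_one
  refine ⟨iN, O', Oc', hO', hc', hOle, isAlgClosed_transfer j h.isv hO', j s, ?_, ?_⟩
  · have h1 := (j_le j h.isvc hc' s 1).2 (by rw [hs, map_one])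
    have h2 := (j_le j h.isvc hc' 1 s).2 (by rw [hs, map_one])
    rw [hone, map_one] at h1 h2
    exact le_antisymm h1 h2
  · intro x
    have hPd : Df LC (fun w : Unit ⊕ Fin 1 → N => RelMap symP ![w (Sum.inr 0)] ↔
        Oc'.valuation (w (Sum.inr 0) - w (Sum.inl ())) < Oc'.valuation 1) :=
      Df.iff (df_rel1' _ (DfF.var _)) (hVc.vlt (hVc.fsub (DfF.var _) (DfF.var _)) (fone hVc))
    have := all_transfer j hPd (fun _ => s) (fun y => by
      change RelMap symP ![j (y 0)] ↔ Oc'.valuation (j (y 0) - j s) < Oc'.valuation 1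
      have e1 : RelMap symP ![j (y 0)] ↔ RelMap symP ![y 0] := by
        rw [← j.map_rel]
        apply iff_of_eq
        congr 1
        funext i
        fin_cases i
        rfl
      rw [e1, hP, ← hone, ← hsub, ← not_le, ← not_le, j_le j h.isvc hc', map_one]) ![x]
    rw [map_one] at this
    exact this

end transfer

end Pool.Agent.R611.CX
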