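import Pool.Agent.R611.CX.R7

/-!
# Rigid maps of the example are elementary; the coarse valuation
-/

set_option autoImplicit false

namespace Pool.Agent.R611.CX

open FirstOrder Language Structure Polynomial Pool.Agent.R611.HM

universe u w

section bfrig

variable {L : FirstOrder.Language.{u, u}} {K : Type u} [L.Structure K] [Field K]
  {Γ : Type w} [LinearOrderedCommGroupWithZero Γ] {v : Valuation K Γ} {l : K}

/-- exchanging the coordinates -/
def swapR (D : Subring (K × K)) : Subring (K × K) :=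
  D.comap (RingHom.prod (RingHom.snd K K) (RingHom.fst K K))

omit [L.Structure K] in
theorem mem_swapR {D : Subring (K × K)} {p : K × K} : p ∈ swapR D ↔ (p.2, p.1) ∈ D := Iff.rfl

theorem rig_swapR (hl1 : v l ≤ 1) {D : Subring (K × K)} (hD : Rig v l D) :
    Rig v l (swapR D) := fun p hp => rvl_symm hl1 (hD _ hp)

theorem countable_swapR {D : Subring (K × K)} (hD : (D : Set (K × K)).Countable) :
    (swapR D : Set (K × K)).Countable := by
  have : (swapR D : Set (K × K)) ⊆ Prod.swap '' (D : Set (K × K)) := by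
    rintro p hp
    exact ⟨(p.2, p.1), hp, rfl⟩
  exact (hD.image _).mono this

/-- countable rigid rings satisfying an extra condition -/
def FR (v : Valuation K Γ) (l : K) (X : Set (K × K) → Prop) (D : Set (K × K)) : Prop :=
  ∃ D₀ : Subring (K × K), (D₀ : Set (K × K)) = D ∧ Rig v l D₀ ∧ D.Countable ∧ X D

theorem bf_rig [IsAlgClosed K] (hnat : ∀ n : ℕ, n ≠ 0 → v (n : K) = 1) (hS : SC v)
    (hl0 : l ≠ 0) (hl1 : v l ≤ 1) (X : Set (K × K) → Prop)
    (hX : ∀ D D', D ⊆ D' → X D → X D')
    (hfn : ∀ (D : Subring (K × K)) (n : ℕ) (f : L.Functions n) (s : Fin n → K × K),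
      (∀ i, s i ∈ D) → ((funMap f fun i => (s i).1 : K), (funMap f fun i => (s i).2 : K)) ∈ D)
    (hrel : ∀ D : Subring (K × K), Rig v l D → (D : Set (K × K)).Countable → X D →
      ∀ (n : ℕ) (R : L.Relations n) (s : Fin n → K × K), (∀ i, s i ∈ D) →
      (RelMap R (fun i => (s i).1) ↔ RelMap R (fun i => (s i).2))) :
    BF L (FR v l X) where
  forth := by
    rintro _ ⟨D, rfl, hD, hc, hXD⟩ b
    obtain ⟨b', D', h1, h2, h3, h4⟩ := ext1 hnat hS hl0 hl1 hD hc b
    exact ⟨b', D', h1, ⟨D', rfl, h2, h3, hX _ _ h1 hXD⟩, h4⟩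
  back := by
    rintro _ ⟨D, rfl, hD, hc, hXD⟩ b
    obtain ⟨b', D', h1, h2, h3, h4⟩ := ext1 hnat hS hl0 hl1 (rig_swapR hl1 hD)
      (countable_swapR hc) b
    have h5 : (D : Set (K × K)) ⊆ (swapR D' : Set (K × K)) := fun p hp => h1 (by exact hp)
    exact ⟨b', swapR D', h5, ⟨swapR D', rfl, rig_swapR hl1 h2, countable_swapR h3,
      hX _ _ h5 hXD⟩, h4⟩
  eq := by
    rintro _ ⟨D, rfl, hD, -⟩ p hp q hq
    have h1 := hD _ (D.sub_mem hp hq)
    constructor
    · intro h
      exact sub_eq_zero.1 (rvl_ne h1 (sub_eq_zero.2 h))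
    · intro h
      exact sub_eq_zero.1 (rvl_ne' hl1 h1 (sub_eq_zero.2 h))
  fn := by
    rintro _ ⟨D, rfl, -⟩ n f s hs
    exact hfn D n f s hs
  rel := by
    rintro _ ⟨D, rfl, hD, hc, hXD⟩ n R s hs
    exact hrel D hD hc hXD n R s hs

end bfrig

section ex

variable {N : Type} [LC.Structure N] [Field N] {O Oc : ValuationSubring N}

theorem fun2_eq {L : FirstOrder.Language.{0, 0}} {N : Type} [L.Structure N] (f : L.Functions 2)
    (s : Fin 2 → N) : (funMap f s : N) = funMap f ![s 0, s 1] := by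
  congr 1
  funext i
  fin_cases i <;> rfl

theorem rel1_iff {L : FirstOrder.Language.{0, 0}} {N : Type} [L.Structure N] (R : L.Relations 1)
    (s : Fin 1 → N) : RelMap R s ↔ RelMap R ![s 0] := by
  apply iff_of_eq
  congr 1
  funext i
  fin_cases i
  rfl

theorem Good.fn (h : Good N O Oc) (D : Subring (N × N)) (n : ℕ) (f : LC.Functions n)
    (s : Fin n → N × N) (hs : ∀ i, s i ∈ D) :
    ((funMap f fun i => (s i).1 : N), (funMap f fun i => (s i).2 : N)) ∈ D := by
  cases f with
  | add =>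
    change ((funMap syO.add fun i => (s i).1 : N), (funMap syO.add fun i => (s i).2 : N)) ∈ D
    rw [fun2_eq, fun2_eq syO.add (fun i => (s i).2), h.isv.add, h.isv.add]
    exact D.add_mem (hs 0) (hs 1)
  | mul =>
    change ((funMap syO.mul fun i => (s i).1 : N), (funMap syO.mul fun i => (s i).2 : N)) ∈ D
    rw [fun2_eq, fun2_eq syO.mul (fun i => (s i).2), h.isv.mul, h.isv.mul]
    exact D.mul_mem (hs 0) (hs 1)

omit [LC.Structure N] in
theorem rveq_of_le (hle : O ≤ Oc) {x x' : N} (h : RVeq Oc.valuation x x') :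
    RVeq O.valuation x x' := by
  rcases h with h | h
  · exact Or.inl h
  · exact Or.inr (val_lt_of_le hle h)

omit [LC.Structure N] in
theorem mem_of_rveq {x x' : N} (h : RVeq O.valuation x x') : x ∈ O ↔ x' ∈ O := by
  rw [← O.valuation_le_one_iff, ← O.valuation_le_one_iff, h.v_eq]

omit [LC.Structure N] in
theorem val_eq_of_le (hle : O ≤ Oc) {x x' : N} (h : O.valuation x' = O.valuation x) :
    Oc.valuation x' = Oc.valuation x :=
  le_antisymm (val_le_of_le hle h.le) (val_le_of_le hle h.ge)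

/-- A unary relation on one point. -/
theorem fin1 {n : ℕ} {A : Type*} (s : Fin n → A) (h : n = 1) : s = fun _ => s ⟨0, by omega⟩ := by
  subst h
  funext i
  congr 1
  exact Subsingleton.elim _ _

theorem Good.bf_c (h : Good N O Oc) (hS : SC Oc.valuation) {l : N} (hl0 : l ≠ 0)
    (hl1 : Oc.valuation l ≤ 1) : BF LC (FR Oc.valuation l (fun _ => True)) := by
  have := h.ac
  refine bf_rig h.isvc.vf.nat hS hl0 hl1 _ (fun _ _ _ _ => trivial) (h.fn) ?_
  intro D hD _ _ n R s hs
  cases R with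
  | O =>
    have h1 := rveq_of_le h.le (rvl_rveq hl1 (hD _ (hs 0)))
    have h2 := mem_of_rveq h1
    rw [← h.isv.ring, ← h.isv.ring] at h2
    exact (rel1_iff syO.ring (fun i => (s i).1)).trans (h2.trans (rel1_iff syO.ring (fun i => (s i).2)).symm)
  | Oc =>
    have h1 := rvl_rveq hl1 (hD _ (hs 0))
    have h2 := mem_of_rveq h1
    rw [← h.isvc.ring, ← h.isvc.ring] at h2
    exact (rel1_iff syc.ring (fun i => (s i).1)).trans (h2.trans (rel1_iff syc.ring (fun i => (s i).2)).symm)
  | P =>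
    obtain ⟨t, ht, hP⟩ := h.p
    have key : ∀ x x' : N, RVeq Oc.valuation x x' → Oc.valuation (x - t) < 1 →
        Oc.valuation (x' - t) < 1 := by
      intro x x' hx h1
      rcases hx with ⟨rfl, rfl⟩ | hx
      · exact h1
      · have h2 : Oc.valuation x = 1 := by
          rw [← ht]
          refine v_eq_of_sub_lt ?_
          rw [v_sub_comm, ht]
          exact h1
        rw [h2, v_sub_comm] at hx
        exact v_tri_lt hx h1
    have h1 := rvl_rveq hl1 (hD _ (hs 0))
    have h2 : RelMap symP ![(s 0).1] ↔ RelMap symP ![(s 0).2] := by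
      rw [hP, hP]
      exact ⟨key _ _ h1, key _ _ h1.symm⟩
    exact (rel1_iff symP (fun i => (s i).1)).trans (h2.trans (rel1_iff symP (fun i => (s i).2)).symm)

theorem LC_card : LC.card ≤ Cardinal.aleph0 := by
  have h1 : Finite (Σ n, CFun n) := by
    refine Finite.of_surjective (fun b : Bool => if b then (⟨2, CFun.add⟩ : Σ n, CFun n)
      else ⟨2, CFun.mul⟩) ?_
    rintro ⟨n, f⟩
    cases f
    · exact ⟨true, rfl⟩
    · exact ⟨false, rfl⟩
  have h2 : Finite (Σ n, CRel n) := by
    refine Finite.of_surjective (fun b : Option Bool => (b.elim ⟨1, CRel.P⟩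
      (fun b => if b then ⟨1, CRel.O⟩ else ⟨1, CRel.Oc⟩) : Σ n, CRel n)) ?_
    rintro ⟨n, f⟩
    cases f
    · exact ⟨some true, rfl⟩
    · exact ⟨some false, rfl⟩
    · exact ⟨none, rfl⟩
  have h3 : Countable LC.Symbols := by
    unfold Language.Symbols
    exact @instCountableSum _ _ (@Finite.to_countable _ h1) (@Finite.to_countable _ h2)
  exact Cardinal.mk_le_aleph0_iff.2 h3

/-- The theory of the example is ω-h-minimal for the coarse valuation. -/
theorem Good.hmin_c {K : Type} [LC.Structure K] [Field K] {O Oc : ValuationSubring K}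
    (h : Good K O Oc) : HMinTh syc K ⊤ := by
  intro K' _ _ O' hKK hO'
  have : Nonempty K := ⟨0⟩
  obtain ⟨N, iN, jK, jK', hs⟩ := exists_joint_sat1 hKK
  obtain ⟨iF, ON, OcN, hG⟩ := h.transfer jK
  have := hG.ac
  have hV := hG.isvc.vf
  have hS := sat1_sc hs hV
  have hc : CDf LC N := cdf_of_card LC_card N
  refine hMinNe_of' hO' (hminAt_of_TH jK' hO' hG.isvc (satur_of_sat1 hs hc) ?_ ⊤)
  exact TH_of_rigid hV hS (fun ι _ a => acl_countable hc a)
    (fun l hl0 hl1 D hD hDc _ => (hG.bf_c hS hl0 hl1).el ⟨D, rfl, hD, hDc, trivial⟩)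

end ex

end Pool.Agent.R611.CX
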