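import Pool.Agent.R611.CX.R8

/-!
# The example is not Hensel minimal; rigid maps for the fine valuation
-/

set_option autoImplicit false

namespace Pool.Agent.R611.CX

open FirstOrder Language Structure Polynomial Pool.Agent.R611.HM

theorem countable_poly (R : Type*) [CommRing R] [Countable R] : Countable R[X] := by
  have h1 := Polynomial.cardinalMk_le_max (R := R)
  have h2 : Cardinal.mk R ≤ Cardinal.aleph0 := Cardinal.mk_le_aleph0_iff.2 inferInstance
  rw [max_eq_right h2] at h1
  exact Cardinal.mk_le_aleph0_iff.1 h1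

section

variable {N : Type} [LC.Structure N] [Field N] {O Oc : ValuationSubring N}

omit [LC.Structure N] in
theorem eval_sub_lt {a b : N} (ha : Oc.valuation a ≤ 1) (hab : Oc.valuation (a - b) < 1)
    (f : ℤ[X]) : Oc.valuation (eval₂ (Int.castRingHom N) a f -
      eval₂ (Int.castRingHom N) b f) < 1 := by
  have hb : Oc.valuation b ≤ 1 := by
    have e : b = a - (a - b) := by ring
    rw [e]
    exact v_sub_le ha hab.le
  let a' : Oc := ⟨a, (Oc.valuation_le_one_iff a).1 ha⟩
  let b' : Oc := ⟨b, (Oc.valuation_le_one_iff b).1 hb⟩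
  obtain ⟨q, hq⟩ := Polynomial.sub_dvd_eval_sub a' b' (f.map (Int.castRingHom Oc))
  rw [eval_map, eval_map] at hq
  have h1 : ∀ x : Oc, ((eval₂ (Int.castRingHom Oc) x f : Oc) : N) =
      eval₂ (Int.castRingHom N) (x : N) f := by
    intro x
    have := hom_eval₂ f (Int.castRingHom Oc) Oc.subtype x
    rw [ValuationSubring.subtype_apply] at this
    rw [this]
    congr 1
  have h2 := congrArg (fun x : Oc => (x : N)) hq
  simp only [AddSubgroupClass.coe_sub, MulMemClass.coe_mul] at h2
  rw [h1, h1] at h2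
  change eval₂ (Int.castRingHom N) a f - eval₂ (Int.castRingHom N) b f = (a - b) * q at h2
  rw [h2, map_mul]
  calc Oc.valuation (a - b) * Oc.valuation (q : N) ≤ Oc.valuation (a - b) * 1 :=
        mul_le_mul_right (Oc.valuation_le_one q) _
    _ = Oc.valuation (a - b) := mul_one _
    _ < 1 := hab

/-- all elements of `P` have the same type -/
theorem Good.same_type (h : Good N O Oc) (hS : SC Oc.valuation) {a b : N}
    (ha : Oc.valuation a ≤ 1) (hab : Oc.valuation (a - b) < 1)
    (htr : ∀ f : ℤ[X], f ≠ 0 → Oc.valuation (eval₂ (Int.castRingHom N) a f) = 1)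
    {φ : LC.Formula Unit} : φ.Realize (fun _ => a) ↔ φ.Realize (fun _ => b) := by
  let D : Subring (N × N) := (RingHom.prod (eval₂RingHom (Int.castRingHom N) a)
    (eval₂RingHom (Int.castRingHom N) b)).range
  have hD : Rig Oc.valuation 1 D := by
    rintro _ ⟨f, rfl⟩
    by_cases hf : f = 0
    · left
      rw [hf, map_zero]
      exact ⟨rfl, rfl⟩
    · right
      have h1 := eval_sub_lt ha hab f
      rw [map_one, one_mul]
      change Oc.valuation (eval₂ (Int.castRingHom N) a f - eval₂ (Int.castRingHom N) b f) <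
        Oc.valuation (eval₂ (Int.castRingHom N) a f)
      rw [htr f hf]
      exact h1
  have hc : (D : Set (N × N)).Countable := by
    have := countable_poly ℤ
    rw [RingHom.coe_range]
    exact Set.countable_range _
  have hab' : (a, b) ∈ D := ⟨X, by simp⟩
  have hE := (h.bf_c hS one_ne_zero (by rw [map_one])).el ⟨D, rfl, hD, hc, trivial⟩
  exact hE Unit (fun _ => (a, b)) (fun _ => hab') _ (df_iff.2 ⟨φ, fun _ => Iff.rfl⟩)

end

section neg

variable {K : Type} [LC.Structure K] [Field K] {O Oc : ValuationSubring K}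

/-- finite definable sets do not meet `P` -/
theorem Good.avoid (h : Good K O Oc) (hOc : ∃ t : K, t ≠ 0 ∧ Oc.valuation t < 1) {s : K}
    (hs : RelMap symP ![s])
    (htr : ∀ f : ℤ[X], f ≠ 0 → Oc.valuation (eval₂ (Int.castRingHom K) s f) = 1)
    {C : Set K} (hC : C.Finite) (hCd : (∅ : Set K).Definable₁ LC C) :
    ∀ p ∈ C, ¬ RelMap symP ![p] := by
  intro p hp hpP
  have hVc := h.isvc.vf
  obtain ⟨s₀, hs₀, hP⟩ := h.p
  obtain ⟨φ', hφ'⟩ := Set.empty_definable_iff.1 hCd
  let φ : LC.Formula Unit := φ'.relabel (fun _ => ())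
  have hφ : ∀ x : K, x ∈ C ↔ φ.Realize (fun _ => x) := by
    intro x
    rw [Formula.realize_relabel]
    exact Set.ext_iff.1 hφ' (fun _ => x)
  have : Nonempty K := ⟨0⟩
  obtain ⟨N, iN, j, hsat⟩ := exists_sat1 (L := LC) K
  obtain ⟨iF, O', Oc', hG⟩ := h.transfer j
  have hS := sat1_sc hsat hG.isvc.vf
  have hφj : ∀ x : K, φ.Realize (fun _ => (j x : N)) ↔ φ.Realize (fun _ => x) := by
    intro x
    exact j.map_formula φ (fun _ => x)
  let r := jr j h.isvc hG.isvc
  have hone : j (1 : K) = 1 := r.map_one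
  have hv1 : ∀ x : K, Oc.valuation x = 1 → Oc'.valuation (j x) = 1 := by
    intro x hx
    have h1 := (j_le j h.isvc hG.isvc x 1).2 (by rw [hx, map_one])
    have h2 := (j_le j h.isvc hG.isvc 1 x).2 (by rw [hx, map_one])
    rw [hone, map_one] at h1 h2
    exact le_antisymm h1 h2
  have hvlt : ∀ x y : K, Oc.valuation (x - y) < 1 → Oc'.valuation (j x - j y) < 1 := by
    intro x y hxy
    rw [← j_sub j h.isvc hG.isvc]
    have h1 : ¬ Oc'.valuation (j 1) ≤ Oc'.valuation (j (x - y)) := by
      rw [j_le j h.isvc hG.isvc, map_one]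
      exact not_le.2 hxy
    rw [hone, map_one] at h1
    exact not_le.1 h1
  have htr' : ∀ f : ℤ[X], f ≠ 0 → Oc'.valuation (eval₂ (Int.castRingHom N) (j s) f) = 1 := by
    intro f hf
    have h1 := hv1 _ (htr f hf)
    have h2 := hom_eval₂ f (Int.castRingHom K) r s
    have h3 : r.comp (Int.castRingHom K) = Int.castRingHom N := RingHom.ext_int _ _
    rw [h3] at h2
    change j _ = eval₂ _ (j s) f at h2
    rw [← h2]
    exact h1
  have hs1 : Oc.valuation s = 1 := by
    have := htr X X_ne_zero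
    rwa [eval₂_X] at this
  have hjs1 : Oc'.valuation (j s) ≤ 1 := (hv1 s hs1).le
  have hclose : ∀ x : K, RelMap symP ![x] → Oc'.valuation (j s - j x) < 1 := by
    intro x hx
    refine hvlt _ _ ?_
    rw [hP] at hs hx
    rw [v_sub_comm] at hx
    exact v_tri_lt hs hx
  have hsub : ∀ x : K, RelMap symP ![x] → x ∈ C := by
    intro x hx
    have h1 := (hφ p).1 hp
    rw [← hφj] at h1
    have h2 := (hG.same_type hS hjs1 (hclose p hpP) htr' (φ := φ)).2 h1
    have h3 := (hG.same_type hS hjs1 (hclose x hx) htr' (φ := φ)).1 h2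
    rw [hφj] at h3
    exact (hφ x).2 h3
  -- `P` is infinite
  obtain ⟨t, ht0, ht⟩ := hOc
  have hinj : Function.Injective (fun n : ℕ => s + (n : K) * t) := by
    intro m n hmn
    have h1 : (m : K) = n := mul_right_cancel₀ ht0 (add_left_cancel hmn)
    by_contra hne
    rcases Nat.lt_or_gt_of_ne hne with h2 | h2
    · have h3 := hVc.nat (n - m) (by omega)
      rw [Nat.cast_sub h2.le, h1, sub_self, map_zero] at h3
      exact zero_ne_one h3
    · have h3 := hVc.nat (m - n) (by omega)
      rw [Nat.cast_sub h2.le, h1, sub_self, map_zero] at h3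
      exact zero_ne_one h3
  refine Set.infinite_range_of_injective hinj (hC.subset ?_)
  rintro _ ⟨n, rfl⟩
  refine hsub _ ?_
  rw [hP] at hs ⊢
  have e : s + (n : K) * t - s₀ = (s - s₀) + (n : K) * t := by ring
  change Oc.valuation (s + (n : K) * t - s₀) < 1
  rw [e]
  refine v_add_lt hs ?_
  rw [map_mul]
  by_cases hn : n = 0
  · rw [hn, Nat.cast_zero, map_zero, zero_mul]
    exact zero_lt_one
  · rw [hVc.nat n hn, one_mul]
    exact ht

/-- No finite definable set prepares `P` for the fine valuation. -/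
theorem Good.not_prepared (h : Good K O Oc) (hOO : ∃ t ∈ Oc, t ∉ O)
    (hOc : ∃ t : K, t ≠ 0 ∧ Oc.valuation t < 1) {s : K}
    (hs : RelMap symP ![s])
    (htr : ∀ f : ℤ[X], f ≠ 0 → Oc.valuation (eval₂ (Int.castRingHom K) s f) = 1)
    {C : Set K} (hC : C.Finite) (hCd : (∅ : Set K).Definable₁ LC C)
    (hCp : Prepared O 1 C {x | RelMap symP ![x]}) : False := by
  obtain ⟨s₀, hs₀, hP⟩ := h.p
  let X : Set K := {x | RelMap symP ![x]}
  have hav := h.avoid hOc hs htr hC hCd
  -- a small element outside of the maximal ideal of the coarse valuation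
  obtain ⟨t, htc, htO⟩ := hOO
  have ht1 : 1 < O.valuation t := by
    rw [← not_le, O.valuation_le_one_iff]
    exact htO
  have ht0 : t ≠ 0 := fun h0 => by
    rw [h0, map_zero] at ht1
    exact absurd ht1 (not_lt.2 zero_le)
  have htc1 : Oc.valuation t = 1 := by
    refine le_antisymm ((Oc.valuation_le_one_iff t).2 htc) ?_
    have := val_le_of_le (x := 1) (y := t) h.le (by rw [map_one]; exact ht1.le)
    rwa [map_one] at this
  have hu1 : O.valuation t⁻¹ < 1 := by
    rw [map_inv₀]
    exact inv_lt_one_of_one_lt₀ ht1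
  have huc : Oc.valuation t⁻¹ = 1 := by
    rw [map_inv₀, htc1, inv_one]
  have hsc : ∀ c ∈ C, 1 ≤ Oc.valuation (s - c) := by
    intro c hc
    by_contra hcon
    refine hav c hc ?_
    rw [hP] at hs ⊢
    rw [v_sub_comm] at hcon
    exact v_tri_lt (not_le.1 hcon) hs
  have hw : ∀ c : K, ∃ w : K, c ∈ C → O.valuation w < O.valuation (s - c) ∧
      Oc.valuation w = 1 := by
    intro c
    by_cases hc : c ∈ C
    · rcases (hsc c hc).eq_or_lt with h1 | h1
      · refine ⟨(s - c) * t⁻¹, fun _ => ⟨?_, ?_⟩⟩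
        · rw [map_mul]
          have hpos : 0 < O.valuation (s - c) := by
            refine (Valuation.pos_iff _).2 fun h0 => ?_
            rw [h0, map_zero] at h1
            exact one_ne_zero h1
          calc O.valuation (s - c) * O.valuation t⁻¹ < O.valuation (s - c) * 1 :=
                mul_lt_mul_of_pos_left hu1 hpos
            _ = _ := mul_one _
        · rw [map_mul, ← h1, one_mul, huc]
      · refine ⟨1, fun _ => ⟨?_, map_one _⟩⟩
        refine val_lt_of_le h.le ?_
        rw [map_one]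
        exact h1
    · exact ⟨0, fun h' => absurd h' hc⟩
  choose w hw using hw
  obtain ⟨w₀, hw₀, hw₀'⟩ : ∃ w₀ : K, Oc.valuation w₀ = 1 ∧
      ∀ c ∈ C, O.valuation w₀ < O.valuation (s - c) := by
    by_cases hne : C.Nonempty
    · obtain ⟨c₀, hc₀, hmin⟩ := Set.exists_min_image C (fun c => O.valuation (w c)) hC hne
      exact ⟨w c₀, (hw c₀ hc₀).2, fun c hc => (hmin c hc).trans_lt (hw c hc).1⟩
    · exact ⟨1, map_one _, fun c hc => absurd ⟨c, hc⟩ hne⟩
  have h1 := hCp s (s + w₀) (fun c hc => by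
    rw [rv_one_iff]
    right
    have e : s - c - (s + w₀ - c) = -w₀ := by ring
    rw [e, Valuation.map_neg]
    exact hw₀' c hc)
  have h2 : s + w₀ ∈ X := h1.1 hs
  have h3 : Oc.valuation (s + w₀ - s₀) < 1 := (hP _).1 h2
  have h4 : Oc.valuation (s - s₀) < 1 := (hP _).1 hs
  have h5 : Oc.valuation w₀ < 1 := by
    have e : w₀ = (s + w₀ - s₀) - (s - s₀) := by ring
    rw [e]
    exact v_sub_lt h3 h4
  rw [hw₀] at h5
  exact lt_irrefl _ h5

/-- The theory of the example is not Hensel minimal for the fine valuation. -/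
theorem Good.not_hmin (h : Good K O Oc) (hOO : ∃ t ∈ Oc, t ∉ O)
    (hOc : ∃ t : K, t ≠ 0 ∧ Oc.valuation t < 1) {s : K}
    (hs : RelMap symP ![s])
    (htr : ∀ f : ℤ[X], f ≠ 0 → Oc.valuation (eval₂ (Int.castRingHom K) s f) = 1) :
    ¬ HMinTh syO K ⊤ := by
  intro H
  have H1 := H K O (show LC.completeTheory K = LC.completeTheory K from rfl) h.isv
  obtain ⟨C, hC, -, hCd, hCp⟩ := H1 1 one_ne_zero le_rfl ∅ ∅ Set.finite_empty le_top
    {x | RelMap symP ![x]}
    ⟨0, 0, fun i => i.elim0, fun i => i.elim0, {w | RelMap symP ![w none]}, fun i => i.elim0,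
      by
        have : Df LC (fun w : Option (Fin 0 ⊕ Fin 0) → K => RelMap symP ![w none]) :=
          df_rel1' _ (DfF.var none)
        exact this, fun z w _ _ => rfl⟩
  exact h.not_prepared hOO hOc hs htr hC hCd hCp

end neg

section fine

variable {N : Type} [LC.Structure N] [Field N] {O Oc : ValuationSubring N}

/-- rigid maps for the fine valuation containing a pair of `P` are elementary -/
theorem Good.bf_v (h : Good N O Oc) (hS : SC O.valuation) {l : N} (hl0 : l ≠ 0)
    (hl1 : O.valuation l ≤ 1) : BF LC (FR O.valuation l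
      (fun D => ∃ p ∈ D, RelMap symP ![p.1] ∧ RelMap symP ![p.2])) := by
  have := h.ac
  refine bf_rig h.isv.vf.nat hS hl0 hl1 _ ?_ (h.fn) ?_
  · rintro D D' hDD ⟨p, hp, h1⟩
    exact ⟨p, hDD hp, h1⟩
  rintro D hD - ⟨p, hp, hp1, hp2⟩ n R s hs
  cases R with
  | O =>
    have h2 := mem_of_rveq (rvl_rveq hl1 (hD _ (hs 0)))
    rw [← h.isv.ring, ← h.isv.ring] at h2
    exact (rel1_iff syO.ring (fun i => (s i).1)).trans
      (h2.trans (rel1_iff syO.ring (fun i => (s i).2)).symm)
  | Oc =>
    have h1 := val_eq_of_le h.le (rvl_v_eq hl1 (hD _ (hs 0)))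
    have h2 : (s 0).1 ∈ Oc ↔ (s 0).2 ∈ Oc := by
      rw [← Oc.valuation_le_one_iff, ← Oc.valuation_le_one_iff, h1]
    rw [← h.isvc.ring, ← h.isvc.ring] at h2
    exact (rel1_iff syc.ring (fun i => (s i).1)).trans
      (h2.trans (rel1_iff syc.ring (fun i => (s i).2)).symm)
  | P =>
    obtain ⟨t, ht, hP⟩ := h.p
    have key : ∀ x y : N, RelMap symP ![y] → (RelMap symP ![x] ↔ Oc.valuation (x - y) < 1) := by
      intro x y hy
      rw [hP] at hy ⊢
      constructor
      · intro h1
        rw [v_sub_comm] at hy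
        exact v_tri_lt h1 hy
      · intro h1
        exact v_tri_lt h1 hy
    have h1 : Oc.valuation ((s 0).2 - p.2) = Oc.valuation ((s 0).1 - p.1) :=
      val_eq_of_le h.le (rvl_v_eq hl1 (hD _ (D.sub_mem (hs 0) hp)))
    have h2 : RelMap symP ![(s 0).1] ↔ RelMap symP ![(s 0).2] := by
      rw [key _ _ hp1, key _ _ hp2, h1]
    exact (rel1_iff symP (fun i => (s i).1)).trans
      (h2.trans (rel1_iff symP (fun i => (s i).2)).symm)

end fine

end Pool.Agent.R611.CX
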