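import Pool.Agent.R611.CX.R9
import Pool.Agent.R611.CX.Def

/-!
# The residue field of the coarse valuation
-/

set_option autoImplicit false

namespace Pool.Agent.R611.CX

open Polynomial Pool.Agent.R611.HM IsLocalRing

universe u

variable {N : Type u} [Field N]

theorem val_unit_iff {Oc : ValuationSubring N} (x : Oc) :
    residue Oc x ≠ 0 ↔ Oc.valuation (x : N) = 1 := by
  rw [residue_ne_zero_iff_isUnit, Oc.valuation_eq_one_iff]

theorem val_zero_iff {Oc : ValuationSubring N} (x : Oc) :
    residue Oc x = 0 ↔ Oc.valuation (x : N) < 1 := by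
  rw [← Oc.valuation_lt_one_iff, residue_eq_zero_iff]

theorem mem_of_val_lt {O Oc : ValuationSubring N} (h : O ≤ Oc) {x : N}
    (hx : Oc.valuation x < 1) : x ∈ O := by
  rw [← map_one Oc.valuation] at hx
  have h1 := val_lt_of_le h hx
  rw [map_one] at h1
  exact (O.valuation_le_one_iff x).1 h1.le

section

variable {O Oc : ValuationSubring N} (h : O ≤ Oc)

theorem mem_resRing {y : Oc} : residue Oc y ∈ resRing O Oc h ↔ (y : N) ∈ O := by
  constructor
  · rintro ⟨z, hz, hzy⟩
    have h1 : residue Oc (y - z) = 0 := by rw [map_sub, hzy, sub_self]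
    have h2 := mem_of_val_lt h ((val_zero_iff _).1 h1)
    have e : (y : N) = ((y - z : Oc) : N) + z := by
      rw [AddSubgroupClass.coe_sub]; ring
    rw [e]
    exact O.add_mem _ _ h2 hz
  · intro h1
    exact ⟨y, h1, rfl⟩

theorem res_le {x y : Oc} (hy : residue Oc y ≠ 0) :
    (resRing O Oc h).valuation (residue Oc x) ≤ (resRing O Oc h).valuation (residue Oc y) ↔
      O.valuation (x : N) ≤ O.valuation (y : N) := by
  have hy1 := (val_unit_iff y).1 hy
  have hy0 : (y : N) ≠ 0 := fun h0 => by
    rw [h0, map_zero] at hy1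
    exact zero_ne_one hy1
  have hyi : (y : N)⁻¹ ∈ Oc := by
    rw [← Oc.valuation_le_one_iff, map_inv₀, hy1, inv_one]
  let z : Oc := x * ⟨(y : N)⁻¹, hyi⟩
  have hz : residue Oc x / residue Oc y = residue Oc z := by
    rw [div_eq_iff hy, ← map_mul]
    congr 1
    apply Subtype.ext
    change (x : N) = (x * (y : N)⁻¹) * y
    rw [mul_assoc, inv_mul_cancel₀ hy0, mul_one]
  have h1 : (resRing O Oc h).valuation (residue Oc x) ≤
      (resRing O Oc h).valuation (residue Oc y) ↔ residue Oc z ∈ resRing O Oc h := by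
    rw [← hz, ← ValuationSubring.valuation_le_one_iff, map_div₀,
      div_le_one₀ ((Valuation.pos_iff _).2 hy)]
  rw [h1, mem_resRing]
  change (x : N) * (y : N)⁻¹ ∈ O ↔ _
  rw [← O.valuation_le_one_iff, ← div_eq_mul_inv, map_div₀,
    div_le_one₀ ((Valuation.pos_iff _).2 hy0)]

theorem res_lt {x y : Oc} (hy : residue Oc y ≠ 0) :
    (resRing O Oc h).valuation (residue Oc x) < (resRing O Oc h).valuation (residue Oc y) ↔
      O.valuation (x : N) < O.valuation (y : N) := by
  by_cases hx : residue Oc x = 0
  · have h1 : Oc.valuation (x : N) < Oc.valuation (y : N) := by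
      rw [(val_unit_iff y).1 hy]
      exact (val_zero_iff x).1 hx
    rw [hx, map_zero]
    exact ⟨fun _ => val_lt_of_le h h1, fun _ => (Valuation.pos_iff _).2 hy⟩
  · rw [← not_le, ← not_le, res_le h hx]

/-- closeness in the residue field gives closeness of lifts -/
theorem res_rvl {l x y : Oc} (hl : residue Oc l ≠ 0)
    (hxy : RVl (resRing O Oc h).valuation (residue Oc l) (residue Oc x) (residue Oc y))
    (hx : residue Oc x ≠ 0) : RVl O.valuation (l : N) (x : N) (y : N) := by
  right
  have h1 := rvl_lt hxy hx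
  rw [← map_mul (resRing O Oc h).valuation, ← map_mul (residue Oc), ← map_sub,
    res_lt h (by rw [map_mul]; exact mul_ne_zero hl hx)] at h1
  rw [← map_mul]
  exact h1

/-- the residue field of an algebraically closed valued field is algebraically closed -/
theorem root_lift [IsAlgClosed N] {Oc : ValuationSubring N} {p : Oc[X]} (hp : p.Monic)
    {e : ResidueField Oc} (he : eval₂ (residue Oc) e p = 0) :
    ∃ x : Oc, residue Oc x = e ∧ eval₂ Oc.subtype (x : N) p = 0 := by
  have hp' : (p.map Oc.subtype).Monic := hp.map _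
  have hs := IsAlgClosed.splits (p.map Oc.subtype)
  have hroots : ∀ r ∈ (p.map Oc.subtype).roots, r ∈ Oc := by
    intro r hr
    have h1 : IsRoot (p.map Oc.subtype) r := (mem_roots hp'.ne_zero).1 hr
    rw [IsRoot.def, eval_map] at h1
    have h2 : IsIntegral Oc r := ⟨p, hp, h1⟩
    obtain ⟨y, hy⟩ := (IsIntegrallyClosed.isIntegral_iff (R := Oc) (K := N)).1 h2
    rw [← hy]
    exact y.2
  -- the polynomial is a product over Oc
  let t : Multiset Oc := (p.map Oc.subtype).roots.attach.map fun r => ⟨r.1, hroots r.1 r.2⟩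
  have ht : t.map Oc.subtype = (p.map Oc.subtype).roots := by
    rw [Multiset.map_map]
    exact Multiset.attach_map_val _
  have hpt : p = (t.map fun a => (X - C a : Oc[X])).prod := by
    apply Polynomial.map_injective Oc.subtype Subtype.val_injective
    rw [Polynomial.map_multiset_prod, Multiset.map_map]
    conv_lhs => rw [hs.eq_prod_roots_of_monic hp', ← ht, Multiset.map_map]
    congr 1
    refine Multiset.map_congr rfl fun a _ => ?_
    simp
  rw [hpt, eval₂_multiset_prod, Multiset.map_map] at he
  obtain ⟨a, ha, ha0⟩ := Multiset.mem_map.1 (Multiset.prod_eq_zero_iff.1 he)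
  simp only [Function.comp, eval₂_sub, eval₂_X, eval₂_C] at ha0
  refine ⟨a, (sub_eq_zero.1 ha0).symm, ?_⟩
  have h1 : Oc.subtype a ∈ (p.map Oc.subtype).roots := by
    rw [← ht]
    exact Multiset.mem_map_of_mem _ ha
  have h2 := (mem_roots hp'.ne_zero).1 h1
  rw [IsRoot.def, eval_map] at h2
  exact h2

theorem residue_isAlgClosed [IsAlgClosed N] (Oc : ValuationSubring N) :
    IsAlgClosed (ResidueField Oc) := by
  refine IsAlgClosed.of_exists_root _ fun p hp hirr => ?_
  obtain ⟨q, hq, hqd, hqm⟩ := lifts_and_natDegree_eq_and_monic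
    (f := residue Oc) (p := p) (by
      rw [Polynomial.lifts_iff_coeff_lifts]
      exact fun n => residue_surjective _) hp
  have hd : (q.map Oc.subtype).degree ≠ 0 := by
    have h1 : (q.map Oc.subtype).natDegree = p.natDegree := by
      rw [hqm.natDegree_map, hqd]
    have h2 := Irreducible.natDegree_pos hirr
    intro h3
    have := natDegree_eq_of_degree_eq_some (n := 0) h3
    omega
  obtain ⟨x, hx⟩ := IsAlgClosed.exists_root _ hd
  rw [IsRoot.def, eval_map] at hx
  have h2 : IsIntegral Oc x := ⟨q, hqm, hx⟩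
  obtain ⟨y, hy⟩ := (IsIntegrallyClosed.isIntegral_iff (R := Oc) (K := N)).1 h2
  refine ⟨residue Oc y, ?_⟩
  have h3 : eval₂ Oc.subtype (Oc.subtype y) q = Oc.subtype (q.eval y) := eval₂_at_apply _ _
  have h4 : q.eval y = 0 := by
    apply Subtype.val_injective
    change Oc.subtype _ = 0
    rw [← h3, show Oc.subtype y = x from hy]
    exact hx
  rw [← hq, eval_map, eval₂_at_apply, h4, map_zero]

end

end Pool.Agent.R611.CX
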