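import Pool.Agent.R611.CX.S1

/-!
# Lifting rigid maps from the residue field
-/

set_option autoImplicit false

namespace Pool.Agent.R611.CX

open Polynomial Pool.Agent.R611.HM IsLocalRing

universe u

variable {N : Type u} [Field N] {O Oc : ValuationSubring N}

/-- residues of pairs of `D` lie in `E` -/
def Cmp (E : Subring (ResidueField Oc × ResidueField Oc)) (D : Subring (N × N)) : Prop :=
  ∀ x y : N, (x, y) ∈ D → ∀ hx : x ∈ Oc, ∃ hy : y ∈ Oc,
    (residue Oc ⟨x, hx⟩, residue Oc ⟨y, hy⟩) ∈ E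

section step

variable (h : O ≤ Oc) {l : Oc} (hl : residue Oc l ≠ 0) (hl1 : O.valuation (l : N) ≤ 1)
  {E : Subring (ResidueField Oc × ResidueField Oc)}
  (hE : Rig (resRing O Oc h).valuation (residue Oc l) E) (hEi : InvC E)

theorem eval_pair_mem {A : Type*} [CommRing A] {R : Type*} [CommRing R] (E : Subring (R × R))
    (ρ ρ' : A →+* R) (hρ : ∀ a, (ρ a, ρ' a) ∈ E) {e e' : R} (he : (e, e') ∈ E) (g : A[X]) :
    (eval₂ ρ e g, eval₂ ρ' e' g) ∈ E := by
  induction g using Polynomial.induction_on' with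
  | add p q hp hq =>
    rw [eval₂_add, eval₂_add]
    exact E.add_mem hp hq
  | monomial n a =>
    rw [eval₂_monomial, eval₂_monomial]
    exact E.mul_mem (hρ a) (E.pow_mem he n)

include hl hl1 hE hEi in
/-- From a normal form of the elements of a ring to its ring of fractions. -/
theorem frac_of_star {D : Subring (N × N)} (hD : Rig O.valuation (l : N) D) (hi : InvC D)
    (hC : Cmp E D) {D₁ : Subring (N × N)}
    (star : ∀ p ∈ D₁, p = 0 ∨ ∃ (b b' : N) (w w' : Oc), (b, b') ∈ D ∧ b ≠ 0 ∧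
      (residue Oc w, residue Oc w') ∈ E ∧ residue Oc w ≠ 0 ∧ p = (b * w, b' * w')) :
    ∃ hne : ∀ p ∈ D₁, p.1 ≠ 0 → p.2 ≠ 0,
      Rig O.valuation (l : N) (frac D₁ hne) ∧ Cmp E (frac D₁ hne) := by
  have hl0 : (l : N) ≠ 0 := fun h0 => hl (by
    have : l = 0 := Subtype.ext h0
    rw [this, map_zero])
  have hr : Rig O.valuation (l : N) D₁ := by
    intro p hp
    rcases star p hp with rfl | ⟨b, b', w, w', hb, hb0, hw, hw0, rfl⟩
    · exact Or.inl ⟨rfl, rfl⟩
    · exact rvl_mul hl1 (hD _ hb) (res_rvl h hl (hE _ hw) hw0)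
  refine ⟨hr.ne hl1, hr.frac hl1, ?_⟩
  rintro x y ⟨p, hp, q, hq, hq0, hxy⟩ hx
  rcases star q hq with rfl | ⟨c, c', u, u', hc, hc0, hu, hu0, rfl⟩
  · exact absurd rfl hq0
  rcases star p hp with rfl | ⟨b, b', w, w', hb, hb0, hw, hw0, rfl⟩
  · simp only [Prod.fst_zero, zero_div, Prod.snd_zero, Prod.mk.injEq] at hxy
    obtain ⟨rfl, rfl⟩ := hxy
    exact ⟨Oc.zero_mem, by
      have : residue Oc ⟨0, hx⟩ = 0 := map_zero (residue Oc)
      rw [this]
      exact E.zero_mem⟩
  · have hw'0 : residue Oc w' ≠ 0 := hE.ne (by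
      have h1 : (resRing O Oc h).valuation (residue Oc l) ≤
          (resRing O Oc h).valuation (residue Oc 1) := by
        rw [res_le h (by rw [map_one]; exact one_ne_zero)]
        simpa using hl1
      simpa using h1) _ hw hw0
    have hu'0 : residue Oc u' ≠ 0 := hE.ne (by
      have h1 : (resRing O Oc h).valuation (residue Oc l) ≤
          (resRing O Oc h).valuation (residue Oc 1) := by
        rw [res_le h (by rw [map_one]; exact one_ne_zero)]
        simpa using hl1
      simpa using h1) _ hu hu0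
    have inv : ∀ z : Oc, residue Oc z ≠ 0 → ∃ z' : Oc, (z' : N) = (z : N)⁻¹ ∧
        residue Oc z' = (residue Oc z)⁻¹ ∧ (z : N) ≠ 0 := by
      intro z hz
      have hz1 := (val_unit_iff z).1 hz
      have hz0 : (z : N) ≠ 0 := fun h0 => by
        rw [h0, map_zero] at hz1
        exact zero_ne_one hz1
      have hzi : (z : N)⁻¹ ∈ Oc := by
        rw [← Oc.valuation_le_one_iff, map_inv₀, hz1, inv_one]
      refine ⟨⟨_, hzi⟩, rfl, ?_, hz0⟩
      rw [eq_comm, inv_eq_of_mul_eq_one_right]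
      rw [← map_mul, ← map_one (residue Oc)]
      congr 1
      exact Subtype.ext (mul_inv_cancel₀ hz0)
    obtain ⟨wi, hwi1, hwi2, hw00⟩ := inv w hw0
    obtain ⟨wi', hwi1', hwi2', hw00'⟩ := inv w' hw'0
    obtain ⟨ui, hui1, hui2, hu00⟩ := inv u hu0
    obtain ⟨ui', hui1', hui2', hu00'⟩ := inv u' hu'0
    have hc'0 : c' ≠ 0 := hD.ne hl1 _ hc hc0
    have hbc : (b / c, b' / c') ∈ D := by
      have := D.mul_mem hb (hi _ hc hc0)
      simpa [div_eq_mul_inv] using this
    simp only [Prod.mk.injEq] at hxy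
    obtain ⟨hx1, hy1⟩ := hxy
    have hbcO : b / c ∈ Oc := by
      have e : b / c = x * (u * wi : Oc) := by
        rw [hx1, MulMemClass.coe_mul, hwi1]
        field_simp
      rw [e]
      exact Oc.mul_mem _ _ hx (u * wi : Oc).2
    obtain ⟨hbcO', hmem⟩ := hC _ _ hbc hbcO
    have ey : y = b' / c' * (w' * ui' : Oc) := by
      rw [hy1, MulMemClass.coe_mul, hui1']
      field_simp
    have ex : x = b / c * (w * ui : Oc) := by
      rw [hx1, MulMemClass.coe_mul, hui1]
      field_simp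
    have hyO : y ∈ Oc := by
      rw [ey]
      exact Oc.mul_mem _ _ hbcO' (w' * ui' : Oc).2
    refine ⟨hyO, ?_⟩
    have e1 : (⟨x, hx⟩ : Oc) = ⟨b / c, hbcO⟩ * (w * ui) := Subtype.ext ex
    have e2 : (⟨y, hyO⟩ : Oc) = ⟨b' / c', hbcO'⟩ * (w' * ui') := Subtype.ext ey
    rw [e1, e2, map_mul, map_mul, map_mul, map_mul, hui2, hui2']
    exact E.mul_mem hmem (E.mul_mem hw (hEi _ hu hu0))

include hl hl1 hE hEi in
/-- one step of the lifting -/
theorem lift_step [IsAlgClosed N] {D : Subring (N × N)} (hD : Rig O.valuation (l : N) D)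
    (hi : InvC D) (hC : Cmp E D) {e e' : ResidueField Oc} (he : (e, e') ∈ E) :
    ∃ D' : Subring (N × N), D ≤ D' ∧ Rig O.valuation (l : N) D' ∧ InvC D' ∧ Cmp E D' ∧
      ∃ x y : Oc, ((x : N), (y : N)) ∈ D' ∧ residue Oc x = e ∧ residue Oc y = e' := by
  classical
  obtain ⟨F, τ, hτ, hτ'⟩ : ∃ (F : Subfield N) (τ : F →+* N), (∀ x : F, ((x : N), τ x) ∈ D) ∧
      ∀ p ∈ D, ∃ h : p.1 ∈ F, τ ⟨p.1, h⟩ = p.2 := ⟨fld D hi, exists_hom hD hi⟩
  have hinv : ∀ a : F, ((a⁻¹ : F) : N) = (a : N)⁻¹ := fun a => map_inv₀ F.subtype a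
  let A : Subring F := Oc.toSubring.comap F.subtype
  let ρN : A →+* Oc := (F.subtype.comp A.subtype).codRestrict Oc.toSubring (fun a => a.2)
  have hτA : ∀ a : A, τ a.1 ∈ Oc := fun a => (hC _ _ (hτ a.1) a.2).1
  let ρN' : A →+* Oc := (τ.comp A.subtype).codRestrict Oc.toSubring hτA
  let ρ : A →+* ResidueField Oc := (residue Oc).comp ρN
  let ρ' : A →+* ResidueField Oc := (residue Oc).comp ρN'
  have hρ : ∀ a : A, (ρ a, ρ' a) ∈ E := fun a => (hC _ _ (hτ a.1) a.2).2
  -- normal form of polynomials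
  have norm : ∀ G : F[X], G ≠ 0 → ∃ (b : F) (H : A[X]), b ≠ 0 ∧ H.map ρ ≠ 0 ∧
      G = C b * H.map A.subtype ∧ H.natDegree ≤ G.natDegree := by
    intro G hG
    obtain ⟨i₀, hi₀, hmax⟩ := Finset.exists_max_image G.support
      (fun i => Oc.valuation (G.coeff i : N)) (support_nonempty.2 hG)
    set b := G.coeff i₀ with hb
    have hb0 : b ≠ 0 := mem_support_iff.1 hi₀
    have hb0N : (b : N) ≠ 0 := fun h0 => hb0 (Subtype.ext h0)
    have hlift : C b⁻¹ * G ∈ lifts A.subtype := by
      rw [lifts_iff_coeff_lifts]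
      intro i
      rw [coeff_C_mul]
      refine ⟨⟨b⁻¹ * G.coeff i, ?_⟩, rfl⟩
      change ((b⁻¹ * G.coeff i : F) : N) ∈ Oc
      rw [← Oc.valuation_le_one_iff, MulMemClass.coe_mul, map_mul, hinv,
        map_inv₀]
      by_cases hi : i ∈ G.support
      · rw [inv_mul_le_one₀ ((Valuation.pos_iff _).2 hb0N)]
        exact hmax i hi
      · rw [notMem_support_iff.1 hi]
        simp
    obtain ⟨H, hH⟩ := (mem_lifts _).1 hlift
    refine ⟨b, H, hb0, ?_, ?_, ?_⟩
    · intro h0
      have h1 := congrArg (fun q => q.coeff i₀) h0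
      simp only [coeff_map, coeff_zero] at h1
      have h2 : (H.coeff i₀ : F) = 1 := by
        have h3 := congrArg (fun q => q.coeff i₀) hH
        simp only [coeff_map, coeff_C_mul] at h3
        rw [← hb, inv_mul_cancel₀ hb0] at h3
        exact h3
      have h3 : H.coeff i₀ = 1 := Subtype.ext h2
      rw [h3, map_one] at h1
      exact one_ne_zero h1
    · have h4 : (C b * C b⁻¹ : F[X]) = 1 := by
        rw [← C_mul, mul_inv_cancel₀ hb0, C_1]
      rw [hH, ← mul_assoc, h4, one_mul]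
    · have h4 : (H.map A.subtype).natDegree = H.natDegree :=
        natDegree_map_eq_of_injective Subtype.val_injective _
      rw [← h4, hH]
      exact natDegree_C_mul_le _ _
  -- choice of the lifts
  obtain ⟨x, y, hx, hy, hxy⟩ : ∃ x y : Oc, residue Oc x = e ∧ residue Oc y = e' ∧
      ∀ G : F[X], (eval₂ F.subtype (x : N) G = 0 ∧ eval₂ τ (y : N) G = 0) ∨
        ∃ (b : F) (H : A[X]), b ≠ 0 ∧ eval₂ ρ e H ≠ 0 ∧
          eval₂ F.subtype (x : N) G = b * eval₂ (F.subtype.comp A.subtype) (x : N) H ∧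
          eval₂ τ (y : N) G = τ b * eval₂ (τ.comp A.subtype) (y : N) H := by
    have conv : ∀ (x y : N) (b : F) (H : A[X]),
        eval₂ F.subtype x (C b * H.map A.subtype) =
          b * eval₂ (F.subtype.comp A.subtype) x H ∧
        eval₂ τ y (C b * H.map A.subtype) = τ b * eval₂ (τ.comp A.subtype) y H := by
      intro x y b H
      rw [eval₂_mul, eval₂_C, eval₂_map, eval₂_mul, eval₂_C, eval₂_map]
      exact ⟨rfl, rfl⟩
    by_cases hT : ∀ g : A[X], eval₂ ρ e g = 0 → g.map ρ = 0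
    · obtain ⟨x, hx⟩ := residue_surjective e
      obtain ⟨y, hy⟩ := residue_surjective e'
      refine ⟨x, y, hx, hy, fun G => ?_⟩
      by_cases hG : G = 0
      · left
        rw [hG, eval₂_zero, eval₂_zero]
        exact ⟨rfl, rfl⟩
      · obtain ⟨b, H, hb0, hH, hGH, -⟩ := norm G hG
        right
        refine ⟨b, H, hb0, fun h0 => hH (hT H h0), ?_⟩
        rw [hGH]
        exact conv _ _ _ _
    · push Not at hT
      have hex : ∃ n, ∃ g : A[X], eval₂ ρ e g = 0 ∧ g.map ρ ≠ 0 ∧ (g.map ρ).natDegree = n := by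
        obtain ⟨g, h1, h2⟩ := hT
        exact ⟨_, g, h1, h2, rfl⟩
      obtain ⟨g, hg1, hg2, hg3⟩ := Nat.find_spec hex
      set n := Nat.find hex with hn
      have hmin : ∀ g : A[X], eval₂ ρ e g = 0 → g.map ρ ≠ 0 → n ≤ (g.map ρ).natDegree :=
        fun g h1 h2 => Nat.find_min' hex ⟨g, h1, h2, rfl⟩
      -- make it monic
      have hlc : ρ (g.coeff n) ≠ 0 := by
        have h1 : (g.map ρ).leadingCoeff ≠ 0 := leadingCoeff_ne_zero.2 hg2
        rwa [leadingCoeff, hg3, coeff_map] at h1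
      have hlcN : Oc.valuation ((g.coeff n : F) : N) = 1 := (val_unit_iff (ρN (g.coeff n))).1 hlc
      have hcn0 : (g.coeff n : F) ≠ 0 := fun h0 => by
        rw [h0] at hlcN
        simp at hlcN
      let u : A := ⟨(g.coeff n : F)⁻¹, by
        change (((g.coeff n : F)⁻¹ : F) : N) ∈ Oc
        rw [← Oc.valuation_le_one_iff, hinv, map_inv₀, hlcN, inv_one]⟩
      have hu : u * g.coeff n = 1 := Subtype.ext (inv_mul_cancel₀ hcn0)
      have hmon : ((C u * g).map ρ).Monic := by
        rw [Polynomial.map_mul, map_C]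
        have h1 : ρ u * (g.map ρ).leadingCoeff = 1 := by
          rw [leadingCoeff, hg3, coeff_map, ← map_mul, hu, map_one]
        have h2 : (C (ρ u) * g.map ρ).leadingCoeff = 1 := by
          rw [leadingCoeff_mul, leadingCoeff_C, h1]
        exact h2
      obtain ⟨q, hq, hqd, hqm⟩ := lifts_and_natDegree_eq_and_monic
        (f := ρ) (p := (C u * g).map ρ) ((mem_lifts _).2 ⟨_, rfl⟩) hmon
      have hu0 : ρ u ≠ 0 := by
        intro h0
        have := congrArg ρ hu
        rw [map_mul, h0, zero_mul, map_one] at this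
        exact zero_ne_one this
      have hqn : q.natDegree = n := by
        rw [hqd, Polynomial.map_mul, map_C, natDegree_C_mul hu0, hg3]
      have hqe : eval₂ ρ e q = 0 := by
        rw [← eval_map, hq, eval_map, eval₂_mul, hg1, mul_zero]
      have hqe' : eval₂ ρ' e' q = 0 := by
        have h1 := hE _ (eval_pair_mem E ρ ρ' hρ he q)
        exact rvl_ne h1 hqe
      obtain ⟨x, hx, hx0⟩ := root_lift (Oc := Oc) (hqm.map ρN) (e := e) (by
        rw [eval₂_map]
        exact hqe)
      obtain ⟨y, hy, hy0⟩ := root_lift (Oc := Oc) (hqm.map ρN') (e := e') (by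
        rw [eval₂_map]
        exact hqe')
      rw [eval₂_map] at hx0 hy0
      have hx1 : eval₂ (F.subtype.comp A.subtype) (x : N) q = 0 := hx0
      have hy1 : eval₂ (τ.comp A.subtype) (y : N) q = 0 := hy0
      refine ⟨x, y, hx, hy, fun G => ?_⟩
      set Q : F[X] := q.map A.subtype with hQ
      have hQm : Q.Monic := hqm.map _
      have hQx : eval₂ F.subtype (x : N) Q = 0 := by rw [hQ, eval₂_map]; exact hx1
      have hQy : eval₂ τ (y : N) Q = 0 := by rw [hQ, eval₂_map]; exact hy1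
      have hQn : Q.natDegree = n := by rw [hQ, hqm.natDegree_map, hqn]
      have hQ1 : Q ≠ 1 := by
        intro h0
        rw [h0, eval₂_one] at hQx
        exact one_ne_zero hQx
      have e1 : eval₂ F.subtype (x : N) G = eval₂ F.subtype (x : N) (G %ₘ Q) := by
        conv_lhs => rw [← modByMonic_add_div G Q]
        rw [eval₂_add, eval₂_mul, hQx, zero_mul, add_zero]
      have e2 : eval₂ τ (y : N) G = eval₂ τ (y : N) (G %ₘ Q) := by
        conv_lhs => rw [← modByMonic_add_div G Q]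
        rw [eval₂_add, eval₂_mul, hQy, zero_mul, add_zero]
      rw [e1, e2]
      by_cases hG : G %ₘ Q = 0
      · left
        rw [hG, eval₂_zero, eval₂_zero]
        exact ⟨rfl, rfl⟩
      · obtain ⟨b, H, hb0, hH, hGH, hdeg⟩ := norm _ hG
        right
        refine ⟨b, H, hb0, fun h0 => ?_, ?_⟩
        · have h1 := hmin H h0 hH
          have h2 := natDegree_modByMonic_lt G hQm hQ1
          have h3 : (H.map ρ).natDegree ≤ H.natDegree := natDegree_map_le
          omega
        · rw [hGH]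
          exact conv _ _ _ _
  -- the elements of the new ring
  have star : ∀ p ∈ adj τ ((x : N), (y : N)), p = 0 ∨ ∃ (b b' : N) (w w' : Oc), (b, b') ∈ D ∧
      b ≠ 0 ∧ (residue Oc w, residue Oc w') ∈ E ∧ residue Oc w ≠ 0 ∧
      p = (b * w, b' * w') := by
    intro p hp
    obtain ⟨G, hG1, hG2⟩ := mem_adj.1 hp
    rcases hxy G with ⟨h1, h2⟩ | ⟨b, H, hb0, hH, h1, h2⟩
    · left
      exact Prod.ext (by rw [← hG1]; exact h1) (by rw [← hG2]; exact h2)
    · right
      have r1 : residue Oc (eval₂ ρN x H) = eval₂ ρ e H := by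
        rw [← hx]
        exact hom_eval₂ H ρN (residue Oc) x
      have r2 : residue Oc (eval₂ ρN' y H) = eval₂ ρ' e' H := by
        rw [← hy]
        exact hom_eval₂ H ρN' (residue Oc) y
      have s1 : ((eval₂ ρN x H : Oc) : N) = eval₂ (F.subtype.comp A.subtype) (x : N) H :=
        hom_eval₂ H ρN Oc.subtype x
      have s2 : ((eval₂ ρN' y H : Oc) : N) = eval₂ (τ.comp A.subtype) (y : N) H :=
        hom_eval₂ H ρN' Oc.subtype y
      refine ⟨b, τ b, eval₂ ρN x H, eval₂ ρN' y H, hτ b, fun h0 => hb0 (Subtype.ext h0), ?_, ?_,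
        ?_⟩
      · rw [r1, r2]
        exact eval_pair_mem E ρ ρ' hρ he H
      · rw [r1]
        exact hH
      · exact Prod.ext (by rw [← hG1]; exact h1.trans (by rw [← s1]))
          (by rw [← hG2]; exact h2.trans (by rw [← s2]))
  obtain ⟨hne, hr, hc⟩ := frac_of_star h hl hl1 hE hEi hD hi hC star
  refine ⟨frac (adj τ ((x : N), (y : N))) hne, ?_, hr, invC_frac _ _, hc, x, y,
    le_frac _ _ (self_mem_adj _), hx, hy⟩
  intro p hp
  obtain ⟨h1, h2⟩ := hτ' p hp
  refine le_frac _ _ ?_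
  have := graph_mem_adj (τ := τ) ((x : N), (y : N)) ⟨p.1, h1⟩
  rw [h2] at this
  exact this

end step

end Pool.Agent.R611.CX
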