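import Pool.Agent.R611.CX.S2

/-!
# Lifting rigid maps from the residue field, II
-/

set_option autoImplicit false

namespace Pool.Agent.R611.CX

open Polynomial Pool.Agent.R611.HM IsLocalRing

universe u

theorem exists_countable_subring {R : Type u} [CommRing R] {S : Set R} (hS : S.Countable)
    {D : Subring R} (hSD : S ⊆ D) :
    ∃ D' : Subring R, S ⊆ D' ∧ D' ≤ D ∧ (D' : Set R).Countable := by
  refine ⟨(Algebra.adjoin ℤ S).toSubring, Algebra.subset_adjoin, ?_, ?_⟩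
  · have h1 : Algebra.adjoin ℤ S ≤ subalgebraOfSubring D := Algebra.adjoin_le hSD
    exact fun x hx => h1 hx
  · have h1 := Algebra.lift_cardinalMk_adjoin_le ℤ S
    have h2 : Cardinal.mk S ≤ Cardinal.aleph0 := Cardinal.mk_le_aleph0_iff.2 hS.to_subtype
    have h3 : Cardinal.mk (Algebra.adjoin ℤ S) ≤ Cardinal.aleph0 := by
      rw [← Cardinal.lift_le_aleph0]
      refine h1.trans ?_
      simp [h2]
    exact Cardinal.le_aleph0_iff_set_countable.1 h3

variable {N : Type u} [Field N] {O Oc : ValuationSubring N}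

theorem lift_all [IsAlgClosed N] (h : O ≤ Oc) {l : Oc} (hl : residue Oc l ≠ 0)
    (hl1 : O.valuation (l : N) ≤ 1)
    {E : Subring (ResidueField Oc × ResidueField Oc)}
    (hE : Rig (resRing O Oc h).valuation (residue Oc l) E) (hEi : InvC E)
    {T : Set (ResidueField Oc × ResidueField Oc)} (hTE : T ⊆ E) (hTc : T.Countable)
    {D₀ : Subring (N × N)} (hD : Rig O.valuation (l : N) D₀) (hi : InvC D₀)
    (hC : Cmp E D₀) (hc : (D₀ : Set (N × N)).Countable) :
    ∃ D : Subring (N × N), D₀ ≤ D ∧ Rig O.valuation (l : N) D ∧ (D : Set (N × N)).Countable ∧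
      ∀ p ∈ T, ∃ x y : Oc, ((x : N), (y : N)) ∈ D ∧ residue Oc x = p.1 ∧ residue Oc y = p.2 := by
  obtain ⟨M, hM, hmax⟩ := zorn_le_nonempty₀ {D : Subring (N × N) | Rig O.valuation (l : N) D ∧
      InvC D ∧ Cmp E D} (by
    intro c hcs hch y hy
    have hmem : ∀ p, p ∈ sSup c ↔ ∃ D ∈ c, p ∈ D := fun p =>
      Subring.mem_sSup_of_directedOn ⟨y, hy⟩ hch.directedOn
    refine ⟨sSup c, ⟨?_, ?_, ?_⟩, fun z hz => le_sSup hz⟩
    · intro p hp
      obtain ⟨D, hD, hpD⟩ := (hmem p).1 hp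
      exact (hcs hD).1 p hpD
    · intro p hp hp0
      obtain ⟨D, hD, hpD⟩ := (hmem p).1 hp
      exact (hmem _).2 ⟨D, hD, (hcs hD).2.1 p hpD hp0⟩
    · intro a b hab ha
      obtain ⟨D, hD, hpD⟩ := (hmem _).1 hab
      exact (hcs hD).2.2 a b hpD ha) D₀ ⟨hD, hi, hC⟩
  obtain ⟨hMr, hMi, hMC⟩ := hmax.prop
  have key : ∀ p ∈ E, ∃ x y : Oc, ((x : N), (y : N)) ∈ M ∧ residue Oc x = p.1 ∧
      residue Oc y = p.2 := by
    intro p hp
    obtain ⟨D', h1, h2, h3, h4, x, y, h5, h6, h7⟩ := lift_step h hl hl1 hE hEi hMr hMi hMC hp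
    exact ⟨x, y, hmax.2 ⟨h2, h3, h4⟩ h1 h5, h6, h7⟩
  choose! f g hfg using key
  let S : Set (N × N) := (D₀ : Set (N × N)) ∪ (fun p => ((f p : N), (g p : N))) '' T
  obtain ⟨D, hSD, hDM, hDc⟩ := exists_countable_subring (S := S) (D := M)
    (hc.union (hTc.image _)) (by
      rintro p (hp | ⟨q, hq, rfl⟩)
      · exact hM hp
      · exact (hfg q (hTE hq)).1)
  refine ⟨D, fun p hp => hSD (Or.inl hp), fun p hp => hMr p (hDM hp), hDc, fun p hp =>
    ⟨f p, g p, hSD (Or.inr ⟨p, hp, rfl⟩), (hfg p (hTE hp)).2⟩⟩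

end Pool.Agent.R611.CX
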