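import Pool.Agent.R611.CX.S3
import Pool.Agent.R611.HM.Def3

/-!
# Translation of formulas on the residue field
-/

set_option autoImplicit false

namespace Pool.Agent.R611.CX

open FirstOrder Language Structure Polynomial Pool.Agent.R611.HM IsLocalRing

universe u

theorem exists_split {L₁ L₂ : FirstOrder.Language.{u, u}} {N : Type u}
    (iN : (L₁.sum L₂).Structure N) : ∃ (i₁ : L₁.Structure N) (i₂ : L₂.Structure N),
      iN = @Language.sumStructure L₁ L₂ N i₁ i₂ := by
  refine ⟨(LHom.sumInl : L₁ →ᴸ L₁.sum L₂).reduct N, (LHom.sumInr : L₂ →ᴸ L₁.sum L₂).reduct N, ?_⟩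
  refine Structure.ext ?_ ?_
  · funext n f x
    rcases f with f | f <;> rfl
  · funext n f x
    rcases f with f | f <;> rfl

section

variable {K : Type} [LC.Structure K] [Field K] {O Oc : ValuationSubring K} {B : Set K}

/-- the names of the definable sets of the residue field -/
abbrev Pr (Oc : ValuationSubring K) (B : Set K) (n : ℕ) : Type :=
  {R : Set (Fin n → ResidueField Oc) // B.Definable LC (pull Oc R)}

/-- the language of the pulled back sets -/
abbrev LP (Oc : ValuationSubring K) (B : Set K) : FirstOrder.Language.{0, 0} :=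
  PredLang (Pr Oc B)

/-- the name of a definable set as a symbol -/
def sR {Oc : ValuationSubring K} {B : Set K} {n : ℕ} (r : Pr Oc B n) :
    (LP Oc B).Relations n := r

/-- the pulled back sets on `K` -/
@[reducible]
def lpK (Oc : ValuationSubring K) (B : Set K) : (LP Oc B).Structure K where
  funMap := fun f => PEmpty.elim f
  RelMap := fun {_} R x => x ∈ pull Oc R.1

omit [LC.Structure K] in
theorem pull_eq_iff {x : Fin 2 → K} :
    x ∈ pull Oc {w : Fin 2 → ResidueField Oc | w 0 = w 1} ↔
    x 0 ∈ Oc ∧ x 1 ∈ Oc ∧ Oc.valuation (x 0 - x 1) < 1 := by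
  constructor
  · rintro ⟨y, hy, hyE⟩
    have h1 : residue Oc (y 0) = residue Oc (y 1) := hyE
    refine ⟨by rw [← hy]; exact (y 0).2, by rw [← hy]; exact (y 1).2, ?_⟩
    rw [← hy, ← hy]
    have h2 : residue Oc (y 0 - y 1) = 0 := by rw [map_sub, h1, sub_self]
    exact (val_zero_iff _).1 h2
  · rintro ⟨h0, h1, h2⟩
    refine ⟨![⟨x 0, h0⟩, ⟨x 1, h1⟩], fun i => by fin_cases i <;> rfl, ?_⟩
    change residue Oc ⟨x 0, h0⟩ = residue Oc ⟨x 1, h1⟩
    rw [← sub_eq_zero, ← map_sub]
    exact (val_zero_iff _).2 h2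

theorem df_mem_Oc (h : Good K O Oc) {α : Type} [Finite α] {f : (α → K) → K}
    (hf : DfF LC f) : Df LC (fun w => f w ∈ Oc) :=
  (df_rel1' syc.ring hf).congr fun _ => h.isvc.ring _

/-- the name of the diagonal -/
def eqR (h : Good K O Oc) : Pr Oc B 2 := ⟨{w | w 0 = w 1}, by
  have hV := h.isvc.vf
  have h1 : Df LC (fun x : Fin 2 → K => x 0 ∈ Oc ∧ x 1 ∈ Oc ∧
      Oc.valuation (x 0 - x 1) < Oc.valuation 1) :=
    (df_mem_Oc h (DfF.var 0)).and ((df_mem_Oc h (DfF.var 1)).and
      (hV.vlt (hV.fsub (DfF.var 0) (DfF.var 1)) (fone hV)))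
  have h2 : (∅ : Set K).Definable LC
      (pull Oc {w : Fin 2 → ResidueField Oc | w 0 = w 1}) := by
    have e : pull Oc {w : Fin 2 → ResidueField Oc | w 0 = w 1} = {x : Fin 2 → K |
        x 0 ∈ Oc ∧ x 1 ∈ Oc ∧ Oc.valuation (x 0 - x 1) < Oc.valuation 1} := by
      ext x
      rw [pull_eq_iff, map_one]
      rfl
    rw [e]
    exact h1
  exact h2.mono (Set.empty_subset B)⟩

/-- the structures in which the translation is correct -/
structure Cls (h : Good K O Oc) (B : Set K) (N : Type) [LC.Structure N] [(LP Oc B).Structure N]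
    [Field N] (O' Oc' : ValuationSubring N) : Prop where
  good : Good N O' Oc'
  relE : ∀ x y : N, RelMap (sR (eqR h : Pr Oc B 2)) ![x, y] ↔
    x ∈ Oc' ∧ y ∈ Oc' ∧ Oc'.valuation (x - y) < 1
  inv : ∀ (n : ℕ) (R : (LP Oc B).Relations n) (x y : Fin n → N),
    (∀ i, x i ∈ Oc' ∧ y i ∈ Oc' ∧ Oc'.valuation (x i - y i) < 1) → RelMap R x → RelMap R y

/-- the interpretation of the names on the residue field of `N` -/
def relI (Oc : ValuationSubring K) (B : Set K) {N : Type} [(LP Oc B).Structure N] [Field N]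
    (Oc' : ValuationSubring N) (n : ℕ) (R : Set (Fin n → ResidueField Oc))
    (hR : B.Definable LC (pull Oc R)) : Set (Fin n → ResidueField Oc') :=
  {x | ∃ y : Fin n → Oc', (∀ i, residue Oc' (y i) = x i) ∧
    RelMap (sR (⟨R, hR⟩ : Pr Oc B n)) (fun i => (y i : N))}

/-- the residue field of `N` as a structure -/
@[reducible]
noncomputable def indN {h : Good K O Oc} {N : Type} [LC.Structure N] [(LP Oc B).Structure N]
    [Field N] {O' Oc' : ValuationSubring N} (hC : Cls h B N O' Oc') :
    (IndLang LC Oc B).Structure (ResidueField Oc') :=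
  indStr LC Oc B O' Oc' hC.good.le (relI Oc B Oc')

theorem relI_iff {h : Good K O Oc} {N : Type} [LC.Structure N] [(LP Oc B).Structure N]
    [Field N] {O' Oc' : ValuationSubring N} (hC : Cls h B N O' Oc') {n : ℕ}
    {R : Set (Fin n → ResidueField Oc)} {hR : B.Definable LC (pull Oc R)}
    (y : Fin n → Oc') : (fun i => residue Oc' (y i)) ∈ relI Oc B Oc' n R hR ↔
      RelMap (sR (⟨R, hR⟩ : Pr Oc B n)) (fun i => (y i : N)) := by
  constructor
  · rintro ⟨z, hz, hzR⟩
    refine hC.inv n _ _ _ (fun i => ⟨(z i).2, (y i).2, ?_⟩) hzR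
    have h1 : residue Oc' (z i - y i) = 0 := by rw [map_sub, hz i, sub_self]
    exact (val_zero_iff _).1 h1
  · intro hy
    exact ⟨y, fun _ => rfl, hy⟩

/-- translation of terms -/
theorem tr_term (h : Good K O Oc) {α : Type} (u : (IndLang LC Oc B).Term α) :
    ∃ u' : (LC.sum (LP Oc B)).Term α, ∀ (N : Type) [LC.Structure N] [(LP Oc B).Structure N]
      [Field N] (O' Oc' : ValuationSubring N) (hC : Cls h B N O' Oc') (w : α → Oc'),
      ∃ z : Oc', (z : N) = u'.realize (fun i => (w i : N)) ∧
        residue Oc' z = (letI := indN hC; u.realize (fun i => residue Oc' (w i))) := by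
  induction u with
  | var i => exact ⟨Term.var i, fun N _ _ _ O' Oc' hC w => ⟨w i, rfl, rfl⟩⟩
  | func f ts ih =>
    choose ts' hts' using ih
    cases f with
    | add =>
      refine ⟨Term.func (Sum.inl syO.add : (LC.sum (LP Oc B)).Functions 2) ts',
        fun N _ _ _ O' Oc' hC w => ?_⟩
      choose z hz1 hz2 using fun i => hts' i N O' Oc' hC w
      refine ⟨z 0 + z 1, ?_, ?_⟩
      · change _ = (funMap syO.add (fun i => (ts' i).realize (fun i => (w i : N))) : N)
        rw [fun2_eq, hC.good.isv.add, ← hz1, ← hz1]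
        rfl
      · rw [map_add, hz2, hz2]
        rfl
    | mul =>
      refine ⟨Term.func (Sum.inl syO.mul : (LC.sum (LP Oc B)).Functions 2) ts',
        fun N _ _ _ O' Oc' hC w => ?_⟩
      choose z hz1 hz2 using fun i => hts' i N O' Oc' hC w
      refine ⟨z 0 * z 1, ?_, ?_⟩
      · change _ = (funMap syO.mul (fun i => (ts' i).realize (fun i => (w i : N))) : N)
        rw [fun2_eq, hC.good.isv.mul, ← hz1, ← hz1]
        rfl
      · rw [map_mul, hz2, hz2]
        rfl

/-- translation of formulas -/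
theorem tr_formula (h : Good K O Oc) {α : Type} {n : ℕ}
    (ψ : (IndLang LC Oc B).BoundedFormula α n) :
    ∃ χ : (LC.sum (LP Oc B)).BoundedFormula α n, ∀ (N : Type) [LC.Structure N]
      [(LP Oc B).Structure N] [Field N] (O' Oc' : ValuationSubring N) (hC : Cls h B N O' Oc')
      (s : α → Oc') (t : Fin n → Oc'),
      χ.Realize (fun i => (s i : N)) (fun i => (t i : N)) ↔
        (letI := indN hC; ψ.Realize (fun i => residue Oc' (s i)) (fun i => residue Oc' (t i))) := by
  induction ψ with
  | falsum => exact ⟨⊥, fun N _ _ _ O' Oc' hC s t => Iff.rfl⟩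
  | @equal n t₁ t₂ =>
    obtain ⟨u₁, hu₁⟩ := tr_term h t₁
    obtain ⟨u₂, hu₂⟩ := tr_term h t₂
    refine ⟨BoundedFormula.rel (Sum.inr (sR (eqR h)) : (LC.sum (LP Oc B)).Relations 2) ![u₁, u₂],
      fun N _ _ _ O' Oc' hC s t => ?_⟩
    obtain ⟨z₁, h1, h2⟩ := hu₁ N O' Oc' hC (Sum.elim s t)
    obtain ⟨z₂, h3, h4⟩ := hu₂ N O' Oc' hC (Sum.elim s t)
    have e1 : (fun i => ((Sum.elim s t i : Oc') : N)) =
        Sum.elim (fun i => (s i : N)) (fun i => (t i : N)) := by
      funext i; rcases i with i | i <;> rfl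
    have e2 : (fun i => residue Oc' (Sum.elim s t i)) =
        Sum.elim (fun i => residue Oc' (s i)) (fun i => residue Oc' (t i)) := by
      funext i; rcases i with i | i <;> rfl
    rw [e1] at h1 h3
    rw [e2] at h2 h4
    have h5 : (BoundedFormula.rel (Sum.inr (sR (eqR h)) : (LC.sum (LP Oc B)).Relations 2)
        ![u₁, u₂]).Realize (fun i => (s i : N)) (fun i => (t i : N)) ↔
        RelMap (sR (eqR h : Pr Oc B 2)) ![(z₁ : N), (z₂ : N)] := by
      rw [h1, h3]
      change RelMap (sR (eqR h : Pr Oc B 2)) _ ↔ _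
      apply iff_of_eq
      congr 1
      funext i
      fin_cases i <;> rfl
    rw [h5, hC.relE]
    have h6 : (z₁ : N) ∈ Oc' ∧ (z₂ : N) ∈ Oc' ∧ Oc'.valuation ((z₁ : N) - z₂) < 1 ↔
        residue Oc' z₁ = residue Oc' z₂ := by
      rw [← sub_eq_zero, ← map_sub, val_zero_iff]
      exact ⟨fun h => h.2.2, fun h => ⟨z₁.2, z₂.2, h⟩⟩
    rw [h6, h2, h4]
    rfl
  | @rel n m R ts =>
    choose us hus using fun i => tr_term h (ts i)
    have aux : ∀ (N : Type) [LC.Structure N]
      [(LP Oc B).Structure N] [Field N] (O' Oc' : ValuationSubring N) (hC : Cls h B N O' Oc')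
      (s : α → Oc') (t : Fin n → Oc'), ∃ z : Fin m → Oc', (∀ i, (z i : N) =
        (us i).realize (Sum.elim (fun i => (s i : N)) (fun i => (t i : N)))) ∧
        ∀ i, residue Oc' (z i) = (letI := indN hC; (ts i).realize
          (Sum.elim (fun i => residue Oc' (s i)) (fun i => residue Oc' (t i)))) := by
      intro N _ _ _ O' Oc' hC s t
      have e1 : (fun i => ((Sum.elim s t i : Oc') : N)) =
          Sum.elim (fun i => (s i : N)) (fun i => (t i : N)) := by
        funext i; rcases i with i | i <;> rfl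
      have e2 : (fun i => residue Oc' (Sum.elim s t i)) =
          Sum.elim (fun i => residue Oc' (s i)) (fun i => residue Oc' (t i)) := by
        funext i; rcases i with i | i <;> rfl
      choose z hz1 hz2 using fun i => hus i N O' Oc' hC (Sum.elim s t)
      rw [e1] at hz1
      rw [e2] at hz2
      exact ⟨z, hz1, hz2⟩
    cases R with
    | ring =>
      refine ⟨BoundedFormula.rel (Sum.inl syO.ring : (LC.sum (LP Oc B)).Relations 1) us,
        fun N _ _ _ O' Oc' hC s t => ?_⟩
      obtain ⟨z, hz1, hz2⟩ := aux N O' Oc' hC s t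
      change RelMap syO.ring (fun i => (us i).realize _) ↔
        (letI := indN hC; (ts 0).realize
          (Sum.elim (fun i => residue Oc' (s i)) (fun i => residue Oc' (t i)))) ∈
            resRing O' Oc' hC.good.le
      rw [rel1_iff, hC.good.isv.ring, ← hz1, ← hz2, mem_resRing]
    | set R hR =>
      refine ⟨BoundedFormula.rel (Sum.inr (sR ⟨R, hR⟩) : (LC.sum (LP Oc B)).Relations m) us,
        fun N _ _ _ O' Oc' hC s t => ?_⟩
      obtain ⟨z, hz1, hz2⟩ := aux N O' Oc' hC s t
      change RelMap (sR (⟨R, hR⟩ : Pr Oc B m)) (fun i => (us i).realize _) ↔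
        (fun i => (letI := indN hC; (ts i).realize
          (Sum.elim (fun i => residue Oc' (s i)) (fun i => residue Oc' (t i))))) ∈
            relI Oc B Oc' m R hR
      have e3 : (fun i => (letI := indN hC; (ts i).realize
          (Sum.elim (fun i => residue Oc' (s i)) (fun i => residue Oc' (t i))))) =
          fun i => residue Oc' (z i) := funext fun i => (hz2 i).symm
      have e4 : (fun i => (us i).realize (Sum.elim (fun i => (s i : N)) (fun i => (t i : N)))) =
          fun i => (z i : N) := funext fun i => (hz1 i).symm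
      rw [e3, relI_iff hC, e4]
  | imp f₁ f₂ ih₁ ih₂ =>
    obtain ⟨g₁, hg₁⟩ := ih₁
    obtain ⟨g₂, hg₂⟩ := ih₂
    refine ⟨g₁.imp g₂, fun N _ _ _ O' Oc' hC s t => ?_⟩
    let _ := indN hC
    rw [BoundedFormula.realize_imp, BoundedFormula.realize_imp, hg₁ N O' Oc' hC s t,
      hg₂ N O' Oc' hC s t]
  | @all n f ih =>
    obtain ⟨g, hg⟩ := ih
    refine ⟨(BoundedFormula.imp (BoundedFormula.rel
      (Sum.inl syc.ring : (LC.sum (LP Oc B)).Relations 1) ![Term.var (Sum.inr (Fin.last n))])
      g).all, fun N _ _ _ O' Oc' hC s t => ?_⟩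
    let _ := indN hC
    rw [BoundedFormula.realize_all, BoundedFormula.realize_all]
    have e1 : ∀ (x : Oc'), (fun i => ((Fin.snoc t x : Fin (n + 1) → Oc') i : N)) =
        (Fin.snoc (fun i => (t i : N)) (x : N) : Fin (n + 1) → N) := by
      intro x
      funext i
      refine Fin.lastCases ?_ (fun j => ?_) i
      · simp [Fin.snoc_last]
      · simp [Fin.snoc_castSucc]
    have e2 : ∀ (x : Oc'), (fun i => residue Oc' ((Fin.snoc t x : Fin (n + 1) → Oc') i)) =
        (Fin.snoc (fun i => residue Oc' (t i)) (residue Oc' x) :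
          Fin (n + 1) → ResidueField Oc') := by
      intro x
      funext i
      refine Fin.lastCases ?_ (fun j => ?_) i
      · simp [Fin.snoc_last]
      · simp [Fin.snoc_castSucc]
    have hrel : ∀ x : N, (BoundedFormula.rel (Sum.inl syc.ring : (LC.sum (LP Oc B)).Relations 1)
        ![Term.var (Sum.inr (Fin.last n))] : (LC.sum (LP Oc B)).BoundedFormula α (n + 1)).Realize
          (fun i => (s i : N)) (Fin.snoc (fun i => (t i : N)) x) ↔ x ∈ Oc' := by
      intro x
      change RelMap syc.ring _ ↔ _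
      rw [rel1_iff, hC.good.isvc.ring]
      have : (Fin.snoc (fun i => (t i : N)) x : Fin (n + 1) → N) (Fin.last n) = x :=
        Fin.snoc_last _ _
      change (Fin.snoc (fun i => (t i : N)) x : Fin (n + 1) → N) (Fin.last n) ∈ Oc' ↔ _
      rw [this]
    constructor
    · intro h1 x
      obtain ⟨y, rfl⟩ := residue_surjective x
      have h2 := h1 (y : N)
      rw [BoundedFormula.realize_imp, hrel] at h2
      have h3 := h2 y.2
      rw [← e1, hg N O' Oc' hC s (Fin.snoc t y : Fin (n + 1) → Oc')] at h3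
      rw [e2] at h3
      exact h3
    · intro h1 x
      rw [BoundedFormula.realize_imp, hrel]
      intro hx
      have h2 := h1 (residue Oc' ⟨x, hx⟩)
      rw [← e2] at h2
      have h3 := (hg N O' Oc' hC s (Fin.snoc t ⟨x, hx⟩ : Fin (n + 1) → Oc')).2 h2
      rw [e1] at h3
      exact h3

end

end Pool.Agent.R611.CX
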