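import Pool.Agent.R611.CX.S4

/-!
# Transfer of the class to elementary extensions
-/

set_option autoImplicit false

namespace Pool.Agent.R611.CX

open FirstOrder Language Structure Polynomial Pool.Agent.R611.HM IsLocalRing

universe u

/-- the restriction of an elementary embedding to the smaller language -/
def lemb {L L₂ : FirstOrder.Language.{u, u}} {K N : Type u} [L.Structure K] [L₂.Structure K]
    [L.Structure N] [L₂.Structure N] (j : K ↪ₑ[L.sum L₂] N) : K ↪ₑ[L] N :=
  ⟨j, fun n φ x => by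
    have h1 := j.map_formula ((LHom.sumInl : L →ᴸ L.sum L₂).onFormula φ) x
    rw [LHom.realize_onFormula, LHom.realize_onFormula] at h1
    exact h1⟩

theorem df_sum {L L₂ : FirstOrder.Language.{u, u}} {N : Type u} [L.Structure N]
    [L₂.Structure N] {α : Type} {P : (α → N) → Prop} (h : Df L P) : Df (L.sum L₂) P :=
  df_reduct (LHom.sumInl : L →ᴸ L.sum L₂) h

theorem df_relr {L L₂ : FirstOrder.Language.{u, u}} {N : Type u} [L.Structure N]
    [L₂.Structure N] {n : ℕ} (R : L₂.Relations n) {α : Type} (f : Fin n → α) :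
    Df (L.sum L₂) (fun w : α → N => RelMap R (fun i => w (f i))) := by
  have h1 : Df (L.sum L₂) (fun w : Fin n → N => RelMap R w) :=
    df_rel (L := L.sum L₂) (N := N) (Sum.inr R)
  exact h1.relabel f

theorem jrelr {L L₂ : FirstOrder.Language.{u, u}} {K N : Type u} [L.Structure K]
    [L₂.Structure K] [L.Structure N] [L₂.Structure N] (j : K ↪ₑ[L.sum L₂] N) {n : ℕ}
    (R : L₂.Relations n) (x : Fin n → K) : RelMap R (fun i => j (x i)) ↔ RelMap R x :=
  j.map_rel (Sum.inr R : (L.sum L₂).Relations n) x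

section

variable {K : Type} [LC.Structure K] [Field K] {O Oc : ValuationSubring K}

/-- close tuples of elements of `Oc` -/
def Clo {N : Type} [Field N] (Oc : ValuationSubring N) (x y : N) : Prop :=
  x ∈ Oc ∧ y ∈ Oc ∧ Oc.valuation (x - y) < 1

theorem df_clo {L : FirstOrder.Language.{0, 0}} {N : Type} [L.Structure N] [Field N]
    {Oc : ValuationSubring N} {sy : ValSymbols L} (h : IsValued sy Oc) {α : Type} [Finite α]
    {f g : (α → N) → N} (hf : DfF L f) (hg : DfF L g) : Df L (fun w => Clo Oc (f w) (g w)) := by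
  have hV := h.vf
  have h1 := (((df_rel1' sy.ring hf).congr fun _ => h.ring _)).and
    ((((df_rel1' sy.ring hg).congr fun _ => h.ring _)).and
      (hV.vlt (hV.fsub hf hg) (fone hV)))
  refine h1.congr fun w => ?_
  rw [map_one]
  rfl

theorem clsK (h : Good K O Oc) (B : Set K) :
    letI := lpK Oc B
    Cls h B K O Oc := by
  letI := lpK Oc B
  refine ⟨h, ?_, ?_⟩
  · intro x y
    change ![x, y] ∈ pull Oc {w : Fin 2 → ResidueField Oc | w 0 = w 1} ↔ _
    rw [pull_eq_iff]
    rfl
  · rintro n ⟨R, hR⟩ x y hxy ⟨z, hz, hzR⟩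
    refine ⟨fun i => ⟨y i, (hxy i).2.1⟩, fun i => rfl, ?_⟩
    have e : (fun i => residue Oc (⟨y i, (hxy i).2.1⟩ : Oc)) = fun i => residue Oc (z i) := by
      funext i
      rw [eq_comm, ← sub_eq_zero, ← map_sub, val_zero_iff]
      have h1 := (hxy i).2.2
      rw [← hz i] at h1
      exact h1
    rw [e]
    exact hzR

theorem relI_K (Oc : ValuationSubring K) (B : Set K) :
    letI := lpK Oc B
    (relI Oc B Oc) = fun _ R _ => R := by
  letI := lpK Oc B
  funext n R hR
  ext x
  constructor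
  · rintro ⟨y, hy, z, hz, hzR⟩
    have e : z = y := funext fun i => Subtype.ext (hz i)
    have e2 : x = fun i => residue Oc (z i) := by
      funext i
      rw [e, hy i]
    rw [e2]
    exact hzR
  · intro hx
    choose y hy using fun i => residue_surjective (x i)
    refine ⟨y, hy, y, fun i => rfl, ?_⟩
    have e2 : (fun i => residue Oc (y i)) = x := funext hy
    change (fun i => residue Oc (y i)) ∈ R
    rw [e2]
    exact hx

/-- transfer of the class to elementary extensions -/
theorem cls_transfer (h : Good K O Oc) (B : Set K) {N : Type} [LC.Structure N]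
    [(LP Oc B).Structure N] (j : letI := lpK Oc B; K ↪ₑ[LC.sum (LP Oc B)] N) :
    ∃ (_ : Field N) (O' Oc' : ValuationSubring N), Cls h B N O' Oc' := by
  let iK := lpK Oc B
  obtain ⟨iF, O', Oc', hG⟩ := h.transfer (lemb j)
  have hclo : ∀ x y : K, Clo Oc' (j x) (j y) ↔ Clo Oc x y := by
    intro x y
    have e1 : ∀ x : K, j x ∈ Oc' ↔ x ∈ Oc := j_mem (lemb j) h.isvc hG.isvc
    have e2 : j (1 : K) = 1 := (jr (lemb j) h.isvc hG.isvc).map_one
    have e3 : j (x - y) = j x - j y := j_sub (lemb j) h.isvc hG.isvc x y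
    have e4 : Oc'.valuation (j 1) ≤ Oc'.valuation (j (x - y)) ↔
        Oc.valuation 1 ≤ Oc.valuation (x - y) := j_le (lemb j) h.isvc hG.isvc 1 (x - y)
    unfold Clo
    rw [e1, e1, ← e3, ← not_le, ← not_le, ← map_one Oc.valuation, ← e4, e2, map_one]
  have hK := clsK h B
  refine ⟨iF, O', Oc', hG, ?_, ?_⟩
  · intro x y
    have hP : Df (LC.sum (LP Oc B)) (fun w : Empty ⊕ Fin 2 → N =>
        RelMap (sR (eqR h : Pr Oc B 2)) ![w (Sum.inr 0), w (Sum.inr 1)] ↔
          Clo Oc' (w (Sum.inr 0)) (w (Sum.inr 1))) := by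
      refine Df.iff ?_ (df_sum (df_clo hG.isvc (DfF.var _) (DfF.var _)))
      refine (df_relr (sR (eqR h : Pr Oc B 2)) (fun i : Fin 2 => (Sum.inr i :
        Empty ⊕ Fin 2))).congr fun w => ?_
      apply iff_of_eq
      congr 1
      funext i
      fin_cases i <;> rfl
    exact all_transfer j hP Empty.elim (fun y => by
      change RelMap (sR (eqR h : Pr Oc B 2)) ![j (y 0), j (y 1)] ↔ Clo Oc' (j (y 0)) (j (y 1))
      rw [hclo]
      have h2 := jrelr j (sR (eqR h : Pr Oc B 2)) ![y 0, y 1]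
      have e : (fun i => j ((![y 0, y 1] : Fin 2 → K) i)) = ![j (y 0), j (y 1)] := by
        funext i
        fin_cases i <;> rfl
      rw [e] at h2
      rw [h2]
      exact hK.relE _ _) ![x, y]
  · intro n R x y hxy hx
    have hP : Df (LC.sum (LP Oc B)) (fun w : Empty ⊕ (Fin n ⊕ Fin n) → N =>
        (∀ i, Clo Oc' (w (Sum.inr (Sum.inl i))) (w (Sum.inr (Sum.inr i)))) →
          RelMap R (fun i => w (Sum.inr (Sum.inl i))) →
          RelMap R (fun i => w (Sum.inr (Sum.inr i)))) := by
      refine Df.imp (Df.all_fin fun i => df_sum (df_clo hG.isvc (DfF.var _) (DfF.var _)))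
        (Df.imp ?_ ?_)
      · exact df_relr R (fun i : Fin n => (Sum.inr (Sum.inl i) : Empty ⊕ (Fin n ⊕ Fin n)))
      · exact df_relr R (fun i : Fin n => (Sum.inr (Sum.inr i) : Empty ⊕ (Fin n ⊕ Fin n)))
    exact all_transfer j hP Empty.elim (fun z => by
      intro h1 h2
      have h3 : ∀ i, Clo Oc (z (Sum.inl i)) (z (Sum.inr i)) := fun i => (hclo _ _).1 (h1 i)
      have h4 := (jrelr j R (fun i => z (Sum.inl i))).1 h2
      exact (jrelr j R (fun i => z (Sum.inr i))).2 (hK.inv n R _ _ h3 h4)) (Sum.elim x y) hxy hx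

/-- the symbols of `LP` are definable with parameters from the image of `B` -/
theorem name_def (B : Set K) {N : Type} [LC.Structure N]
    [(LP Oc B).Structure N] (j : letI := lpK Oc B; K ↪ₑ[LC.sum (LP Oc B)] N) {n : ℕ}
    (R : Pr Oc B n) : ∃ (m : ℕ) (b : Fin m → K) (φ : LC.Formula (Fin m ⊕ Fin n)),
      (∀ i, b i ∈ B) ∧ ∀ x : Fin n → N, RelMap (sR R) x ↔
        φ.Realize (Sum.elim (fun i => (j (b i) : N)) x) := by
  let iK := lpK Oc B
  obtain ⟨m, b, φ, hb, hφ⟩ := df_of_definable R.2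
  refine ⟨m, b, φ, hb, fun x => ?_⟩
  have hP : Df (LC.sum (LP Oc B)) (fun w : Fin m ⊕ Fin n → N =>
      RelMap (sR R) (fun i => w (Sum.inr i)) ↔ φ.Realize w) := by
    refine Df.iff (df_relr (sR R) Sum.inr) (df_sum ?_)
    exact df_iff.2 ⟨φ, fun w => Iff.rfl⟩
  have h1 := all_transfer j hP b (fun y => by
    change RelMap (sR R) (fun i => j (y i)) ↔ φ.Realize (j ∘ Sum.elim b y)
    rw [jrelr j (sR R) y, (lemb j).map_formula φ (Sum.elim b y) |> (fun h => show
      φ.Realize (j ∘ Sum.elim b y) ↔ φ.Realize (Sum.elim b y) from h)]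
    exact hφ y) x
  exact h1

end

end Pool.Agent.R611.CX
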