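import Pool.Agent.R611.CX.S5

/-!
# Models of the theory of the residue field embed in residue fields of saturated models
-/

set_option autoImplicit false

namespace Pool.Agent.R611.CX

open FirstOrder Language Structure Polynomial Pool.Agent.R611.HM IsLocalRing

section

variable {K : Type} [LC.Structure K] [Field K] {O Oc : ValuationSubring K}

theorem indN_K (h : Good K O Oc) (B : Set K) :
    letI := lpK Oc B
    indN (clsK h B) = indStructure LC O Oc h.le B := by
  letI := lpK Oc B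
  unfold indN
  rw [relI_K]

/-- the symbol for `Oc` in the larger language -/
def sOc (L₂ : FirstOrder.Language.{0, 0}) : (LC.sum L₂).Relations 1 := Sum.inl syc.ring

/-- membership in `Oc` as a formula -/
def mO {L₂ : FirstOrder.Language.{0, 0}} {α : Type} (i : α) : (LC.sum L₂).Formula α :=
  Relations.formula (sOc L₂) ![Term.var i]

theorem realize_mO {L₂ : FirstOrder.Language.{0, 0}} {N : Type} [LC.Structure N]
    [L₂.Structure N] [Field N] {O' Oc' : ValuationSubring N} (hG : Good N O' Oc') {α : Type}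
    (i : α) (w : α → N) : (mO i : (LC.sum L₂).Formula α).Realize w ↔ w i ∈ Oc' := by
  unfold mO
  rw [Formula.realize_rel]
  change RelMap syc.ring _ ↔ _
  rw [rel1_iff, hG.isvc.ring]
  rfl

/-- translation of a formula together with membership of the variables in `Oc` -/
theorem tr_formula' (h : Good K O Oc) (B : Set K) {n : ℕ}
    (φ : (IndLang LC Oc B).Formula (Fin n)) :
    ∃ χ : (LC.sum (LP Oc B)).Formula (Fin n), ∀ (N : Type) [LC.Structure N]
      [(LP Oc B).Structure N] [Field N] (O' Oc' : ValuationSubring N) (hC : Cls h B N O' Oc')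
      (x : Fin n → N), χ.Realize x ↔ ∃ y : Fin n → Oc', (∀ i, (y i : N) = x i) ∧
        (letI := indN hC; φ.Realize (fun i => residue Oc' (y i))) := by
  obtain ⟨χ, hχ⟩ := tr_formula h φ
  refine ⟨χ ⊓ Formula.iInf (fun i : Fin n => mO i), fun N _ _ _ O' Oc' hC x => ?_⟩
  have h1 : ∀ y : Fin n → Oc', (Formula.Realize χ (fun i => (y i : N))) ↔
      (letI := indN hC; φ.Realize (fun i => residue Oc' (y i))) := by
    intro y
    have h5 := hχ N O' Oc' hC y (fun i : Fin 0 => i.elim0)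
    let _ := indN hC
    exact (realize_zero χ _ _).trans (h5.trans (realize_zero φ _ _).symm)
  rw [Formula.realize_inf, Formula.realize_iInf]
  constructor
  · rintro ⟨h2, h3⟩
    have h4 : ∀ i, x i ∈ Oc' := fun i => (realize_mO hC.good i x).1 (h3 i)
    exact ⟨fun i => ⟨x i, h4 i⟩, fun i => rfl, (h1 _).1 h2⟩
  · rintro ⟨y, hy, h2⟩
    have e : x = fun i => (y i : N) := funext fun i => (hy i).symm
    refine ⟨by rw [e]; exact (h1 y).2 h2, fun i => (realize_mO hC.good i x).2 ?_⟩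
    rw [e]
    exact (y i).2

/-- the large model -/
theorem exists_big (h : Good K O Oc) (B : Set K) {M : Type} [(IndLang LC Oc B).Structure M]
    (hKM : letI := indStructure LC O Oc h.le B;
      (ResidueField Oc) ≅[IndLang LC Oc B] M) :
    letI := lpK Oc B
    ∃ (N : Type) (_ : LC.Structure N) (_ : (LP Oc B).Structure N)
      (_ : K ↪ₑ[LC.sum (LP Oc B)] N) (_ : Field N) (O' Oc' : ValuationSubring N)
      (hC : Cls h B N O' Oc'), Sat1 (LC.sum (LP Oc B)) N ∧
      (letI := indN hC; Nonempty (M ↪ₑ[IndLang LC Oc B] (ResidueField Oc'))) := by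
  classical
  letI iK := lpK Oc B
  rw [← indN_K h B] at hKM
  choose tr htr using fun (n : ℕ) (φ : (IndLang LC Oc B).Formula (Fin n)) => tr_formula' h B φ
  let I : Type := Σ n : ℕ, {q : (Fin n → M) × (IndLang LC Oc B).Formula (Fin n) //
    q.2.Realize q.1}
  let S : Set ((LC.sum (LP Oc B)).Formula (M ⊕ K)) :=
    Set.range fun i : I => (tr i.1 i.2.1.2).relabel (fun k => (Sum.inl (i.2.1.1 k) : M ⊕ K))
  have : Nonempty K := ⟨0⟩
  obtain ⟨N1, iN1, j1, v, hv⟩ := compactU (L := LC.sum (LP Oc B)) (U := K) (δ := M) S (by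
    intro S₀ hS₀ hfin
    letI iR := indN (clsK h B)
    have hf := hfin.to_subtype
    choose ix hix using fun ψ : S₀ => hS₀ ψ.2
    let D : Set M := ⋃ ψ : S₀, Set.range (ix ψ).2.1.1
    have hD : D.Finite := Set.finite_iUnion fun ψ => Set.finite_range _
    have := hD.to_subtype
    let Φ : (IndLang LC Oc B).Formula D := Formula.iInf (fun ψ : S₀ => (ix ψ).2.1.2.relabel
      (fun k => (⟨(ix ψ).2.1.1 k, Set.mem_iUnion.2 ⟨ψ, k, rfl⟩⟩ : D)))
    have hΦ : ∀ {Q : Type} [(IndLang LC Oc B).Structure Q] (u : D → Q), Φ.Realize u ↔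
        ∀ ψ : S₀, (ix ψ).2.1.2.Realize
          (fun k => u ⟨(ix ψ).2.1.1 k, Set.mem_iUnion.2 ⟨ψ, k, rfl⟩⟩) := by
      intro Q _ u
      rw [Formula.realize_iInf]
      refine forall_congr' fun ψ => ?_
      rw [Formula.realize_relabel]
      rfl
    let χ : (IndLang LC Oc B).Sentence :=
      (Φ.relabel (Sum.inr : D → Empty ⊕ D) :
        (IndLang LC Oc B).Formula (Empty ⊕ D)).iExs D
    have hχ : ∀ {Q : Type} [(IndLang LC Oc B).Structure Q], Q ⊨ χ ↔
        ∃ u : D → Q, Φ.Realize u := by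
      intro Q _
      change Formula.Realize _ _ ↔ _
      rw [Formula.realize_iExs]
      refine exists_congr fun u => ?_
      rw [Formula.realize_relabel]
      rfl
    have h1 : M ⊨ χ := hχ.2 ⟨fun d => d.1, (hΦ _).2 fun ψ => (ix ψ).2.2⟩
    rw [← hKM.realize_sentence, hχ] at h1
    obtain ⟨u, hu⟩ := h1
    rw [hΦ] at hu
    choose w hw using fun d => residue_surjective (u d)
    refine ⟨fun m => if hm : m ∈ D then (w ⟨m, hm⟩ : K) else 0, fun ψ hψ => ?_⟩
    have h2 := hix ⟨ψ, hψ⟩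
    have h3 := hu ⟨ψ, hψ⟩
    change ((_ : (LC.sum (LP Oc B)).Formula _).relabel _ :
      (LC.sum (LP Oc B)).Formula (M ⊕ K)) = ψ at h2
    rw [← h2, Formula.realize_relabel, htr _ _ K O Oc (clsK h B)]
    refine ⟨fun k => w ⟨(ix ⟨ψ, hψ⟩).2.1.1 k, Set.mem_iUnion.2 ⟨⟨ψ, hψ⟩, k, rfl⟩⟩, fun k => ?_,
      ?_⟩
    · simp only [Function.comp, Sum.elim_inl]
      have hk : (ix ⟨ψ, hψ⟩).2.1.1 k ∈ D := Set.mem_iUnion.2 ⟨⟨ψ, hψ⟩, k, rfl⟩
      rw [dif_pos hk]
    · simp only [hw]
      exact h3)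
  have : Nonempty N1 := ⟨j1 0⟩
  obtain ⟨N, iN, j2, hsat⟩ := exists_sat1 (L := LC.sum (LP Oc B)) N1
  obtain ⟨i₁, i₂, rfl⟩ := exists_split iN
  obtain ⟨iF, O', Oc', hC⟩ := cls_transfer h B (j2.comp j1)
  refine ⟨N, i₁, i₂, j2.comp j1, iF, O', Oc', hC, hsat, ?_⟩
  letI iR := indN hC
  have hS : ∀ (n : ℕ) (φ : (IndLang LC Oc B).Formula (Fin n)) (x : Fin n → M), φ.Realize x →
      ∃ y : Fin n → Oc', (∀ i, (y i : N) = j2 (v (x i))) ∧
        φ.Realize (fun i => residue Oc' (y i)) := by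
    intro n φ x hφ
    have h1 := hv _ ⟨(⟨n, ⟨(x, φ), hφ⟩⟩ : I), rfl⟩
    change ((tr n φ).relabel _ : (LC.sum (LP Oc B)).Formula (M ⊕ K)).Realize _ at h1
    rw [Formula.realize_relabel] at h1
    have h2 := (j2.map_formula (tr n φ) _).2 h1
    rw [htr n φ N O' Oc' hC] at h2
    obtain ⟨y, hy, h3⟩ := h2
    exact ⟨y, hy, h3⟩
  have hmem : ∀ m : M, (j2 (v m) : N) ∈ Oc' := by
    intro m
    obtain ⟨y, hy, -⟩ := hS 1 ⊤ (fun _ => m) (by simp)
    rw [← hy 0]
    exact (y 0).2
  refine ⟨⟨fun m => residue Oc' ⟨j2 (v m), hmem m⟩, fun n φ x => ?_⟩⟩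
  have one : ∀ φ : (IndLang LC Oc B).Formula (Fin n), φ.Realize x →
      φ.Realize ((fun m => residue Oc' ⟨j2 (v m), hmem m⟩) ∘ x) := by
    intro φ hφ
    obtain ⟨y, hy, h3⟩ := hS n φ x hφ
    convert h3 using 1
    funext i
    exact congrArg (residue Oc') (Subtype.ext (hy i).symm)
  refine ⟨fun h' => ?_, one φ⟩
  by_contra hc
  have := one (Formula.not φ) ((Formula.realize_not).2 hc)
  rw [Formula.realize_not] at this
  exact this h'

end

end Pool.Agent.R611.CX
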