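import Pool.Agent.R611.CX.S6

/-!
# The residue field of the example is Hensel minimal
-/

set_option autoImplicit false

namespace Pool.Agent.R611.CX

open FirstOrder Language Structure Polynomial Pool.Agent.R611.HM IsLocalRing

section

variable {K : Type} [LC.Structure K] [Field K] {O Oc : ValuationSubring K} {B : Set K}
  {h : Good K O Oc} {N : Type} [LC.Structure N] [(LP Oc B).Structure N] [Field N]
  {O' Oc' : ValuationSubring N}

/-- countable saturation of the residue field -/
theorem sat1_res (hC : Cls h B N O' Oc') (hs : Sat1 (LC.sum (LP Oc B)) N) :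
    letI := indN hC
    Sat1 (IndLang LC Oc B) (ResidueField Oc') := by
  let _ := indN hC
  intro α _ β hβ P b hP hfs
  choose φ hφ using fun n => df_iff.1 (hP n)
  choose χ hχ using fun n => tr_formula h (φ n)
  choose b' hb' using fun n (i : β n) => residue_surjective (b n i)
  have key : ∀ (n : ℕ) (x : α → Oc'), (Formula.Realize (χ n)
      (Sum.elim (fun i => (x i : N)) (fun i => (b' n i : N)))) ↔
      P n (Sum.elim (fun i => residue Oc' (x i)) (b n)) := by
    intro n x
    have h1 := hχ n N O' Oc' hC (Sum.elim x (b' n)) (fun i : Fin 0 => i.elim0)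
    rw [hφ]
    have e1 : (fun i => ((Sum.elim x (b' n) i : Oc') : N)) =
        Sum.elim (fun i => (x i : N)) (fun i => (b' n i : N)) := by
      funext i; rcases i with i | i <;> rfl
    have e2 : (fun i => residue Oc' (Sum.elim x (b' n) i)) =
        Sum.elim (fun i => residue Oc' (x i)) (b n) := by
      funext i
      rcases i with i | i
      · rfl
      · exact hb' n i
    rw [e1, e2] at h1
    exact (realize_zero (χ n) _ _).trans (h1.trans (realize_zero (φ n) _ _).symm)
  obtain ⟨x, hx⟩ := hs α β hβ (fun n w => (∀ i, w (Sum.inl i) ∈ Oc') ∧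
      Formula.Realize (χ n) w) (fun n i => (b' n i : N)) (fun n => by
        refine Df.and (Df.all_fin fun i => ?_) (df_iff.2 ⟨χ n, fun _ => Iff.rfl⟩)
        exact df_sum (df_mem_Oc hC.good (DfF.var _))) (fun n => by
        obtain ⟨x, hx⟩ := hfs n
        choose y hy using fun a => residue_surjective (x a)
        refine ⟨fun a => (y a : N), fun k hk => ⟨fun i => (y i).2, ?_⟩⟩
        rw [key k y]
        have : (fun i => residue Oc' (y i)) = x := funext hy
        rw [this]
        exact hx k hk)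
  have hmem : ∀ i, x i ∈ Oc' := fun i => (hx 0).1 i
  refine ⟨fun i => residue Oc' ⟨x i, hmem i⟩, fun n => ?_⟩
  rw [← key n (fun i => ⟨x i, hmem i⟩)]
  exact (hx n).2

theorem isValued_res (hC : Cls h B N O' Oc') :
    letI := indN hC
    IsValued (indSym LC Oc B) (resRing O' Oc' hC.good.le) := by
  let _ := indN hC
  refine ⟨fun x y => rfl, fun x y => rfl, fun x => Iff.rfl, ?_⟩
  have hc : CharZero (ResidueField Oc') := hC.good.isvc.char_zero
  refine charZero_of_nat _ fun n hn => ?_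
  have h0 : residue Oc' (n : Oc') ≠ 0 := by
    rw [map_natCast]
    exact_mod_cast hn
  have h1 : residue Oc' 1 ≠ 0 := by
    rw [map_one]
    exact one_ne_zero
  have hv : O'.valuation (n : N) = 1 := hC.good.isv.vf.nat n hn
  have e : (((n : Oc') : Oc') : N) = (n : N) := by simp
  have e1 := (res_le hC.good.le (x := (n : Oc')) (y := 1) h1).2 (by
    rw [e, hv]
    simp)
  have e2 := (res_le hC.good.le (x := 1) (y := (n : Oc')) h0).2 (by
    rw [e, hv]
    simp)
  rw [map_natCast, map_one, map_one] at e1 e2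
  exact le_antisymm e1 e2

/-- definable elements -/
theorem dcl_closure (h : Good K O Oc) {y : K} (hy : y ∈ Subfield.closure B) :
    ∃ (ι : Type) (_ : Finite ι) (b : ι → K) (f : (ι → K) → K), (∀ i, b i ∈ B) ∧
      DfF LC f ∧ y = f b := by
  have hV := h.isv.vf
  induction hy using Subfield.closure_induction with
  | mem x hx => exact ⟨Unit, inferInstance, fun _ => x, fun w => w (), fun _ => hx, DfF.var (), rfl⟩
  | one => exact ⟨Empty, inferInstance, Empty.elim, fun _ => 1, fun i => i.elim, fone hV, rfl⟩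
  | add x y _ _ hx hy =>
    obtain ⟨ι₁, _, b₁, f₁, h1, h2, rfl⟩ := hx
    obtain ⟨ι₂, _, b₂, f₂, h3, h4, rfl⟩ := hy
    refine ⟨ι₁ ⊕ ι₂, inferInstance, Sum.elim b₁ b₂, fun w => f₁ (fun i => w (Sum.inl i)) +
      f₂ (fun i => w (Sum.inr i)), ?_, ?_, rfl⟩
    · rintro (i | i)
      · exact h1 i
      · exact h3 i
    · exact hV.fadd (h2.comp fun i => DfF.var (Sum.inl i)) (h4.comp fun i => DfF.var (Sum.inr i))
  | neg x _ hx =>
    obtain ⟨ι₁, _, b₁, f₁, h1, h2, rfl⟩ := hx
    refine ⟨ι₁, inferInstance, b₁, fun w => 0 - f₁ w, h1, hV.fsub hV.fzero h2, by simp⟩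
  | inv x _ hx =>
    obtain ⟨ι₁, _, b₁, f₁, h1, h2, rfl⟩ := hx
    exact ⟨ι₁, inferInstance, b₁, fun w => (f₁ w)⁻¹, h1, finv hV h2, rfl⟩
  | mul x y _ _ hx hy =>
    obtain ⟨ι₁, _, b₁, f₁, h1, h2, rfl⟩ := hx
    obtain ⟨ι₂, _, b₂, f₂, h3, h4, rfl⟩ := hy
    refine ⟨ι₁ ⊕ ι₂, inferInstance, Sum.elim b₁ b₂, fun w => f₁ (fun i => w (Sum.inl i)) *
      f₂ (fun i => w (Sum.inr i)), ?_, ?_, rfl⟩
    · rintro (i | i)
      · exact h1 i
      · exact h3 i
    · exact hV.fmul (h2.comp fun i => DfF.var (Sum.inl i)) (h4.comp fun i => DfF.var (Sum.inr i))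

/-- The residue of an element whose class is `B`-definable is algebraic over the empty set. -/
theorem res_mem_acl (hC : Cls h B N O' Oc')
    (j : letI := lpK Oc B; K ↪ₑ[LC.sum (LP Oc B)] N) {y : K} (hy : y ∈ Oc)
    (hd : B.Definable LC {x : Fin 1 → K | Clo Oc (x 0) y}) (hjy : j y ∈ Oc') :
    letI := indN hC
    residue Oc' ⟨j y, hjy⟩ ∈ acl (IndLang LC Oc B)
      (Empty.elim : Empty → ResidueField Oc') := by
  let iK := lpK Oc B
  let _ := indN hC
  let R : Set (Fin 1 → ResidueField Oc) := {w | w 0 = residue Oc ⟨y, hy⟩}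
  have hR : pull Oc R = {x : Fin 1 → K | Clo Oc (x 0) y} := by
    ext x
    constructor
    · rintro ⟨z, hz, hzR⟩
      change residue Oc (z 0) = residue Oc ⟨y, hy⟩ at hzR
      rw [← sub_eq_zero, ← map_sub, val_zero_iff] at hzR
      refine ⟨by rw [← hz]; exact (z 0).2, hy, ?_⟩
      rw [← hz]
      exact hzR
    · rintro ⟨h1, h2, h3⟩
      refine ⟨fun _ => ⟨x 0, h1⟩, fun i => by fin_cases i; rfl, ?_⟩
      change residue Oc ⟨x 0, h1⟩ = residue Oc ⟨y, hy⟩
      rw [← sub_eq_zero, ← map_sub, val_zero_iff]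
      exact h3
  have hRd : B.Definable LC (pull Oc R) := by rw [hR]; exact hd
  -- transfer to N
  have hN : ∀ x : N, RelMap (sR (⟨R, hRd⟩ : Pr Oc B 1)) (fun _ => x) ↔ Clo Oc' x (j y) := by
    intro x
    have hP : Df (LC.sum (LP Oc B)) (fun w : Unit ⊕ Fin 1 → N =>
        RelMap (sR (⟨R, hRd⟩ : Pr Oc B 1)) (fun i => w (Sum.inr i)) ↔
          Clo Oc' (w (Sum.inr 0)) (w (Sum.inl ()))) :=
      Df.iff (df_relr (sR (⟨R, hRd⟩ : Pr Oc B 1)) Sum.inr)
        (df_sum (df_clo hC.good.isvc (DfF.var _) (DfF.var _)))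
    exact all_transfer j hP (fun _ => y) (fun z => by
      change RelMap (sR (⟨R, hRd⟩ : Pr Oc B 1)) (fun i => j (z i)) ↔ Clo Oc' (j (z 0)) (j y)
      have e1 : ∀ x : K, j x ∈ Oc' ↔ x ∈ Oc := j_mem (lemb j) h.isvc hC.good.isvc
      have e2 : j (1 : K) = 1 := (jr (lemb j) h.isvc hC.good.isvc).map_one
      have e3 : j (z 0 - y) = j (z 0) - j y := j_sub (lemb j) h.isvc hC.good.isvc _ _
      have e4 : Oc'.valuation (j 1) ≤ Oc'.valuation (j (z 0 - y)) ↔
          Oc.valuation 1 ≤ Oc.valuation (z 0 - y) := j_le (lemb j) h.isvc hC.good.isvc 1 _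
      rw [jrelr j (sR (⟨R, hRd⟩ : Pr Oc B 1)) z]
      change z ∈ pull Oc R ↔ _
      rw [hR]
      unfold Clo
      rw [e1, e1, ← e3, ← not_le, ← map_one Oc'.valuation, ← e2, e4, map_one, not_le]
      rfl) (fun _ => x)
  let rs : (IndLang LC Oc B).Relations 1 := IndRel.set R hRd
  let P : (Empty → ResidueField Oc') → ResidueField Oc' → Prop := fun _ x =>
    RelMap rs ![x]
  have hPx : ∀ w x, P w x ↔ x = residue Oc' ⟨j y, hjy⟩ := by
    intro w x
    obtain ⟨z, rfl⟩ := residue_surjective x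
    have h1 : P w (residue Oc' z) ↔ (fun i : Fin 1 => residue Oc' ((fun _ => z) i)) ∈
        relI Oc B Oc' 1 R hRd := by
      apply iff_of_eq
      change (![residue Oc' z] ∈ relI Oc B Oc' 1 R hRd) = _
      congr 1
      funext i
      fin_cases i
      rfl
    rw [h1, relI_iff hC, hN, ← sub_eq_zero, ← map_sub, val_zero_iff]
    exact ⟨fun h => h.2.2, fun h => ⟨z.2, hjy, h⟩⟩
  refine ⟨P, ⟨?_, ?_⟩, ?_⟩
  · exact df_rel1' rs (DfF.var none)
  · refine (Set.finite_singleton (residue Oc' ⟨j y, hjy⟩)).subset fun x hx => ?_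
    exact (hPx Empty.elim _).1 hx
  · exact (hPx Empty.elim _).2 rfl

/-- rigid maps of the residue field are elementary -/
theorem el_res [Countable K] (hC : Cls h B N O' Oc') (hs : Sat1 (LC.sum (LP Oc B)) N)
    (j : letI := lpK Oc B; K ↪ₑ[LC.sum (LP Oc B)] N) :
    letI := indN hC
    ∀ l : ResidueField Oc', l ≠ 0 → (resRing O' Oc' hC.good.le).valuation l ≤ 1 →
      ∀ D : Subring (ResidueField Oc' × ResidueField Oc'),
      Rig (resRing O' Oc' hC.good.le).valuation l D →
      (D : Set (ResidueField Oc' × ResidueField Oc')).Countable →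
      (∀ c ∈ acl (IndLang LC Oc B) (Empty.elim : Empty → ResidueField Oc'), (c, c) ∈ D) →
      El (IndLang LC Oc B) (D : Set (ResidueField Oc' × ResidueField Oc')) := by
  let iK := lpK Oc B
  let _ := indN hC
  intro l₀ hl0 hl1 E₀ hE₀ hE₀c hacl
  have hG := hC.good
  have := hG.ac
  have hle := hG.le
  obtain ⟨l, rfl⟩ := residue_surjective l₀
  have hlN : O'.valuation (l : N) ≤ 1 := by
    have h1 := (res_le hle (x := l) (y := 1) (by rw [map_one]; exact one_ne_zero)).1
      (by rw [map_one (residue Oc'), map_one]; exact hl1)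
    simpa using h1
  have hl0N : (l : N) ≠ 0 := fun h0 => hl0 (by
    have : l = 0 := Subtype.ext h0
    rw [this, map_zero])
  have hmemj : ∀ x : K, j x ∈ Oc' ↔ x ∈ Oc := j_mem (lemb j) h.isvc hG.isvc
  -- the closure of the given ring under inverses
  set E := frac E₀ (hE₀.ne hl1) with hE
  have hEr : Rig (resRing O' Oc' hle).valuation (residue Oc' l) E := hE₀.frac hl1
  have hEi : InvC E := invC_frac _ _
  -- the diagonal of the field generated by the parameters
  let r := jr (lemb j) h.isvc hG.isvc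
  let F₀ : Subfield N := (Subfield.closure B).map r
  let D₀ : Subring (N × N) := (RingHom.prod F₀.subtype F₀.subtype).range
  have hD₀ : ∀ p, p ∈ D₀ ↔ p.1 ∈ F₀ ∧ p.2 = p.1 := by
    rintro ⟨a, b⟩
    constructor
    · rintro ⟨x, hx⟩
      rw [RingHom.prod_apply, Prod.mk.injEq] at hx
      obtain ⟨rfl, rfl⟩ := hx
      exact ⟨x.2, rfl⟩
    · rintro ⟨h1, h2⟩
      change b = a at h2
      exact ⟨⟨a, h1⟩, by rw [h2]; rfl⟩
  have hD₀r : Rig O'.valuation (l : N) D₀ := by
    intro p hp
    rw [((hD₀ p).1 hp).2]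
    exact RVl.refl hl0N _
  have hD₀i : InvC D₀ := by
    intro p hp hp0
    have h1 := (hD₀ p).1 hp
    exact (hD₀ _).2 ⟨F₀.inv_mem h1.1, by rw [h1.2]⟩
  have hD₀c : (D₀ : Set (N × N)).Countable := by
    have h1 : (D₀ : Set (N × N)) ⊆ Set.range (fun x : K => ((j x : N), (j x : N))) := by
      rintro p hp
      obtain ⟨⟨x, _, hx⟩, h2⟩ := (hD₀ p).1 hp
      exact ⟨x, Prod.ext hx (by rw [h2]; exact hx)⟩
    exact (Set.countable_range _).mono h1
  have hD₀C : Cmp E D₀ := by
    intro x y hxy hx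
    obtain ⟨⟨z, hz, hzx⟩, h2⟩ := (hD₀ _).1 hxy
    change j z = x at hzx
    change y = x at h2
    subst hzx
    subst h2
    refine ⟨hx, ?_⟩
    refine le_frac _ _ (hacl _ ?_)
    refine res_mem_acl hC j ((hmemj z).1 hx) ?_ hx
    obtain ⟨ι, _, b, f, hb, hf, rfl⟩ := dcl_closure h hz
    have h3 : Df LC (fun q : Fin 1 ⊕ ι → K => Clo Oc (q (Sum.inl 0))
        (f (fun i => q (Sum.inr i)))) :=
      df_clo h.isvc (DfF.var _) (hf.comp fun i => DfF.var (Sum.inr i))
    exact h3.params b hb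
  obtain ⟨D, hDD, hDr, hDc, hDl⟩ := lift_all hle hl0 hlN hEr hEi
    (T := (E₀ : Set (ResidueField Oc' × ResidueField Oc'))) (le_frac _ _) hE₀c hD₀r hD₀i hD₀C
    hD₀c
  -- a pair of elements of P
  have hP : ∃ p ∈ (D : Set (N × N)), RelMap symP ![p.1] ∧ RelMap symP ![p.2] := by
    obtain ⟨s, hs1, hsP⟩ := h.p
    obtain ⟨s', hs1', hsP'⟩ := hG.p
    have hsO : s ∈ Oc := (Oc.valuation_le_one_iff s).1 hs1.le
    have hjs : j s ∈ Oc' := (hmemj s).2 hsO
    have h1 : residue Oc' ⟨j s, hjs⟩ ∈ acl (IndLang LC Oc B)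
        (Empty.elim : Empty → ResidueField Oc') := by
      refine res_mem_acl hC j hsO ?_ hjs
      have h2 : Df LC (fun x : Fin 1 → K => RelMap symP ![x 0]) := df_rel1' _ (DfF.var 0)
      have h3 : {x : Fin 1 → K | Clo Oc (x 0) s} = {x | RelMap symP ![x 0]} := by
        ext x
        change Clo Oc (x 0) s ↔ RelMap symP ![x 0]
        rw [hsP]
        constructor
        · exact fun h => h.2.2
        · intro h
          refine ⟨?_, hsO, h⟩
          rw [← Oc.valuation_le_one_iff]
          have e : x 0 = (x 0 - s) + s := by ring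
          rw [e]
          exact v_add_le h.le hs1.le
      rw [h3]
      exact Set.Definable.mono h2 (Set.empty_subset B)
    obtain ⟨x, y, hxy, hx, hy⟩ := hDl _ (hacl _ h1)
    have hjsP : RelMap symP ![(j s : N)] := by
      have h2 : RelMap symP ![s] := by
        rw [hsP, sub_self, map_zero]
        exact zero_lt_one
      have h3 := ((lemb j).map_rel symP ![s]).2 h2
      convert h3 using 1
      funext i
      fin_cases i
      rfl
    have hclose : ∀ x : Oc', residue Oc' x = residue Oc' ⟨j s, hjs⟩ →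
        RelMap symP ![(x : N)] := by
      intro x hx
      rw [← sub_eq_zero, ← map_sub, val_zero_iff] at hx
      rw [hsP'] at hjsP ⊢
      exact v_tri_lt hx hjsP
    exact ⟨((x : N), (y : N)), hxy, hclose x hx, hclose y hy⟩
  have hS : SC O'.valuation := sat1_sc (L := LC.sum (LP Oc B)) hs (v := O'.valuation)
    ⟨df_sum hG.isv.vf.add, df_sum hG.isv.vf.mul, df_sum hG.isv.vf.le, hG.isv.vf.nat⟩
  have hbase := hG.bf_v hS hl0N hlN
  -- back and forth for the larger language
  have hBF : BF (LC.sum (LP Oc B)) (FR O'.valuation (l : N) (fun D =>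
      (∃ p ∈ D, RelMap symP ![p.1] ∧ RelMap symP ![p.2]) ∧ ∀ b ∈ B, ((j b : N), (j b : N)) ∈ D)) := by
    refine bf_rig hG.isv.vf.nat hS hl0N hlN _ ?_ ?_ ?_
    · rintro D D' hDD ⟨⟨p, hp, h1⟩, h2⟩
      exact ⟨⟨p, hDD hp, h1⟩, fun b hb => hDD (h2 b hb)⟩
    · intro D n f s hs
      rcases f with f | f
      · exact hG.fn D n f s hs
      · exact f.elim
    · rintro D hD hc ⟨hX, hb⟩ n R s hs
      rcases R with R | R
      · exact hbase.rel _ ⟨D, rfl, hD, hc, hX⟩ n R s hs
      · obtain ⟨m, b, φ, hbB, hφ⟩ := name_def B j R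
        have hE := hbase.el ⟨D, rfl, hD, hc, hX⟩
        have h1 := hE (Fin m ⊕ Fin n) (Sum.elim (fun i => ((j (b i) : N), (j (b i) : N))) s) (by
          rintro (i | i)
          · exact hb _ (hbB i)
          · exact hs i) _ (df_iff.2 ⟨φ, fun _ => Iff.rfl⟩)
        change RelMap (sR R) (fun i => (s i).1) ↔ RelMap (sR R) (fun i => (s i).2)
        rw [hφ, hφ]
        have e1 : (fun i => (Sum.elim (fun i => ((j (b i) : N), (j (b i) : N))) s i).1) =
            Sum.elim (fun i => (j (b i) : N)) (fun i => (s i).1) := by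
          funext i; rcases i with i | i <;> rfl
        have e2 : (fun i => (Sum.elim (fun i => ((j (b i) : N), (j (b i) : N))) s i).2) =
            Sum.elim (fun i => (j (b i) : N)) (fun i => (s i).2) := by
          funext i; rcases i with i | i <;> rfl
        rw [e1, e2] at h1
        exact h1
  have hbD : ∀ b ∈ B, ((j b : N), (j b : N)) ∈ (D : Set (N × N)) := by
    intro b hb
    refine hDD ((hD₀ _).2 ⟨⟨b, Subfield.subset_closure hb, rfl⟩, rfl⟩)
  have hEl := hBF.el (D := (D : Set (N × N))) ⟨D, rfl, hDr, hDc, hP, hbD⟩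
  intro α _ s hs P hPd
  obtain ⟨φ, hφ⟩ := df_iff.1 hPd
  obtain ⟨χ, hχ⟩ := tr_formula h φ
  choose x y hxy hx hy using fun i => hDl _ (hs i)
  have h1 := hEl α (fun i => ((x i : N), (y i : N))) hxy _
    (df_iff.2 ⟨χ, fun _ => Iff.rfl⟩)
  have h2 := hχ N O' Oc' hC x (fun i : Fin 0 => i.elim0)
  have h3 := hχ N O' Oc' hC y (fun i : Fin 0 => i.elim0)
  have e1 : (fun i => residue Oc' (x i)) = fun i => (s i).1 := funext hx
  have e2 : (fun i => residue Oc' (y i)) = fun i => (s i).2 := funext hy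
  rw [e1] at h2
  rw [e2] at h3
  rw [hφ, hφ]
  have h2' : Formula.Realize χ (fun i => (x i : N)) ↔ φ.Realize (fun i => (s i).1) := by
    exact (realize_zero χ _ _).trans (h2.trans (realize_zero φ _ _).symm)
  have h3' : Formula.Realize χ (fun i => (y i : N)) ↔ φ.Realize (fun i => (s i).2) := by
    exact (realize_zero χ _ _).trans (h3.trans (realize_zero φ _ _).symm)
  rw [← h2', ← h3']
  exact h1

end

end Pool.Agent.R611.CX
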