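import Pool.Agent.R611.CX.S7

/-!
# Hensel minimality of the residue field with its induced structure
-/

set_option autoImplicit false

namespace Pool.Agent.R611.CX

open FirstOrder Language Structure Polynomial Pool.Agent.R611.HM IsLocalRing

section

variable {K : Type} [LC.Structure K] [Field K] {O Oc : ValuationSubring K}

theorem LC_formula_countable (α : Type) [Countable α] : Countable (LC.Formula α) := by
  have h1 := BoundedFormula.card_le (L := LC) (α := α)
  have h2 : Cardinal.mk (Σ n, LC.BoundedFormula α n) ≤ Cardinal.aleph0 := by
    refine h1.trans (max_le le_rfl ?_)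
    refine Cardinal.add_le_aleph0.2 ⟨?_, ?_⟩
    · rw [Cardinal.lift_le_aleph0]
      exact Cardinal.mk_le_aleph0
    · rw [Cardinal.lift_le_aleph0]
      exact LC_card
  have h3 : Countable (Σ n, LC.BoundedFormula α n) := Cardinal.mk_le_aleph0_iff.1 h2
  refine Function.Injective.countable (f := fun φ : LC.Formula α =>
    (⟨0, φ⟩ : Σ n, LC.BoundedFormula α n)) ?_
  intro φ ψ h
  simpa using h

theorem definable_countable [Countable K] (B : Set K) (n : ℕ) :
    {Y : Set (Fin n → K) | B.Definable LC Y}.Countable := by
  have h1 : ∀ m : ℕ, Countable (LC.Formula (Fin m ⊕ Fin n)) := fun m =>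
    LC_formula_countable _
  have h2 : {Y : Set (Fin n → K) | B.Definable LC Y} ⊆
      Set.range (fun q : Σ m : ℕ, (Fin m → K) × LC.Formula (Fin m ⊕ Fin n) =>
        {w : Fin n → K | q.2.2.Realize (Sum.elim q.2.1 w)}) := by
    intro Y hY
    obtain ⟨m, a, φ, _, hφ⟩ := df_of_definable hY
    refine ⟨⟨m, a, φ⟩, ?_⟩
    ext w
    exact (hφ w).symm
  exact (Set.countable_range _).mono h2

omit [LC.Structure K] in
theorem pull_injective {n : ℕ} : Function.Injective (pull Oc (n := n)) := by
  have one : ∀ R R' : Set (Fin n → ResidueField Oc), pull Oc R = pull Oc R' → R ⊆ R' := by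
    intro R R' h x hx
    choose y hy using fun i => residue_surjective (x i)
    have e : (fun i => residue Oc (y i)) = x := funext hy
    have h1 : (fun i => (y i : K)) ∈ pull Oc R := ⟨y, fun i => rfl, by rw [e]; exact hx⟩
    rw [h] at h1
    obtain ⟨z, hz, hzR⟩ := h1
    have e2 : z = y := funext fun i => Subtype.ext (hz i)
    rw [e2, e] at hzR
    exact hzR
  intro R R' h
  exact Set.Subset.antisymm (one _ _ h) (one _ _ h.symm)

theorem indLang_card [Countable K] (B : Set K) :
    (IndLang LC Oc B).card ≤ Cardinal.aleph0 := by
  have h1 : Finite (Σ n, IndFun.{0} n) := by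
    refine Finite.of_surjective (fun b : Bool => if b then (⟨2, IndFun.add⟩ : Σ n, IndFun.{0} n)
      else ⟨2, IndFun.mul⟩) ?_
    rintro ⟨n, f⟩
    cases f
    · exact ⟨true, rfl⟩
    · exact ⟨false, rfl⟩
  have h2 : Countable (Σ n, IndRel LC Oc B n) := by
    have hc : ∀ n, Countable {Y : Set (Fin n → K) | B.Definable LC Y} := fun n =>
      (definable_countable B n).to_subtype
    have hc' : ∀ n, Countable (IndRel LC Oc B n) := by
      intro n
      refine Function.Injective.countable
        (f := fun r : IndRel LC Oc B n => (match n, r with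
          | _, IndRel.ring => none
          | _, IndRel.set R h => some ⟨pull Oc R, h⟩ :
            Option {Y : Set (Fin n → K) | B.Definable LC Y})) ?_
      intro r r' h
      cases r with
      | ring =>
        cases r' with
        | ring => rfl
        | set R' h' => exact absurd h (by simp)
      | set R hR =>
        cases r' with
        | ring => exact absurd h (by simp)
        | set R' h' =>
          have h3 : pull Oc R = pull Oc R' := by simpa using h
          have h4 := pull_injective h3
          subst h4
          rfl
    infer_instance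
  have h3 : Countable (IndLang LC Oc B).Symbols := by
    unfold Language.Symbols
    exact @instCountableSum _ _ (@Finite.to_countable _ h1) h2
  exact Cardinal.mk_le_aleph0_iff.2 h3

/-- The theory of the residue field of the example with its induced structure is
ω-h-minimal. -/
theorem Good.hmin_res [Countable K] (h : Good K O Oc) (B : Set K) :
    letI := indStructure LC O Oc h.le B
    HMinTh (indSym LC Oc B) (ResidueField Oc) ⊤ := by
  intro M _ _ OM hKM hOM
  letI iK := lpK Oc B
  obtain ⟨N, i₁, i₂, j, iF, O', Oc', hC, hs, ⟨i⟩⟩ := exists_big h B hKM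
  let iR := indN hC
  have := hC.good.ac
  have hac : IsAlgClosed (ResidueField Oc') := residue_isAlgClosed Oc'
  have hs' : Sat1 (IndLang LC Oc B) (ResidueField Oc') := sat1_res hC hs
  have hc : CDf (IndLang LC Oc B) (ResidueField Oc') := cdf_of_card (indLang_card B) _
  have hV := isValued_res hC
  refine hMinNe_of' hOM (hminAt_of_TH i hOM hV (satur_of_sat1 hs' hc) ?_ ⊤)
  exact TH_of_rigid hV.vf (sat1_sc hs' hV.vf) (fun ι _ a => acl_countable hc a) (el_res hC hs j)

end

end Pool.Agent.R611.CX
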