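import Pool.Agent.R611.CX.S8

/-!
# Existence of the example
-/

set_option autoImplicit false

namespace Pool.Agent.R611.CX

open Polynomial Pool.Agent.R611.HM IsLocalRing

universe u

/-- composition of valuation rings -/
def compRing {N : Type u} [Field N] (Oc : ValuationSubring N)
    (V : ValuationSubring (ResidueField Oc)) : ValuationSubring N where
  carrier := {x | ∃ y : Oc, (y : N) = x ∧ residue Oc y ∈ V}
  mul_mem' := by
    rintro _ _ ⟨a, rfl, ha⟩ ⟨b, rfl, hb⟩
    exact ⟨a * b, rfl, by rw [map_mul]; exact V.mul_mem _ _ ha hb⟩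
  one_mem' := ⟨1, rfl, by rw [map_one]; exact V.one_mem⟩
  add_mem' := by
    rintro _ _ ⟨a, rfl, ha⟩ ⟨b, rfl, hb⟩
    exact ⟨a + b, rfl, by rw [map_add]; exact V.add_mem _ _ ha hb⟩
  zero_mem' := ⟨0, rfl, by rw [map_zero]; exact V.zero_mem⟩
  neg_mem' := by
    rintro _ ⟨a, rfl, ha⟩
    exact ⟨-a, rfl, by rw [map_neg]; exact V.neg_mem _ ha⟩
  mem_or_inv_mem' := by
    intro x
    rcases lt_trichotomy (Oc.valuation x) 1 with h | h | h
    · left
      have hx : x ∈ Oc := (Oc.valuation_le_one_iff x).1 h.le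
      refine ⟨⟨x, hx⟩, rfl, ?_⟩
      have : residue Oc ⟨x, hx⟩ = 0 := (val_zero_iff _).2 h
      rw [this]
      exact V.zero_mem
    · have hx : x ∈ Oc := (Oc.valuation_le_one_iff x).1 h.le
      have hx' : x⁻¹ ∈ Oc := by
        rw [← Oc.valuation_le_one_iff, map_inv₀, h, inv_one]
      have hx0 : x ≠ 0 := fun h0 => by
        rw [h0, map_zero] at h
        exact zero_ne_one h
      rcases V.mem_or_inv_mem (residue Oc ⟨x, hx⟩) with h1 | h1
      · exact Or.inl ⟨⟨x, hx⟩, rfl, h1⟩
      · right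
        refine ⟨⟨x⁻¹, hx'⟩, rfl, ?_⟩
        have : residue Oc ⟨x⁻¹, hx'⟩ = (residue Oc ⟨x, hx⟩)⁻¹ := by
          rw [eq_comm, inv_eq_of_mul_eq_one_right]
          rw [← map_mul, ← map_one (residue Oc)]
          congr 1
          exact Subtype.ext (mul_inv_cancel₀ hx0)
        rw [this]
        exact h1
    · right
      have h' : Oc.valuation x⁻¹ < 1 := by
        rw [map_inv₀]
        exact inv_lt_one_of_one_lt₀ h
      have hx : x⁻¹ ∈ Oc := (Oc.valuation_le_one_iff _).1 h'.le
      refine ⟨⟨x⁻¹, hx⟩, rfl, ?_⟩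
      have : residue Oc ⟨x⁻¹, hx⟩ = 0 := (val_zero_iff _).2 h'
      rw [this]
      exact V.zero_mem

/-- the properties of the example before cutting down to a countable field -/
structure Mod (K : Type) [Field K] (O Oc : ValuationSubring K) (s t u : K) : Prop where
  le : O ≤ Oc
  nat : ∀ n : ℕ, n ≠ 0 → O.valuation (n : K) = 1
  hu : u ∈ Oc
  hu' : u ∉ O
  ht : t ≠ 0
  ht' : Oc.valuation t < 1
  hs : ∀ g : ℤ[X], g ≠ 0 → Oc.valuation (eval₂ (Int.castRingHom K) s g) = 1

theorem val_unit_of_isUnit {N : Type u} [Field N] {Oc : ValuationSubring N} {x : Oc}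
    (h : IsUnit x) : Oc.valuation (x : N) = 1 := (Oc.valuation_eq_one_iff x).1 h

theorem exists_mod : ∃ (K : Type) (_ : Field K) (_ : IsAlgClosed K) (O Oc : ValuationSubring K)
    (s t u : K), Mod K O Oc s t u := by
  let Q := PowerSeries ℚ
  let k₀ := FractionRing Q
  let R := PowerSeries k₀
  let K := AlgebraicClosure (FractionRing R)
  let f₁ : R →+* K := (algebraMap (FractionRing R) K).comp (algebraMap R (FractionRing R))
  have hf₁ : Function.Injective f₁ :=
    (algebraMap (FractionRing R) K).injective.comp (IsFractionRing.injective R (FractionRing R))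
  obtain ⟨Oc, hOc, hloc⟩ := IsLocalRing.exists_factor_valuationRing f₁
  let g₁ : R →+* Oc := f₁.codRestrict Oc.toSubring hOc
  have hg₁ : IsLocalHom g₁ := hloc
  have hunit : ∀ x : R, IsUnit x → Oc.valuation (f₁ x) = 1 := fun x hx =>
    val_unit_of_isUnit (x := g₁ x) (hx.map g₁)
  have hnonunit : ∀ x : R, ¬ IsUnit x → Oc.valuation (f₁ x) < 1 := by
    intro x hx
    have h1 : ¬ IsUnit (g₁ x) := fun h => hx (isUnit_of_map_unit g₁ x h)
    rcases Oc.valuation_lt_one_or_eq_one (g₁ x) with h2 | h2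
    · exact h2
    · exact absurd ((Oc.valuation_eq_one_iff _).2 h2) h1
  let g₂ : Q →+* ResidueField Oc :=
    ((residue Oc).comp g₁).comp ((PowerSeries.C (R := k₀)).comp (algebraMap Q k₀))
  obtain ⟨V, hV, hVloc⟩ := IsLocalRing.exists_factor_valuationRing g₂
  let g₃ : Q →+* V := g₂.codRestrict V.toSubring hV
  have hg₃ : IsLocalHom g₃ := hVloc
  let c : Q →+* R := (PowerSeries.C (R := k₀)).comp (algebraMap Q k₀)
  have hQ : Function.Injective (algebraMap Q k₀) := IsFractionRing.injective Q k₀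
  have hcu : ∀ x : Q, x ≠ 0 → IsUnit (c x) := by
    intro x hx
    have h1 : algebraMap Q k₀ x ≠ 0 := fun h => hx (hQ (by rw [h, map_zero]))
    exact (IsUnit.mk0 _ h1).map PowerSeries.C
  let O : ValuationSubring K := compRing Oc V
  have hmem : ∀ x : Q, f₁ (c x) ∈ O := fun x => ⟨g₁ (c x), rfl, hV x⟩
  have hle : O ≤ Oc := by
    rintro _ ⟨y, rfl, -⟩
    exact y.2
  refine ⟨K, inferInstance, inferInstance, O, Oc, f₁ (c PowerSeries.X), f₁ PowerSeries.X,
    (f₁ (c PowerSeries.X))⁻¹, hle, ?_, ?_, ?_, ?_, ?_, ?_⟩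
  · intro n hn
    have hnQ : IsUnit (n : Q) := by
      have h1 : IsUnit (n : ℚ) := IsUnit.mk0 _ (by exact_mod_cast hn)
      have h2 := h1.map (PowerSeries.C (R := ℚ))
      rwa [map_natCast] at h2
    obtain ⟨m, hm⟩ := hnQ.exists_right_inv
    have h1 : f₁ (c (n : Q)) = (n : K) := by simp
    have h2 : (n : K) * f₁ (c m) = 1 := by
      rw [← h1, ← map_mul, ← map_mul, hm, map_one, map_one]
    have h3 : O.valuation (n : K) ≤ 1 := by
      rw [O.valuation_le_one_iff, ← h1]
      exact hmem _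
    have h4 : O.valuation (f₁ (c m)) ≤ 1 := (O.valuation_le_one_iff _).2 (hmem _)
    have h5 := congrArg O.valuation h2
    rw [map_mul, map_one] at h5
    refine le_antisymm h3 ?_
    rw [← h5]
    exact mul_le_of_le_one_right' h4
  · have h1 := hunit _ (hcu PowerSeries.X PowerSeries.X_ne_zero)
    rw [← Oc.valuation_le_one_iff, map_inv₀, h1, inv_one]
  · rintro ⟨y, hy, hyV⟩
    have h0 : f₁ (c PowerSeries.X) ≠ 0 := by
      intro h0
      have h1 := hunit _ (hcu PowerSeries.X PowerSeries.X_ne_zero)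
      rw [h0, map_zero] at h1
      exact zero_ne_one h1
    have h1 : g₁ (c PowerSeries.X) * y = 1 := by
      apply Subtype.ext
      change f₁ (c PowerSeries.X) * (y : K) = 1
      rw [hy, mul_inv_cancel₀ h0]
    have h2 : g₂ PowerSeries.X * residue Oc y = 1 := by
      have := congrArg (residue Oc) h1
      rw [map_mul, map_one] at this
      exact this
    have h3 : IsUnit (g₃ PowerSeries.X) := by
      refine IsUnit.of_mul_eq_one (⟨residue Oc y, hyV⟩ : V) ?_
      exact Subtype.ext h2
    have h4 : IsUnit (PowerSeries.X : Q) := isUnit_of_map_unit g₃ _ h3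
    rw [PowerSeries.isUnit_iff_constantCoeff] at h4
    simp at h4
  · intro h0
    exact PowerSeries.X_ne_zero (hf₁ (by rw [h0, map_zero]))
  · refine hnonunit _ fun h => ?_
    rw [PowerSeries.isUnit_iff_constantCoeff] at h
    simp at h
  · intro g hg
    have h1 : eval₂ (Int.castRingHom K) (f₁ (c PowerSeries.X)) g =
        f₁ (c (eval₂ (Int.castRingHom Q) PowerSeries.X g)) := by
      have h2 := hom_eval₂ g (Int.castRingHom Q) (f₁.comp c) PowerSeries.X
      have h3 : (f₁.comp c).comp (Int.castRingHom Q) = Int.castRingHom K := RingHom.ext_int _ _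
      rw [h3] at h2
      exact h2.symm
    rw [h1]
    refine hunit _ (hcu _ ?_)
    have h4 : eval₂ (Int.castRingHom Q) PowerSeries.X g =
        ((g.map (Int.castRingHom ℚ) : ℚ[X]) : PowerSeries ℚ) := by
      rw [← Polynomial.coeToPowerSeries.ringHom_apply]
      have h5 := hom_eval₂ g (Polynomial.C.comp (Int.castRingHom ℚ))
        (Polynomial.coeToPowerSeries.ringHom (R := ℚ)) X
      have h6 : eval₂ (Polynomial.C.comp (Int.castRingHom ℚ)) X g =
          g.map (Int.castRingHom ℚ) := by
        rw [Polynomial.map]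
      rw [h6] at h5
      rw [h5]
      have h7 : (Polynomial.coeToPowerSeries.ringHom (R := ℚ)).comp
          (Polynomial.C.comp (Int.castRingHom ℚ)) = Int.castRingHom Q := RingHom.ext_int _ _
      rw [h7]
      congr 1
      simp
    rw [h4]
    intro h0
    have h8 : g.map (Int.castRingHom ℚ) = 0 := by
      rw [← Polynomial.coe_zero] at h0
      exact Polynomial.coe_injective ℚ h0
    rw [Polynomial.map_eq_zero_iff (Int.cast_injective)] at h8
    exact hg h8

theorem val_lt_comap {N F : Type u} [Field N] [Field F] (A : ValuationSubring N) (f : F →+* N)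
    (x : F) : (A.comap f).valuation x < 1 ↔ A.valuation (f x) < 1 := by
  rw [← ValuationSubring.mem_nonunits_iff, ← ValuationSubring.mem_nonunits_iff,
    ValuationSubring.mem_nonunits_iff_or, ValuationSubring.mem_nonunits_iff_or,
    ValuationSubring.mem_comap, map_inv₀, map_eq_zero]

theorem val_eq_comap {N F : Type u} [Field N] [Field F] (A : ValuationSubring N) (f : F →+* N)
    (x : F) : (A.comap f).valuation x = 1 ↔ A.valuation (f x) = 1 := by
  have h1 := val_lt_comap A f x
  have h2 : (A.comap f).valuation x ≤ 1 ↔ A.valuation (f x) ≤ 1 := by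
    rw [ValuationSubring.valuation_le_one_iff, ValuationSubring.valuation_le_one_iff,
      ValuationSubring.mem_comap]
  constructor
  · intro h
    exact le_antisymm (h2.1 h.le) (not_lt.1 fun h' => absurd h (h1.2 h').ne)
  · intro h
    exact le_antisymm (h2.2 h.le) (not_lt.1 fun h' => absurd h (h1.1 h').ne)

theorem exists_mod_countable : ∃ (K : Type) (_ : Field K) (_ : IsAlgClosed K) (_ : Countable K)
    (O Oc : ValuationSubring K) (s t u : K), Mod K O Oc s t u := by
  obtain ⟨N, iN, hN, O, Oc, s, t, u, h⟩ := exists_mod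
  let Δ : Subring (N × N) := (RingHom.prod (RingHom.id N) (RingHom.id N)).range
  obtain ⟨D, hD1, hD2, hD3⟩ := exists_countable_subring (S := {(s, s), (t, t), (u, u)})
    (D := Δ) (Set.toFinite _).countable (by
      rintro p (rfl | rfl | rfl)
      · exact ⟨s, rfl⟩
      · exact ⟨t, rfl⟩
      · exact ⟨u, rfl⟩)
  have hr : Rig O.valuation (1 : N) D := by
    intro p hp
    obtain ⟨x, rfl⟩ := hD2 hp
    exact RVl.refl one_ne_zero x
  obtain ⟨F, τ, hFa, hFc, -, hF⟩ := closeup h.nat one_ne_zero (by rw [map_one]) hr hD3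
  have hs : s ∈ F := (hF _ (hD1 (Or.inl rfl))).1
  have ht : t ∈ F := (hF _ (hD1 (Or.inr (Or.inl rfl)))).1
  have hu : u ∈ F := (hF _ (hD1 (Or.inr (Or.inr rfl)))).1
  refine ⟨F, inferInstance, hFa, hFc, O.comap F.subtype, Oc.comap F.subtype, ⟨s, hs⟩, ⟨t, ht⟩,
    ⟨u, hu⟩, ?_, ?_, ?_, ?_, ?_, ?_, ?_⟩
  · intro x hx
    exact h.le hx
  · intro n hn
    rw [val_eq_comap, map_natCast]
    exact h.nat n hn
  · exact h.hu
  · exact h.hu'
  · intro h0
    exact h.ht (congrArg Subtype.val h0)
  · rw [val_lt_comap]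
    exact h.ht'
  · intro g hg
    rw [val_eq_comap, hom_eval₂]
    have : F.subtype.comp (Int.castRingHom F) = Int.castRingHom N := RingHom.ext_int _ _
    rw [this]
    exact h.hs g hg

end Pool.Agent.R611.CX
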